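import Pool.Agent.H87.AX.PF
import Pool.Agent.H87.SA2.TWR

/-! # [AX-PW] The pairs for the anchor of a ramified one-parameter family -/

namespace Pool.Agent.H87.AX

open Finset Polynomial Pool.Agent.H87.SA2 Pool.Agent.H8.AW Pool.Agent.H8.AS Pool.Agent.H52.AC

variable {f : ℤ[X][X]} {d m N : ℕ} {pd : PData f d} {X0 : ℝ}

open Classical in
/-- the number of branches over a root of `p` -/
theorem root_count {K : Type} [Field K] [NumberField K] {f2 : ℤ[X][X]} {d2 : ℕ} {pd2 : PData f2 d2}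
    (kp : KapS K pd2) (ξ : K) {c : ℕ} (hc : c ≠ 0) (P : ℂ[X]) (hP : P ≠ 0) :
    (kp.S.filter fun j => P.eval ((c : ℂ) * kp.kap j ξ) = 0).card * (minpoly ℚ ξ).natDegree ≤
      P.natDegree * d2 := by
  have hcC : (c : ℂ) ≠ 0 := by exact_mod_cast hc
  have h1 : (kp.S.filter fun j => P.eval ((c : ℂ) * kp.kap j ξ) = 0) ⊆
      P.roots.toFinset.biUnion fun r => kp.S.filter fun j => kp.kap j ξ = r / c := by
    intro j hj
    obtain ⟨h2, h3⟩ := mem_filter.1 hj
    rw [mem_biUnion]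
    refine ⟨(c : ℂ) * kp.kap j ξ, ?_, mem_filter.2 ⟨h2, ?_⟩⟩
    · rw [Multiset.mem_toFinset, mem_roots hP]
      exact h3
    · field_simp
  have hS : kp.S.card ≤ d2 := by
    refine (card_le_univ _).trans ?_
    rw [Fintype.card_fin]
  calc (kp.S.filter fun j => P.eval ((c : ℂ) * kp.kap j ξ) = 0).card * (minpoly ℚ ξ).natDegree
      ≤ (∑ r ∈ P.roots.toFinset, (kp.S.filter fun j => kp.kap j ξ = r / c).card) *
          (minpoly ℚ ξ).natDegree :=
        Nat.mul_le_mul_right _ ((card_le_card h1).trans card_biUnion_le)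
    _ = ∑ r ∈ P.roots.toFinset, (kp.S.filter fun j => kp.kap j ξ = r / c).card *
          (minpoly ℚ ξ).natDegree := sum_mul _ _ _
    _ ≤ ∑ r ∈ P.roots.toFinset, d2 := sum_le_sum fun r _ => (fiber_deg kp ξ _).trans hS
    _ = P.roots.toFinset.card * d2 := by rw [sum_const, smul_eq_mul]
    _ ≤ P.natDegree * d2 :=
        Nat.mul_le_mul_right _ ((Multiset.toFinset_card_le _).trans (card_roots' P))

theorem exists_pairX {w la s0 : ℕ} {k : Type} [Field k] [NumberField k]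
    (hX : 1 ≤ X0) (T : TwR pd m N X0 w la s0 k) {Dl κ e M : ℕ} {R : ℝ}
    (an : AnchX (Module.finrank ℚ k) Dl κ e M X0 R) (q : an.I ≃ (k →+* ℂ))
    (hq : ∀ i j, PowerSeries.coeff j (an.zs i) = (X0 : ℂ) ^ j * q i (T.ζ j))
    (hi0 : q an.i0 = Complex.ofRealHom.comp T.ι)
    {K : Type} [Field K] [NumberField K] {f2 : ℤ[X][X]} {d2 : ℕ} {pd2 : PData f2 d2}
    (kp : KapS K pd2) (ξ : K) {c : ℕ} (hc : c ≠ 0) (p : k[X]) (hp : p.Monic) {j0 : Fin d2}
    (hj0 : j0 ∈ kp.S) (τ : K →+* ℝ) (hτ : kp.kap j0 = Complex.ofRealHom.comp τ)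
    (hp0 : p.eval₂ T.ι ((c : ℝ) * τ ξ) = 0)
    (hdeg : 3 * p.natDegree ≤ (minpoly ℚ ξ).natDegree) : Nonempty (PairX an pd2 j0) := by
  classical
  have hX0 : (X0 : ℂ) ≠ 0 := by
    have : X0 ≠ 0 := by linarith
    exact_mod_cast this
  have hint : IsIntegral ℚ ξ := Algebra.IsIntegral.isIntegral ξ
  have hpos : 0 < (minpoly ℚ ξ).natDegree := minpoly.natDegree_pos hint
  let P : Finset (an.I × Fin d2) := univ.filter fun x =>
    x.2 ∈ kp.S ∧ (p.map (q x.1)).eval ((c : ℂ) * kp.kap x.2 ξ) = 0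
  have hP : ∀ x, x ∈ P ↔ x.2 ∈ kp.S ∧ (p.map (q x.1)).eval ((c : ℂ) * kp.kap x.2 ξ) = 0 := by
    intro x
    simp [P]
  refine ⟨⟨P, ?_, ?_, ?_, ?_⟩⟩
  · rw [hP]
    refine ⟨hj0, ?_⟩
    rw [hi0, hτ, eval_map]
    have h1 := Polynomial.hom_eval₂ p T.ι Complex.ofRealHom ((c : ℝ) * τ ξ)
    rw [hp0, map_zero, map_mul, map_natCast] at h1
    exact h1.symm
  · -- the number of pairs
    have h1 : P.card = ∑ i : an.I, (kp.S.filter fun j =>
        (p.map (q i)).eval ((c : ℂ) * kp.kap j ξ) = 0).card := by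
      rw [Finset.card_filter, Fintype.sum_prod_type]
      refine sum_congr rfl fun i _ => ?_
      rw [← Finset.card_filter]
      congr 1
      ext j
      simp
    have h2 : ∀ i : an.I, (kp.S.filter fun j =>
        (p.map (q i)).eval ((c : ℂ) * kp.kap j ξ) = 0).card * (minpoly ℚ ξ).natDegree ≤
        p.natDegree * d2 := by
      intro i
      have h3 := root_count kp ξ hc (p.map (q i)) ((hp.map (q i)).ne_zero)
      rwa [hp.natDegree_map] at h3
    have h4 : Fintype.card an.I = Module.finrank ℚ k := by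
      rw [Fintype.card_congr q, NumberField.Embeddings.card]
    have h5 : 3 * P.card * (minpoly ℚ ξ).natDegree ≤
        Module.finrank ℚ k * d2 * (minpoly ℚ ξ).natDegree := by
      calc 3 * P.card * (minpoly ℚ ξ).natDegree
          = 3 * ∑ i : an.I, (kp.S.filter fun j =>
              (p.map (q i)).eval ((c : ℂ) * kp.kap j ξ) = 0).card * (minpoly ℚ ξ).natDegree := by
            rw [h1, mul_assoc, sum_mul]
        _ ≤ 3 * ∑ i : an.I, p.natDegree * d2 := Nat.mul_le_mul_left _ (sum_le_sum fun i _ => h2 i)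
        _ = Module.finrank ℚ k * d2 * (3 * p.natDegree) := by
            rw [sum_const, card_univ, h4, smul_eq_mul]
            ring
        _ ≤ _ := Nat.mul_le_mul_left _ hdeg
    exact Nat.le_of_mul_le_mul_right h5 hpos
  · intro σ
    obtain ⟨π2, hπ2⟩ := perm_gal pd2 σ
    let q0 : an.I → (k →+* AA) := fun i => (q i).codRestrict AA.toSubring (fun z => kap_mem (q i) z)
    have hq0 : ∀ i z, ((q0 i z : AA) : ℂ) = q i z := fun i z => rfl
    let π1 : an.I → an.I := fun i => q.symm (σ.comp (q0 i))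
    have hπ1 : ∀ i z, q (π1 i) z = σ (q0 i z) := by
      intro i z
      simp [π1]
    have hu : ∀ (i : an.I) (j : ℕ), (((1 / X0 : ℝ)) : ℂ) ^ j * PowerSeries.coeff j (an.zs i) =
        q i (T.ζ j) := by
      intro i j
      rw [hq, ← mul_assoc, ← mul_pow]
      have : ((1 / X0 : ℝ) : ℂ) * (X0 : ℂ) = 1 := by
        push_cast
        field_simp
      rw [this, one_pow, one_mul]
    refine ⟨π1, π2, ?_, hπ2, ?_⟩
    · intro i j a ha
      rw [hu] at ha ⊢
      rw [hπ1]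
      congr 1
      exact Subtype.ext ha
    · intro x hx
      rw [hP] at hx ⊢
      obtain ⟨h1, h2⟩ := hx
      obtain ⟨h3, h4⟩ := kp.gal σ x.2 h1 (π2 x.2) (hπ2 x.2)
      refine ⟨h3, ?_⟩
      obtain ⟨a, ha⟩ : ∃ a : AA, (a : ℂ) = kp.kap x.2 ξ := ⟨⟨_, kap_mem (kp.kap x.2) ξ⟩, rfl⟩
      have h5 : (p.map (q0 x.1)).eval ((c : AA) * a) = 0 := by
        apply (algebraMap AA ℂ).injective
        rw [map_zero, ← h2, ← Polynomial.eval₂_at_apply, eval_map, eval₂_map]
        have e1 : (algebraMap AA ℂ).comp (q0 x.1) = q x.1 := RingHom.ext fun z => rfl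
        have e2 : (algebraMap AA ℂ) ((c : AA) * a) = (c : ℂ) * kp.kap x.2 ξ := by
          rw [map_mul, map_natCast]
          congr 1
        rw [e1, e2]
      have h6 := congrArg σ h5
      rw [map_zero, ← Polynomial.eval₂_at_apply, eval₂_map, map_mul, map_natCast, h4 ξ a ha] at h6
      rw [eval_map]
      have e3 : σ.comp (q0 x.1) = q (π1 x.1) := RingHom.ext fun z => (hπ1 x.1 z).symm
      rw [← e3]
      exact h6
  · intro ζ j j' hζ hjj' i hi
    rw [hP] at hi ⊢
    obtain ⟨h1, h2⟩ := kp.rot ζ j hi.1 j' hζ hjj'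
    refine ⟨h1, ?_⟩
    change (p.map (q i)).eval ((c : ℂ) * kp.kap j' ξ) = 0
    rw [h2]
    exact hi.2

end Pool.Agent.H87.AX
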