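import Pool.Agent.H87.AX.Defs
import Pool.Agent.H8.AW.Pt

/-!
# [AX-GX] The numbers `SX` are algebraic integers and are permuted by the Galois group

Write `u_i = rescale (1/X0) (zs i)` (coefficients `(1/X0)^k coeff k (zs i)`). For `s ≤ k`
`zcR X0 e (zs i) k s j = X0^(s%e) coeff (k-s) ((zs i)^j)` and
`M^⌈k/e⌉ (1/X0)^k zcR = M^(⌈k/e⌉ - s/e) coeff (k-s) (u_i^j)` (as `X0^e = M`, `s = e (s/e) + s%e`,
`(k+e-1)/e ≥ s/e`); for `s > k` both sides are `0`.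
Integrality: `M^⌈k/e⌉ (1/X0)^k = X0^(e⌈k/e⌉ - k)`, `X0` integral (`X0^e = M`), `zs_int`, `pd.integral`
(products of power series with integral coefficients: `PowerSeries.coeff_mul`, induction for powers;
`bX`: `q` and `x_j` integral).
Galois: say `G σ z z'` if `∃ a : AA, (a : ℂ) = z ∧ σ a = z'` (a subring of `ℂ × ℂ`; closed under
sums, products, contains integers). It holds for the coefficients of `u_i`, `u_(π1 i)` and of `x_j`,
`x_(π2 j)` (these are algebraic, `zs_int`, `pd.integral`), so for the coefficients of all products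
and powers, hence for `VX p`, `VX (π1 p.1, π2 p.2)` and for `SX`. If `(b : ℂ) = z = (a : ℂ)` then
`a = b`.
-/

namespace Pool.Agent.H87.AX

open Finset Polynomial Pool.Agent.H72.ES Pool.Agent.H8.KF Pool.Agent.H97.AN Pool.Agent.H87.SA
  Pool.Agent.H87.SA2 Pool.Agent.H8.AW

variable {D Dl κ e M : ℕ} {X0 R : ℝ} {f : ℤ[X][X]} {d : ℕ}

theorem isIntegral_natCast_GX (n : ℕ) : IsIntegral ℤ (n : ℂ) := by
  have h := isIntegral_algebraMap (R := ℤ) (A := ℂ) (x := (n : ℤ))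
  simpa using h

theorem isIntegral_intCast_GX (n : ℤ) : IsIntegral ℤ (n : ℂ) := by
  have h := isIntegral_algebraMap (R := ℤ) (A := ℂ) (x := n)
  simpa using h

/-- all coefficients are algebraic integers -/
def PI_GX (w : PowerSeries ℂ) : Prop := ∀ m, IsIntegral ℤ (PowerSeries.coeff m w)

theorem PI_mul_GX {w w' : PowerSeries ℂ} (h : PI_GX w) (h' : PI_GX w') : PI_GX (w * w') := by
  intro m
  rw [PowerSeries.coeff_mul]
  exact IsIntegral.sum _ fun x _ => (h _).mul (h' _)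

theorem PI_one_GX : PI_GX 1 := by
  intro m
  rw [PowerSeries.coeff_one]
  split_ifs
  · exact isIntegral_one
  · exact isIntegral_zero

theorem PI_pow_GX {w : PowerSeries ℂ} (h : PI_GX w) (n : ℕ) : PI_GX (w ^ n) := by
  induction n with
  | zero => rw [pow_zero]; exact PI_one_GX
  | succ n ih => rw [pow_succ]; exact PI_mul_GX ih h

theorem PI_X_GX : PI_GX PowerSeries.X := by
  intro m
  rw [PowerSeries.coeff_X]
  split_ifs
  · exact isIntegral_one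
  · exact isIntegral_zero

theorem PI_C_GX (q : ℕ) : PI_GX (PowerSeries.C (q : ℂ)) := by
  intro m
  rw [PowerSeries.coeff_C]
  split_ifs
  · exact isIntegral_natCast_GX q
  · exact isIntegral_zero

theorem bX_int_GX (pd : PData f d) (p q l : ℕ) (j : Fin d) : IsIntegral ℤ (bX pd p q l j) :=
  PI_mul_GX (PI_pow_GX (PI_mul_GX (PI_C_GX _) PI_X_GX) _) (PI_pow_GX (pd.integral j) _) l

theorem X0_int_GX (he : 1 ≤ e) (hM : X0 ^ e = (M : ℝ)) : IsIntegral ℤ ((X0 : ℝ) : ℂ) := by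
  refine IsIntegral.of_pow (n := e) he ?_
  have h : ((X0 : ℝ) : ℂ) ^ e = ((M : ℕ) : ℂ) := by
    rw [← Complex.ofReal_pow, hM, Complex.ofReal_natCast]
  rw [h]
  exact isIntegral_natCast_GX M

theorem ceil_GX (he : 1 ≤ e) (k : ℕ) : k ≤ e * ((k + e - 1) / e) := by
  have h := Nat.div_add_mod (k + e - 1) e
  have h2 := Nat.mod_lt (k + e - 1) (by omega : 0 < e)
  omega

/-- the normalising factor is a power of `X0` -/
theorem fac_GX (he : 1 ≤ e) (hX : 1 ≤ X0) (hM : X0 ^ e = (M : ℝ)) (k : ℕ) :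
    (M : ℂ) ^ ((k + e - 1) / e) * (((1 / X0 : ℝ)) : ℂ) ^ k =
      ((X0 : ℝ) : ℂ) ^ (e * ((k + e - 1) / e) - k) := by
  have hX0 : ((X0 : ℝ) : ℂ) ≠ 0 := by
    rw [Complex.ofReal_ne_zero]
    positivity
  have h : (M : ℂ) = ((X0 : ℝ) : ℂ) ^ e := by
    rw [← Complex.ofReal_pow, hM, Complex.ofReal_natCast]
  have h3 := ceil_GX he k
  rw [h, ← pow_mul, Complex.ofReal_div, Complex.ofReal_one, one_div, inv_pow,
    mul_inv_eq_iff_eq_mul₀ (pow_ne_zero _ hX0), ← pow_add]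
  congr 1
  omega

theorem SX_int (an : AnchX D Dl κ e M X0 R) (pd : PData f d) (he : 1 ≤ e) (hX : 1 ≤ X0)
    (hM : X0 ^ e = (M : ℝ)) (J : ℕ) (A : ℕ → ℕ → ℕ → ℕ → ℤ) (k L : ℕ) (p : an.I × Fin d) :
    IsIntegral ℤ (SX an pd J A k L p) := by
  have hX0 := X0_int_GX he hM
  rw [SX]
  refine IsIntegral.sum _ fun l _ => ?_
  rw [VX, fac_GX he hX hM]
  refine (hX0.pow _).mul ?_
  rw [sa]
  refine IsIntegral.sum _ fun s _ => IsIntegral.sum _ fun j _ => IsIntegral.sum _ fun u _ =>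
    IsIntegral.sum _ fun v _ => ?_
  refine (isIntegral_intCast_GX _).mul (IsIntegral.mul ?_ (bX_int_GX pd _ _ _ _))
  rw [zcR]
  exact (hX0.pow _).mul (PI_mul_GX (PI_pow_GX PI_X_GX _) (PI_pow_GX (an.zs_int _) _) k)

/-- `z` and `z'` correspond under `σ` -/
def G_GX (σ : AA →+* ℂ) (z z' : ℂ) : Prop := ∃ a : AA, (a : ℂ) = z ∧ σ a = z'

theorem G_add_GX {σ : AA →+* ℂ} {z z' w w' : ℂ} (h : G_GX σ z z') (h' : G_GX σ w w') :
    G_GX σ (z + w) (z' + w') := by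
  obtain ⟨a, rfl, rfl⟩ := h
  obtain ⟨b, rfl, rfl⟩ := h'
  exact ⟨a + b, rfl, map_add _ _ _⟩

theorem G_mul_GX {σ : AA →+* ℂ} {z z' w w' : ℂ} (h : G_GX σ z z') (h' : G_GX σ w w') :
    G_GX σ (z * w) (z' * w') := by
  obtain ⟨a, rfl, rfl⟩ := h
  obtain ⟨b, rfl, rfl⟩ := h'
  exact ⟨a * b, rfl, map_mul _ _ _⟩

theorem G_zero_GX (σ : AA →+* ℂ) : G_GX σ 0 0 := ⟨0, rfl, map_zero _⟩

theorem G_one_GX (σ : AA →+* ℂ) : G_GX σ 1 1 := ⟨1, rfl, map_one _⟩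

theorem G_int_GX (σ : AA →+* ℂ) (n : ℤ) : G_GX σ n n := by
  refine ⟨(n : AA), ?_, map_intCast _ _⟩
  exact map_intCast (algebraMap AA ℂ) n

theorem G_nat_GX (σ : AA →+* ℂ) (n : ℕ) : G_GX σ n n := by
  refine ⟨(n : AA), ?_, map_natCast _ _⟩
  exact map_natCast (algebraMap AA ℂ) n

theorem G_sum_GX {σ : AA →+* ℂ} {T : Type} (s : Finset T) (z z' : T → ℂ)
    (h : ∀ t ∈ s, G_GX σ (z t) (z' t)) : G_GX σ (∑ t ∈ s, z t) (∑ t ∈ s, z' t) := by
  classical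
  induction s using Finset.induction_on with
  | empty => rw [sum_empty, sum_empty]; exact G_zero_GX σ
  | insert a s ha ih =>
    rw [sum_insert ha, sum_insert ha]
    exact G_add_GX (h a (mem_insert_self a s)) (ih fun t ht => h t (mem_insert_of_mem ht))

theorem G_pow_GX {σ : AA →+* ℂ} {z z' : ℂ} (h : G_GX σ z z') (n : ℕ) :
    G_GX σ (z ^ n) (z' ^ n) := by
  induction n with
  | zero => rw [pow_zero, pow_zero]; exact G_one_GX σ
  | succ n ih => rw [pow_succ, pow_succ]; exact G_mul_GX ih h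

/-- corresponding series -/
def PG_GX (σ : AA →+* ℂ) (w w' : PowerSeries ℂ) : Prop :=
  ∀ m, G_GX σ (PowerSeries.coeff m w) (PowerSeries.coeff m w')

theorem PG_mul_GX {σ : AA →+* ℂ} {w w' v v' : PowerSeries ℂ} (h : PG_GX σ w w')
    (h' : PG_GX σ v v') : PG_GX σ (w * v) (w' * v') := by
  intro m
  rw [PowerSeries.coeff_mul, PowerSeries.coeff_mul]
  exact G_sum_GX _ _ _ fun x _ => G_mul_GX (h _) (h' _)

theorem PG_one_GX (σ : AA →+* ℂ) : PG_GX σ 1 1 := by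
  intro m
  rw [PowerSeries.coeff_one]
  split_ifs
  · exact G_one_GX σ
  · exact G_zero_GX σ

theorem PG_pow_GX {σ : AA →+* ℂ} {w w' : PowerSeries ℂ} (h : PG_GX σ w w') (n : ℕ) :
    PG_GX σ (w ^ n) (w' ^ n) := by
  induction n with
  | zero => rw [pow_zero, pow_zero]; exact PG_one_GX σ
  | succ n ih => rw [pow_succ, pow_succ]; exact PG_mul_GX ih h

theorem PG_X_GX (σ : AA →+* ℂ) : PG_GX σ PowerSeries.X PowerSeries.X := by
  intro m
  rw [PowerSeries.coeff_X]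
  split_ifs
  · exact G_one_GX σ
  · exact G_zero_GX σ

theorem PG_C_GX (σ : AA →+* ℂ) (q : ℕ) : PG_GX σ (PowerSeries.C (q : ℂ))
    (PowerSeries.C (q : ℂ)) := by
  intro m
  rw [PowerSeries.coeff_C]
  split_ifs
  · exact G_nat_GX σ q
  · exact G_zero_GX σ

/-- the scaled coefficient of the anchor -/
theorem zcR_GX (he : 1 ≤ e) (hX : 1 ≤ X0) (hM : X0 ^ e = (M : ℝ)) (Z : PowerSeries ℂ)
    (k s j : ℕ) : (M : ℂ) ^ ((k + e - 1) / e) * (((1 / X0 : ℝ)) : ℂ) ^ k *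
      zcR (X0 : ℂ) e Z k s j = if s ≤ k then (M : ℂ) ^ ((k + e - 1) / e - s / e) *
        PowerSeries.coeff (k - s) ((PowerSeries.rescale (((1 / X0 : ℝ)) : ℂ) Z) ^ j) else 0 := by
  have hX0 : ((X0 : ℝ) : ℂ) ≠ 0 := by
    rw [Complex.ofReal_ne_zero]
    positivity
  have h : (M : ℂ) = ((X0 : ℝ) : ℂ) ^ e := by
    rw [← Complex.ofReal_pow, hM, Complex.ofReal_natCast]
  rw [zcR, PowerSeries.coeff_X_pow_mul']
  split_ifs with hs
  · rw [← map_pow, PowerSeries.coeff_rescale]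
    have h4 : s / e ≤ (k + e - 1) / e := Nat.div_le_div_right (by omega)
    have h5 : (M : ℂ) ^ ((k + e - 1) / e) =
        (M : ℂ) ^ ((k + e - 1) / e - s / e) * (M : ℂ) ^ (s / e) := by
      rw [← pow_add, Nat.sub_add_cancel h4]
    have h6 : (((1 / X0 : ℝ)) : ℂ) ^ k =
        (((1 / X0 : ℝ)) : ℂ) ^ (k - s) * (((1 / X0 : ℝ)) : ℂ) ^ s := by
      rw [← pow_add, Nat.sub_add_cancel hs]
    have h7 : (M : ℂ) ^ (s / e) * ((X0 : ℝ) : ℂ) ^ (s % e) * (((1 / X0 : ℝ)) : ℂ) ^ s = 1 := by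
      rw [h, ← pow_mul, ← pow_add, Nat.div_add_mod, ← mul_pow, Complex.ofReal_div,
        Complex.ofReal_one, one_div, mul_inv_cancel₀ hX0, one_pow]
    rw [h5, h6]
    linear_combination ((M : ℂ) ^ ((k + e - 1) / e - s / e) * (((1 / X0 : ℝ)) : ℂ) ^ (k - s) *
      PowerSeries.coeff (k - s) (Z ^ j)) * h7
  · rw [mul_zero, mul_zero]

theorem sa_smul_GX (n nu J : ℕ) (A : ℕ → ℕ → ℕ → ℕ → ℤ) (u v : ℕ → ℕ → ℂ) (c : ℂ) :
    c * sa n nu J A u v = sa n nu J A (fun s j => c * u s j) v := by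
  simp only [sa, mul_sum]
  refine sum_congr rfl fun i _ => sum_congr rfl fun j _ => sum_congr rfl fun p _ =>
    sum_congr rfl fun q _ => ?_
  ring

theorem SX_gal (an : AnchX D Dl κ e M X0 R) (pd : PData f d) (he : 1 ≤ e) (hX : 1 ≤ X0)
    (hM : X0 ^ e = (M : ℝ)) (J : ℕ) (A : ℕ → ℕ → ℕ → ℕ → ℤ) (k L : ℕ) (σ : AA →+* ℂ)
    (π1 : an.I → an.I) (π2 : Fin d → Fin d)
    (h1 : ∀ (i : an.I) (k : ℕ) (a : AA),
      (a : ℂ) = (((1 / X0 : ℝ)) : ℂ) ^ k * PowerSeries.coeff k (an.zs i) →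
      σ a = (((1 / X0 : ℝ)) : ℂ) ^ k * PowerSeries.coeff k (an.zs (π1 i)))
    (h2 : ∀ (j : Fin d) (k : ℕ) (a : AA), (a : ℂ) = PowerSeries.coeff k (pd.x j) →
      σ a = PowerSeries.coeff k (pd.x (π2 j))) (p : an.I × Fin d) (a : AA)
    (ha : (a : ℂ) = SX an pd J A k L p) : σ a = SX an pd J A k L (π1 p.1, π2 p.2) := by
  have hAA : ∀ z : ℂ, IsIntegral ℤ z → z ∈ AA := fun z hz =>
    mem_algebraicClosure_iff.mpr hz.tower_top.isAlgebraic
  have hX0 : (((1 / X0 : ℝ)) : ℂ) ∈ AA := by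
    rw [Complex.ofReal_div, Complex.ofReal_one, one_div]
    exact inv_mem (hAA _ (X0_int_GX he hM))
  have hu : PG_GX σ (PowerSeries.rescale (((1 / X0 : ℝ)) : ℂ) (an.zs p.1))
      (PowerSeries.rescale (((1 / X0 : ℝ)) : ℂ) (an.zs (π1 p.1))) := by
    intro m
    rw [PowerSeries.coeff_rescale, PowerSeries.coeff_rescale]
    refine ⟨⟨_, mul_mem (pow_mem hX0 m) (hAA _ (an.zs_int p.1 m))⟩, rfl, ?_⟩
    exact h1 p.1 m _ rfl
  have hx : PG_GX σ (pd.x p.2) (pd.x (π2 p.2)) := by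
    intro m
    refine ⟨⟨_, hAA _ (pd.integral p.2 m)⟩, rfl, ?_⟩
    exact h2 p.2 m _ rfl
  have hb : ∀ u v l, G_GX σ (bX pd u v l p.2) (bX pd u v l (π2 p.2)) := by
    intro u v l
    exact PG_mul_GX (PG_pow_GX (PG_mul_GX (PG_C_GX σ _) (PG_X_GX σ)) _) (PG_pow_GX hx _) l
  have hz : ∀ s j, G_GX σ ((M : ℂ) ^ ((k + e - 1) / e) * (((1 / X0 : ℝ)) : ℂ) ^ k *
      zcR (X0 : ℂ) e (an.zs p.1) k s j) ((M : ℂ) ^ ((k + e - 1) / e) *
        (((1 / X0 : ℝ)) : ℂ) ^ k * zcR (X0 : ℂ) e (an.zs (π1 p.1)) k s j) := by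
    intro s j
    rw [zcR_GX he hX hM, zcR_GX he hX hM]
    split_ifs
    · exact G_mul_GX (G_pow_GX (G_nat_GX σ M) _) (PG_pow_GX hu j _)
    · exact G_zero_GX σ
  have hS : G_GX σ (SX an pd J A k L p) (SX an pd J A k L (π1 p.1, π2 p.2)) := by
    rw [SX, SX]
    refine G_sum_GX _ _ _ fun l _ => ?_
    rw [VX, VX, sa_smul_GX, sa_smul_GX, sa, sa]
    refine G_sum_GX _ _ _ fun s _ => G_sum_GX _ _ _ fun j _ => G_sum_GX _ _ _ fun u _ =>
      G_sum_GX _ _ _ fun v _ => ?_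
    exact G_mul_GX (G_int_GX σ _) (G_mul_GX (hz s j) (hb u v _))
  obtain ⟨b, hb1, hb2⟩ := hS
  have hab : a = b := Subtype.ext (ha.trans hb1.symm)
  rw [hab, hb2]

end Pool.Agent.H87.AX
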