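import Pool.Agent.H87.AX.Defs
import Pool.Agent.H8.AW.Ev

/-!
# [AX-PT] The monomials at an integer point

`Pool.Agent.H8.AW.evT`, `CvT`: `CvT_of` (growth of `pd.x j`, `pd.R * ‖T‖ < 1`), `evT_mul`, `evT_C`,
`evT_X` (or the ring homomorphism `evH`): `evT T ((C q * X)^N * x_j^q) = (q T)^N (y/x)^q`, and
`(q T)^(pd.e (3d-p-q)) = x^(-(3d-p-q))`. `T_small`: `‖T‖^e ≤ 1/|x|` (`q ≥ 1`), so
`(b^2 2 ‖T‖)^e ≤ b^(3 e) / |x| ≤ b^(3 d!) / b^(50 d!) ≤ 1` and `2 b^2 ‖T‖ ≤ 1`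
(`pow_le_one_iff_of_nonneg` or `le_of_pow_le_pow_left₀`).
-/

namespace Pool.Agent.H87.AX

open Finset Polynomial Pool.Agent.H72.ES Pool.Agent.H8.KF Pool.Agent.H97.AN Pool.Agent.H87.SA
  Pool.Agent.H87.SA2 Pool.Agent.H8.AW

variable {d b : ℕ} {F : ℕ → ℕ → ℤ}

theorem x_ne_PT (Q : Tgt d b F) {x y : ℤ} {j : Fin d} {T : ℂ} (pt : PtX Q x y j T) :
    (x : ℂ) ≠ 0 := by
  intro h
  have h1 := pt.hT
  rw [h, mul_zero] at h1
  exact zero_ne_one h1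

theorem T_pow_le (Q : Tgt d b F) {x y : ℤ} {j : Fin d} {T : ℂ} (pt : PtX Q x y j T) :
    ‖T‖ ^ Q.pd.e ≤ 1 / |(x : ℝ)| := by
  have hx := x_ne_PT Q pt
  have hx0 : (x : ℝ) ≠ 0 := by exact_mod_cast hx
  have hxp : 0 < |(x : ℝ)| := abs_pos.mpr hx0
  have h1 := congrArg (fun z : ℂ => ‖z‖) pt.hT
  simp only [norm_mul, norm_pow, norm_one, Complex.norm_natCast, Complex.norm_intCast] at h1
  rw [le_div_iff₀ hxp]
  have hq : (1 : ℝ) ≤ Q.pd.q := by exact_mod_cast Q.pd.q_pos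
  have h2 : ‖T‖ ^ Q.pd.e ≤ ((Q.pd.q : ℝ) * ‖T‖) ^ Q.pd.e :=
    pow_le_pow_left₀ (norm_nonneg _) (le_mul_of_one_le_left (norm_nonneg _) hq) _
  calc ‖T‖ ^ Q.pd.e * |(x : ℝ)| ≤ ((Q.pd.q : ℝ) * ‖T‖) ^ Q.pd.e * |(x : ℝ)| :=
        mul_le_mul_of_nonneg_right h2 hxp.le
    _ = 1 := h1

theorem T_small (Q : Tgt d b F) {x y : ℤ} {j : Fin d} {T : ℂ} (pt : PtX Q x y j T)
    (hx : BX d b ^ 5 ≤ |(x : ℝ)|) : 2 * ((b : ℝ) ^ 2 * ‖T‖) ≤ 1 := by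
  have hb : (2 : ℝ) ≤ b := by exact_mod_cast Q.b2
  have hb1 : (1 : ℝ) ≤ b := by linarith
  have hbp : (0 : ℝ) < b := by linarith
  have h1 := T_pow_le Q pt
  have he := Q.e_le
  have hBX : 0 < BX d b ^ 5 := by rw [BX]; positivity
  have hxp : 0 < |(x : ℝ)| := lt_of_lt_of_le hBX hx
  have h2 : (2 * ((b : ℝ) ^ 2 * ‖T‖)) ^ Q.pd.e ≤ 1 := by
    calc (2 * ((b : ℝ) ^ 2 * ‖T‖)) ^ Q.pd.e ≤ ((b : ℝ) ^ 3 * ‖T‖) ^ Q.pd.e := by
          refine pow_le_pow_left₀ (by positivity) ?_ _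
          have : (b : ℝ) ^ 3 * ‖T‖ = b * ((b : ℝ) ^ 2 * ‖T‖) := by ring
          rw [this]
          exact mul_le_mul_of_nonneg_right hb (by positivity)
      _ = (b : ℝ) ^ (3 * Q.pd.e) * ‖T‖ ^ Q.pd.e := by rw [mul_pow, pow_mul]
      _ ≤ (b : ℝ) ^ (3 * Q.pd.e) * (1 / |(x : ℝ)|) :=
          mul_le_mul_of_nonneg_left h1 (by positivity)
      _ ≤ 1 := by
          rw [mul_one_div, div_le_one hxp]
          refine le_trans ?_ hx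
          rw [BX, ← pow_mul]
          refine pow_le_pow_right₀ hb1 ?_
          omega
  exact (pow_le_one_iff_of_nonneg (by positivity) (by have := Q.pd.e_pos; omega)).mp h2

theorem CvT_pow_PT {T : ℂ} {a : PowerSeries ℂ} (ha : CvT T a) (n : ℕ) : CvT T (a ^ n) := by
  induction n with
  | zero =>
    rw [pow_zero]
    have := CvT.C T 1
    rwa [map_one] at this
  | succ n ih => rw [pow_succ]; exact ih.mul ha

theorem evT_pow_PT {T : ℂ} {a : PowerSeries ℂ} (ha : CvT T a) (n : ℕ) :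
    evT T (a ^ n) = evT T a ^ n := by
  induction n with
  | zero =>
    rw [pow_zero, pow_zero]
    have := evT_C T 1
    rwa [map_one] at this
  | succ n ih => rw [pow_succ, evT_mul (CvT_pow_PT ha n) ha, ih, pow_succ]

theorem mono_sum (Q : Tgt d b F) {x y : ℤ} {j : Fin d} {T : ℂ} (pt : PtX Q x y j T)
    (hx : BX d b ^ 5 ≤ |(x : ℝ)|) (p q : ℕ) (hpq : p + q ≤ 3 * d) :
    HasSum (fun l => bX Q.pd p q l j * T ^ l) ((x : ℂ) ^ p * (y : ℂ) ^ q / (x : ℂ) ^ (3 * d)) := by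
  have hx0 := x_ne_PT Q pt
  have hb : (2 : ℝ) ≤ b := by exact_mod_cast Q.b2
  have h1 := T_small Q pt hx
  have hRb := Q.R_le
  have hR2 := Q.pd.R_ge
  have hcx : CvT T (Q.pd.x j) := by
    refine CvT_of (R := Q.pd.R) (by linarith) (Q.pd.growth j) ?_
    have h2 : Q.pd.R * ‖T‖ ≤ (b : ℝ) ^ 2 * ‖T‖ := by
      refine mul_le_mul_of_nonneg_right ?_ (norm_nonneg _)
      nlinarith
    linarith
  have hcX : CvT T (PowerSeries.C (Q.pd.q : ℂ) * PowerSeries.X) := (CvT.C T _).mul (CvT.X T)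
  have hc1 := CvT_pow_PT hcX (Q.pd.e * (3 * d - p - q))
  have hc2 := CvT_pow_PT hcx q
  have hs := (hc1.mul hc2).hasSum
  have hex : evT T (Q.pd.x j) = (y : ℂ) / (x : ℂ) := pt.sum.tsum_eq
  have hval : evT T ((PowerSeries.C (Q.pd.q : ℂ) * PowerSeries.X) ^ (Q.pd.e * (3 * d - p - q)) *
      Q.pd.x j ^ q) = (x : ℂ) ^ p * (y : ℂ) ^ q / (x : ℂ) ^ (3 * d) := by
    rw [evT_mul hc1 hc2, evT_pow_PT hcX, evT_pow_PT hcx, hex, evT_mul (CvT.C T _) (CvT.X T),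
      evT_C, evT_X, pow_mul]
    have h3 : ((Q.pd.q : ℂ) * T) ^ Q.pd.e = 1 / (x : ℂ) := by
      rw [eq_div_iff hx0]
      exact pt.hT
    have h4 : 3 * d = (3 * d - p - q) + p + q := by omega
    have h5 : (x : ℂ) ^ (3 * d) = (x : ℂ) ^ (3 * d - p - q) * (x : ℂ) ^ p * (x : ℂ) ^ q := by
      conv_lhs => rw [h4]
      rw [pow_add, pow_add]
    rw [h3, h5]
    have h6 : (x : ℂ) ^ (3 * d - p - q) ≠ 0 := pow_ne_zero _ hx0
    have h7 : (x : ℂ) ^ p ≠ 0 := pow_ne_zero _ hx0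
    have h8 : (x : ℂ) ^ q ≠ 0 := pow_ne_zero _ hx0
    rw [one_div, inv_pow, _root_.div_pow]
    field_simp
  rw [hval] at hs
  exact hs

end Pool.Agent.H87.AX
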