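import Pool.Agent.H87.AX.BB
import Pool.Agent.H87.AX.PT
import Pool.Agent.H97.AN.Pt
import Pool.Agent.H8.KF.Stage1

/-!
# [AX-ST] The coefficients of the auxiliary series are small at the integer point

Compare `Pool/Agent/H87/SA/St1S.lean`. `c p q = ∑_(s ≤ J) ∑_(j < D) A s j p q * u s j`,
`|c p q| ≤ M := (3 d la + 1) (D (Z Bu))`, `c p q = 0` unless `p + q ≤ 3 d`, `q < d`. The sum is
`∑_(p+q ≤ 3d) c p q x^p y^q = x^(3d) ∑_l S_l T^l`, `S_l = ∑ c p q bX p q l j` (`mono_sum`, finite sums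
of `HasSum`), `S_l = 0` for `l < e L0`, `L0 = (TT - k + la - 1) / la ≤ 6 d + 1`, `TT - k ≤ la L0`
(`l < e L0` gives `l / e < L0`, `k + la (l/e) < TT`, `hv`). `‖S_l‖ ≤ (3 d + 1)^2 M b^(2 l + 2 d)`
(`bX_le`), so (`T_small`, geometric series)
`|∑_l S_l T^l| ≤ 2 (3 d + 1)^2 M b^(2 d) (b^2 ‖T‖)^(e L0) ≤ 2 (3 d + 1)^2 M b^(2 d + 2 e L0) / |x|^L0`
(`T_pow_le`), and `X^(TT - k) ≤ X^(la L0) ≤ |x|^L0`. Finally
`2 (3 d + 1)^2 b^(2 d + 2 d! (6 d + 1)) ≤ (3 d + 1) BX^(26 d)`.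
-/

namespace Pool.Agent.H87.AX

open Finset Polynomial Pool.Agent.H72.ES Pool.Agent.H8.KF Pool.Agent.H97.AN Pool.Agent.H87.SA
  Pool.Agent.H87.SA2 Pool.Agent.H8.AW

variable {d b : ℕ} {F : ℕ → ℕ → ℤ}

/-- swapping the sums -/
theorem sa_swap_ST (n nu J : ℕ) (A : ℕ → ℕ → ℕ → ℕ → ℤ) (u v : ℕ → ℕ → ℂ) :
    ∑ p ∈ range (3 * n + 1), ∑ q ∈ range (3 * n + 1 - p),
      (∑ s ∈ range (J + 1), ∑ j ∈ range nu, ((A s j p q : ℤ) : ℂ) * u s j) * v p q =
    sa n nu J A u v := by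
  unfold sa
  rw [sum_sigma', sum_sigma']
  have h1 : ∀ x : (Σ _ : ℕ, ℕ),
      (∑ i ∈ range (J + 1), ∑ j ∈ range nu, ((A i j x.1 x.2 : ℤ) : ℂ) * u i j) *
        v x.1 x.2 = ∑ y ∈ (range (J + 1)).sigma fun _ => range nu,
          ((A y.1 y.2 x.1 x.2 : ℤ) : ℂ) * (u y.1 y.2 * v x.1 x.2) := by
    intro x
    rw [sum_sigma', sum_mul]
    exact sum_congr rfl fun y _ => by ring
  rw [sum_congr rfl fun x _ => h1 x, sum_comm]
  refine sum_congr rfl fun y _ => ?_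
  rw [sum_sigma']

/-- the value of a series which starts late -/
theorem late_ST {S : ℕ → ℂ} {T V : ℂ} {K β : ℝ} {m : ℕ} (hK : 0 ≤ K) (hβ : 0 ≤ β)
    (h : HasSum (fun l => S l * T ^ l) V) (h0 : ∀ l < m, S l = 0)
    (hS : ∀ l, ‖S l‖ ≤ K * β ^ l) (hT : 2 * (β * ‖T‖) ≤ 1) :
    ‖V‖ ≤ 2 * (K * (β * ‖T‖) ^ m) := by
  set ρ : ℝ := β * ‖T‖ with hρ
  have hρ0 : 0 ≤ ρ := by positivity
  have hρ1 : ρ < 1 := by linarith
  have h1 : HasSum (fun l => S (l + m) * T ^ (l + m)) V := by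
    have h2 := (hasSum_nat_add_iff' (f := fun l => S l * T ^ l) m).mpr h
    have h3 : ∑ i ∈ range m, S i * T ^ i = 0 := by
      refine sum_eq_zero fun i hi => ?_
      rw [h0 i (mem_range.mp hi), zero_mul]
    rw [h3, sub_zero] at h2
    exact h2
  have h4 : HasSum (fun l => K * ρ ^ m * ρ ^ l) (K * ρ ^ m * (1 - ρ)⁻¹) :=
    (hasSum_geometric_of_lt_one hρ0 hρ1).mul_left _
  have h5 : ‖V‖ ≤ K * ρ ^ m * (1 - ρ)⁻¹ := by
    refine HasSum.norm_le_of_bounded h1 h4 fun l => ?_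
    rw [norm_mul, norm_pow]
    calc ‖S (l + m)‖ * ‖T‖ ^ (l + m) ≤ (K * β ^ (l + m)) * ‖T‖ ^ (l + m) :=
          mul_le_mul_of_nonneg_right (hS _) (by positivity)
      _ = K * ρ ^ m * ρ ^ l := by
          rw [hρ, mul_pow, mul_pow]
          ring
  refine h5.trans ?_
  have h6 : (1 - ρ)⁻¹ ≤ 2 := by
    rw [inv_le_comm₀ (by linarith) (by norm_num)]
    linarith
  calc K * ρ ^ m * (1 - ρ)⁻¹ ≤ K * ρ ^ m * 2 := mul_le_mul_of_nonneg_left h6 (by positivity)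
    _ = 2 * (K * ρ ^ m) := by ring

theorem st1X (Q : Tgt d b F) {x y : ℤ} {j0 : Fin d} {T : ℂ} (pt : PtX Q x y j0 T)
    (D la : ℕ) (hla : 8 * d ≤ la) (A : ℕ → ℕ → ℕ → ℕ → ℤ) (hA : SuppA d D (3 * d * la) A)
    (Z : ℝ) (hZ : ∀ s j p q, |((A s j p q : ℤ) : ℝ)| ≤ Z) (u : ℕ → ℕ → ℝ) (Bu : ℝ)
    (hu : ∀ s ≤ 3 * d * la, ∀ j < D, |u s j| ≤ Bu) (hBu : 0 ≤ Bu) (k : ℕ)
    (hv : ∀ l, k + la * (l / Q.pd.e) < TT d la →
      sa d D (3 * d * la) A (fun s j => ((u s j : ℝ) : ℂ)) (fun p q => bX Q.pd p q l j0) = 0)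
    (hxb : BX d b ^ 5 ≤ |(x : ℝ)|) (X : ℝ) (hX : 1 ≤ X) (hx : X ^ la ≤ |(x : ℝ)|) :
    |∑ s ∈ range (3 * d * la + 1), ∑ j ∈ range D, ((spec d A x y s j : ℤ) : ℝ) * u s j| *
        X ^ (TT d la - k) ≤
      |(x : ℝ)| ^ (3 * d) * ((3 * d + 1) * ((3 * d * la + 1) * (D * (Z * Bu))) *
        BX d b ^ (26 * d)) := by
  have hd := Q.d4
  have hb : (2 : ℝ) ≤ b := by exact_mod_cast Q.b2
  have hb1 : (1 : ℝ) ≤ b := by linarith
  have hbp : (0 : ℝ) < b := by linarith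
  have he1 := Q.pd.e_pos
  have hef := Q.e_le
  set e := Q.pd.e with hed
  have hx0 : (x : ℂ) ≠ 0 := x_ne_PT Q pt
  have hxR : (x : ℝ) ≠ 0 := by exact_mod_cast hx0
  have hxp : 0 < |(x : ℝ)| := abs_pos.mpr hxR
  have hTs := T_small Q pt hxb
  have hTp := T_pow_le Q pt
  have hTT := st1_TT hd hla
  have hZ0 : 0 ≤ Z := (abs_nonneg _).trans (hZ 0 0 0 0)
  set J := 3 * d * la with hJ
  set c : ℕ → ℕ → ℝ := fun p q => ∑ s ∈ range (J + 1),
    ∑ j ∈ range D, ((A s j p q : ℤ) : ℝ) * u s j with hc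
  set M : ℝ := (3 * d * la + 1) * (D * (Z * Bu)) with hM
  have hcM : ∀ p q, |c p q| ≤ M := by
    intro p q
    rw [hc]
    refine (abs_sum_le_sum_abs _ _).trans ?_
    calc ∑ s ∈ range (J + 1), |∑ j ∈ range D, ((A s j p q : ℤ) : ℝ) * u s j| ≤
          ∑ _s ∈ range (J + 1), D * (Z * Bu) := by
          refine sum_le_sum fun s hs => ?_
          refine (abs_sum_le_sum_abs _ _).trans ?_
          calc ∑ j ∈ range D, |((A s j p q : ℤ) : ℝ) * u s j| ≤ ∑ _j ∈ range D, Z * Bu := by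
                refine sum_le_sum fun j hj => ?_
                rw [abs_mul]
                rw [mem_range] at hs hj
                exact mul_le_mul (hZ _ _ _ _) (hu s (by omega) j hj) (abs_nonneg _) hZ0
            _ = D * (Z * Bu) := by rw [sum_const, card_range, nsmul_eq_mul]
      _ = M := by
          rw [sum_const, card_range, nsmul_eq_mul, hM, hJ]
          push_cast
          ring
  have hM0 : 0 ≤ M := (abs_nonneg _).trans (hcM 0 0)
  have hcs : ∀ p q, ¬ q < d → c p q = 0 := by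
    intro p q hne
    rw [hc]
    refine sum_eq_zero fun s _ => sum_eq_zero fun j _ => ?_
    have h1 : A s j p q = 0 := by
      by_contra hne'
      exact hne (hA s j p q hne').2.2
    rw [h1]
    simp
  have hcC : ∀ p q, ((c p q : ℝ) : ℂ) = ∑ s ∈ range (J + 1), ∑ j ∈ range D,
      ((A s j p q : ℤ) : ℂ) * ((u s j : ℝ) : ℂ) := by
    intro p q
    rw [hc]
    push_cast
    rfl
  -- the coefficients of the series
  set S : ℕ → ℂ := fun l => ∑ p ∈ range (3 * d + 1), ∑ q ∈ range (3 * d + 1 - p),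
    ((c p q : ℝ) : ℂ) * bX Q.pd p q l j0 with hS
  have hSsa : ∀ l, S l = sa d D J A (fun s j => ((u s j : ℝ) : ℂ))
      (fun p q => bX Q.pd p q l j0) := by
    intro l
    rw [hS, ← sa_swap_ST]
    simp only [hcC]
  set V : ℂ := ∑ p ∈ range (3 * d + 1), ∑ q ∈ range (3 * d + 1 - p),
    ((c p q : ℝ) : ℂ) * ((x : ℂ) ^ p * (y : ℂ) ^ q / (x : ℂ) ^ (3 * d)) with hV
  have hsum : HasSum (fun l => S l * T ^ l) V := by
    have h1 : HasSum (fun l => ∑ p ∈ range (3 * d + 1), ∑ q ∈ range (3 * d + 1 - p),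
        ((c p q : ℝ) : ℂ) * (bX Q.pd p q l j0 * T ^ l)) V := by
      refine hasSum_sum fun p hp => hasSum_sum fun q hq => ?_
      rw [mem_range] at hp hq
      exact (mono_sum Q pt hxb p q (by omega)).mul_left _
    have h2 : (fun l => S l * T ^ l) = fun l => ∑ p ∈ range (3 * d + 1),
        ∑ q ∈ range (3 * d + 1 - p), ((c p q : ℝ) : ℂ) * (bX Q.pd p q l j0 * T ^ l) := by
      funext l
      rw [hS]
      simp only [sum_mul]
      exact sum_congr rfl fun p _ => sum_congr rfl fun q _ => by ring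
    rw [h2]
    exact h1
  -- the left side
  have hval : ((∑ s ∈ range (J + 1), ∑ j ∈ range D, ((spec d A x y s j : ℤ) : ℝ) * u s j : ℝ) :
      ℂ) = (x : ℂ) ^ (3 * d) * V := by
    have h1 : (x : ℂ) ^ (3 * d) * V = sa d D J A (fun s j => ((u s j : ℝ) : ℂ))
        (fun p q => (x : ℂ) ^ p * (y : ℂ) ^ q) := by
      rw [← sa_swap_ST, hV, mul_sum]
      refine sum_congr rfl fun p _ => ?_
      rw [mul_sum]
      refine sum_congr rfl fun q _ => ?_
      rw [← hcC]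
      have h3 : (x : ℂ) ^ (3 * d) ≠ 0 := pow_ne_zero _ hx0
      field_simp
    rw [h1]
    unfold sa spec ev
    push_cast
    refine sum_congr rfl fun s _ => sum_congr rfl fun j _ => ?_
    rw [sum_mul]
    refine sum_congr rfl fun p _ => ?_
    rw [sum_mul]
    refine sum_congr rfl fun q _ => ?_
    ring
  set L : ℕ := (TT d la - k + la - 1) / la with hL
  have hlapos : 0 < la := by omega
  have hL1 : TT d la - k ≤ la * L := by
    have h1 : TT d la - k + la - 1 < la * (L + 1) := by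
      rw [hL]
      exact Nat.lt_mul_div_succ _ hlapos
    rw [mul_add, mul_one] at h1
    omega
  have hL2 : ∀ l < L, k + la * l < TT d la := by
    intro l hl
    have h1 : la * (l + 1) ≤ la * L := Nat.mul_le_mul_left _ hl
    have h2 : la * L ≤ TT d la - k + la - 1 := by
      rw [hL]
      exact Nat.mul_div_le _ _
    rw [mul_add, mul_one] at h1
    omega
  have hL3 : L ≤ 6 * d + 1 := by
    rw [hL]
    have h1 : TT d la - k + la - 1 < (6 * d + 2) * la := by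
      have h3 : (6 * d + 2) * la = (6 * d + 1) * la + la := by ring
      omega
    have := Nat.div_lt_of_lt_mul (show TT d la - k + la - 1 < la * (6 * d + 2) by
      rw [mul_comm]; exact h1)
    omega
  have hS0 : ∀ l < e * L, S l = 0 := by
    intro l hl
    rw [hSsa]
    exact hv l (hL2 _ (Nat.div_lt_of_lt_mul hl))
  set K : ℝ := (3 * d + 1) ^ 2 * M * (b : ℝ) ^ (2 * d) with hK
  have hK0 : 0 ≤ K := by positivity
  have hSb : ∀ l, ‖S l‖ ≤ K * ((b : ℝ) ^ 2) ^ l := by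
    intro l
    have h1 : ∀ p q, ‖((c p q : ℝ) : ℂ) * bX Q.pd p q l j0‖ ≤
        M * (b : ℝ) ^ (2 * l + 2 * d) := by
      intro p q
      by_cases hq : q < d
      · rw [norm_mul, Complex.norm_real, Real.norm_eq_abs]
        refine mul_le_mul (hcM p q) ?_ (norm_nonneg _) hM0
        exact (bX_le Q p q l j0).trans (pow_le_pow_right₀ hb1 (by omega))
      · rw [hcs p q hq, Complex.ofReal_zero, zero_mul, norm_zero]
        positivity
    rw [hS]
    refine (norm_sum_le _ _).trans ?_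
    calc ∑ p ∈ range (3 * d + 1), ‖∑ q ∈ range (3 * d + 1 - p),
          ((c p q : ℝ) : ℂ) * bX Q.pd p q l j0‖
        ≤ ∑ _p ∈ range (3 * d + 1), (3 * d + 1 : ℝ) * (M * (b : ℝ) ^ (2 * l + 2 * d)) := by
          refine sum_le_sum fun p _ => ?_
          refine (norm_sum_le _ _).trans ?_
          refine (sum_le_sum fun q _ => h1 p q).trans ?_
          rw [sum_const, card_range, nsmul_eq_mul]
          refine mul_le_mul_of_nonneg_right ?_ (by positivity)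
          have : ((3 * d + 1 - p : ℕ) : ℝ) ≤ ((3 * d + 1 : ℕ) : ℝ) := by
            exact_mod_cast Nat.sub_le _ _
          push_cast at this ⊢
          exact this
      _ = K * ((b : ℝ) ^ 2) ^ l := by
          rw [sum_const, card_range, nsmul_eq_mul, hK, ← pow_mul, pow_add]
          push_cast
          ring
  have hmain := late_ST hK0 (by positivity) hsum hS0 hSb hTs
  have hpow : ((b : ℝ) ^ 2 * ‖T‖) ^ (e * L) * X ^ (TT d la - k) ≤
      (b : ℝ) ^ (2 * (d.factorial * (6 * d + 1))) := by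
    have h1 : X ^ (TT d la - k) ≤ |(x : ℝ)| ^ L := by
      calc X ^ (TT d la - k) ≤ X ^ (la * L) := pow_le_pow_right₀ hX hL1
        _ = (X ^ la) ^ L := pow_mul _ _ _
        _ ≤ |(x : ℝ)| ^ L := pow_le_pow_left₀ (by positivity) hx L
    have h2 : ((b : ℝ) ^ 2 * ‖T‖) ^ (e * L) ≤ (b : ℝ) ^ (2 * (e * L)) * (1 / |(x : ℝ)|) ^ L := by
      rw [mul_pow, ← pow_mul, pow_mul ‖T‖]
      exact mul_le_mul_of_nonneg_left (pow_le_pow_left₀ (by positivity) hTp L) (by positivity)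
    calc ((b : ℝ) ^ 2 * ‖T‖) ^ (e * L) * X ^ (TT d la - k)
        ≤ ((b : ℝ) ^ (2 * (e * L)) * (1 / |(x : ℝ)|) ^ L) * |(x : ℝ)| ^ L :=
          mul_le_mul h2 h1 (by positivity) (by positivity)
      _ = (b : ℝ) ^ (2 * (e * L)) := by
          rw [mul_assoc, ← mul_pow, one_div, inv_mul_cancel₀ hxp.ne', one_pow, mul_one]
      _ ≤ (b : ℝ) ^ (2 * (d.factorial * (6 * d + 1))) :=
          pow_le_pow_right₀ hb1 (Nat.mul_le_mul_left _ (Nat.mul_le_mul hef hL3))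
  have hnum : 2 * (3 * d + 1 : ℝ) * ((b : ℝ) ^ (2 * d) *
      (b : ℝ) ^ (2 * (d.factorial * (6 * d + 1)))) ≤ BX d b ^ (26 * d) := by
    have h1 : 2 * (3 * d + 1 : ℝ) ≤ (b : ℝ) ^ (3 * d + 2) := by
      have h2 : 3 * d + 1 < 2 ^ (3 * d + 1) := Nat.lt_two_pow_self
      have h3 : (3 * d + 1 : ℝ) ≤ 2 ^ (3 * d + 1) := by exact_mod_cast h2.le
      calc 2 * (3 * d + 1 : ℝ) ≤ 2 * 2 ^ (3 * d + 1) := by linarith
        _ = 2 ^ (3 * d + 2) := by ring
        _ ≤ (b : ℝ) ^ (3 * d + 2) := pow_le_pow_left₀ (by norm_num) hb _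
    calc 2 * (3 * d + 1 : ℝ) * ((b : ℝ) ^ (2 * d) * (b : ℝ) ^ (2 * (d.factorial * (6 * d + 1))))
        ≤ (b : ℝ) ^ (3 * d + 2) * ((b : ℝ) ^ (2 * d) *
          (b : ℝ) ^ (2 * (d.factorial * (6 * d + 1)))) :=
          mul_le_mul_of_nonneg_right h1 (by positivity)
      _ = (b : ℝ) ^ (3 * d + 2 + (2 * d + 2 * (d.factorial * (6 * d + 1)))) := by
          rw [← pow_add, ← pow_add]
      _ ≤ (b : ℝ) ^ (10 * d.factorial * (26 * d)) := by
          refine pow_le_pow_right₀ hb1 ?_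
          have hdF : d ≤ d.factorial := Nat.self_le_factorial d
          have h8 : d.factorial * 4 ≤ d.factorial * d := Nat.mul_le_mul_left _ hd
          have h9 : d.factorial * (6 * d + 1) = 6 * (d.factorial * d) + d.factorial := by ring
          have h10 : 10 * d.factorial * (26 * d) = 260 * (d.factorial * d) := by ring
          rw [h9, h10]
          omega
      _ = BX d b ^ (26 * d) := by rw [BX, pow_mul]
  have habs : |∑ s ∈ range (J + 1), ∑ j ∈ range D, ((spec d A x y s j : ℤ) : ℝ) * u s j| =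
      |(x : ℝ)| ^ (3 * d) * ‖V‖ := by
    rw [← Real.norm_eq_abs, ← Complex.norm_real, hval, norm_mul, norm_pow, Complex.norm_intCast]
  rw [habs]
  calc |(x : ℝ)| ^ (3 * d) * ‖V‖ * X ^ (TT d la - k)
      ≤ |(x : ℝ)| ^ (3 * d) * (2 * (K * ((b : ℝ) ^ 2 * ‖T‖) ^ (e * L))) *
          X ^ (TT d la - k) := by gcongr
    _ = |(x : ℝ)| ^ (3 * d) * (2 * (K * (((b : ℝ) ^ 2 * ‖T‖) ^ (e * L) *
          X ^ (TT d la - k)))) := by ring
    _ ≤ |(x : ℝ)| ^ (3 * d) * (2 * (K * (b : ℝ) ^ (2 * (d.factorial * (6 * d + 1))))) := by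
        gcongr
    _ = |(x : ℝ)| ^ (3 * d) * ((3 * d + 1) * M * (2 * (3 * d + 1 : ℝ) * ((b : ℝ) ^ (2 * d) *
          (b : ℝ) ^ (2 * (d.factorial * (6 * d + 1)))))) := by
        rw [hK]
        ring
    _ ≤ |(x : ℝ)| ^ (3 * d) * ((3 * d + 1) * M * BX d b ^ (26 * d)) := by
        gcongr

end Pool.Agent.H87.AX
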