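import Pool.Agent.H87.AX.FF
import Pool.Agent.H8.AF.Num

/-! # [AX-FN] Closed forms of the exponents -/

namespace Pool.Agent.H87.AX

open Pool.Agent.H34.AC Pool.Agent.H52.AC Pool.Agent.H87.SA2 Pool.Agent.H8.AF

theorem E1_le {n d m : ℕ} (hn : 3 ≤ n) : E1 (n * (n + 1)) d m ≤
    10 ^ 14 * n ^ 8 * d ^ 11 * (m + 1) ^ 4 * d.factorial ^ 7 *
      (14 * d ^ 2) ^ ((2 * d + 1) * m * d.factorial) := by
  have h1 : 3 * (n * (n + 1)) ≤ 4 * n ^ 2 := by nlinarith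
  have h2 : (3 * (n * (n + 1))) ^ 4 ≤ (4 * n ^ 2) ^ 4 := Nat.pow_le_pow_left h1 4
  have h3 : 81 * (n * (n + 1)) ^ 4 ≤ 256 * n ^ 8 := by
    calc 81 * (n * (n + 1)) ^ 4 = (3 * (n * (n + 1))) ^ 4 := by ring
      _ ≤ _ := h2
      _ = 256 * n ^ 8 := by ring
  have h4 : 10 ^ 13 * (n * (n + 1)) ^ 4 ≤ 10 ^ 14 * n ^ 8 := by
    have h5 : 10 ^ 13 * (n * (n + 1)) ^ 4 ≤ 10 ^ 13 * (10 * n ^ 8) := by
      refine Nat.mul_le_mul_left _ ?_
      omega
    refine h5.trans (le_of_eq ?_)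
    ring
  unfold E1
  gcongr

theorem E2X_le {n d m : ℕ} (hn : 3 ≤ n) (hd : 1 ≤ d) :
    E2X n d m ≤ 2 ^ (2 * n ^ 2).factorial * (d ^ 4 * (m + 1) ^ 2 * d.factorial ^ 6) := by
  obtain ⟨D, hD⟩ : ∃ D, D = d ^ 4 * (m + 1) ^ 2 * d.factorial ^ 6 := ⟨_, rfl⟩
  obtain ⟨N, hN⟩ : ∃ N, N = n * (n + 1) := ⟨_, rfl⟩
  have hN12 : 12 ≤ N := by rw [hN]; nlinarith
  obtain ⟨f, hf⟩ : ∃ f, f = N.factorial := ⟨_, rfl⟩
  have hf1 : 479001600 ≤ f := by
    rw [hf]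
    calc 479001600 = (12).factorial := by decide
      _ ≤ _ := Nat.factorial_le hN12
  have hfac : 1 ≤ d.factorial := Nat.factorial_pos d
  have hcR1 : 1 ≤ cR n := by unfold cR; omega
  have hD1 : 1 ≤ D := by
    rw [hD]
    exact Nat.mul_pos (Nat.mul_pos (by positivity) (by positivity)) (by positivity)
  obtain ⟨K, hK⟩ : ∃ K, K = KB d m := ⟨_, rfl⟩
  have hKD : K ≤ 22 * D := by
    rw [hK, hD]
    unfold KB
    have h1 : d ^ 2 ≤ d ^ 4 := Nat.pow_le_pow_right hd (by norm_num)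
    have h2 : d.factorial ^ 3 ≤ d.factorial ^ 6 := Nat.pow_le_pow_right hfac (by norm_num)
    have h3 : m + 1 ≤ (m + 1) ^ 2 := Nat.le_self_pow (by norm_num) _
    calc 22 * d ^ 2 * d.factorial ^ 3 * (m + 1) ≤ 22 * d ^ 4 * d.factorial ^ 6 * (m + 1) ^ 2 := by
          gcongr
      _ = _ := by ring
  have hKf : d.factorial * K ≤ 22 * D := by
    rw [hK, hD]
    unfold KB
    have h1 : d ^ 2 ≤ d ^ 4 := Nat.pow_le_pow_right hd (by norm_num)
    have h2 : d.factorial ^ 4 ≤ d.factorial ^ 6 := Nat.pow_le_pow_right hfac (by norm_num)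
    have h3 : m + 1 ≤ (m + 1) ^ 2 := Nat.le_self_pow (by norm_num) _
    calc d.factorial * (22 * d ^ 2 * d.factorial ^ 3 * (m + 1))
        = 22 * d ^ 2 * d.factorial ^ 4 * (m + 1) := by ring
      _ ≤ 22 * d ^ 4 * d.factorial ^ 6 * (m + 1) ^ 2 := by gcongr
      _ = _ := by ring
  have hKK : K ^ 2 = 484 * D := by
    rw [hK, hD]
    unfold KB
    ring
  -- the main comparison with `cF`
  have hmain : E2X n d m ≤ cF n * D := by
    obtain ⟨c, hc⟩ : ∃ c, c = cR n := ⟨_, rfl⟩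
    have hc1 : 1 ≤ c := by rw [hc]; exact hcR1
    have hW : EW n d m ≤ (44 * 10 ^ 6 * N ^ 3 + 220 * 10 ^ 6 * N ^ 3 * (f * c) +
        968 * 10 ^ 6 * N ^ 6) * D := by
      have e1 : EW n d m = 2 * 10 ^ 6 * N ^ 3 * (d.factorial * K) +
          10 * 10 ^ 6 * N ^ 3 * (f * c) * K + 2 * 10 ^ 6 * N ^ 6 * K ^ 2 := by
        unfold EW
        rw [← hN, ← hK, ← hf, ← hc]
        ring
      rw [e1, hKK]
      calc 2 * 10 ^ 6 * N ^ 3 * (d.factorial * K) + 10 * 10 ^ 6 * N ^ 3 * (f * c) * K +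
            2 * 10 ^ 6 * N ^ 6 * (484 * D)
          ≤ 2 * 10 ^ 6 * N ^ 3 * (22 * D) + 10 * 10 ^ 6 * N ^ 3 * (f * c) * (22 * D) +
            2 * 10 ^ 6 * N ^ 6 * (484 * D) := by gcongr
        _ = _ := by ring
    have hn1 : n + 1 ≤ 2 * n + 3 := by omega
    have hfc : f ≤ f * c := Nat.le_mul_of_pos_right _ hc1
    have hcfc : c ≤ f * c := Nat.le_mul_of_pos_left _ (by omega)
    -- everything is at most a multiple of `N ^ 7 * (f * c)`
    have hNN : N ^ 4 ≤ N ^ 7 := Nat.pow_le_pow_right (by omega) (by norm_num)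
    have hN1 : N ≤ N ^ 7 := Nat.le_self_pow (by norm_num) _
    have hN4 : 1728 * N ^ 4 ≤ N ^ 7 := by
      have h1 : 12 ^ 3 ≤ N ^ 3 := Nat.pow_le_pow_left hN12 3
      calc 1728 * N ^ 4 = 12 ^ 3 * N ^ 4 := by norm_num
        _ ≤ N ^ 3 * N ^ 4 := Nat.mul_le_mul_right _ h1
        _ = N ^ 7 := by ring
    have hA : 2 * N + 3 + c + N * ((44 * 10 ^ 6 * N ^ 3 + 220 * 10 ^ 6 * N ^ 3 * (f * c) +
        968 * 10 ^ 6 * N ^ 6)) + 1 ≤ 2 * 10 ^ 7 * N ^ 7 * (f * c) := by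
      have a1 : 44 * 10 ^ 6 * N ^ 4 ≤ N ^ 7 * (f * c) := by
        calc 44 * 10 ^ 6 * N ^ 4 ≤ f * N ^ 4 := Nat.mul_le_mul_right _ (by omega)
          _ ≤ (f * c) * N ^ 7 := Nat.mul_le_mul hfc hNN
          _ = _ := by ring
      have a2 : 220 * 10 ^ 6 * N ^ 4 * (f * c) ≤ 130000 * (N ^ 7 * (f * c)) := by
        calc 220 * 10 ^ 6 * N ^ 4 * (f * c) ≤ 130000 * (1728 * N ^ 4) * (f * c) := by
              refine Nat.mul_le_mul_right _ ?_
              nlinarith [Nat.zero_le (N ^ 4)]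
          _ ≤ 130000 * N ^ 7 * (f * c) := by gcongr
          _ = _ := by ring
      have a3 : 968 * 10 ^ 6 * N ^ 7 ≤ 3 * (N ^ 7 * (f * c)) := by
        calc 968 * 10 ^ 6 * N ^ 7 ≤ (3 * f) * N ^ 7 := Nat.mul_le_mul_right _ (by omega)
          _ ≤ (3 * (f * c)) * N ^ 7 := by gcongr
          _ = _ := by ring
      have a4 : N ≤ N ^ 7 * (f * c) :=
        hN1.trans (Nat.le_mul_of_pos_right _ (by omega))
      have a5 : c ≤ N ^ 7 * (f * c) :=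
        hcfc.trans (Nat.le_mul_of_pos_left _ (by positivity))
      have a6 : 4 ≤ N ^ 7 * (f * c) := le_trans (by omega) a4
      have e : 2 * N + 3 + c + N * ((44 * 10 ^ 6 * N ^ 3 + 220 * 10 ^ 6 * N ^ 3 * (f * c) +
          968 * 10 ^ 6 * N ^ 6)) + 1 = 2 * N + 4 + c + 44 * 10 ^ 6 * N ^ 4 +
          220 * 10 ^ 6 * N ^ 4 * (f * c) + 968 * 10 ^ 6 * N ^ 7 := by ring
      rw [e]
      have e2 : 2 * 10 ^ 7 * N ^ 7 * (f * c) = 2 * 10 ^ 7 * (N ^ 7 * (f * c)) := by ring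
      rw [e2]
      omega
    calc E2X n d m = 1 + (n + 1) * (2 * N + 3 + c + N * EW n d m) := by
          unfold E2X
          rw [← hN, ← hc]
      _ ≤ 1 + (n + 1) * (2 * N + 3 + c + N * ((44 * 10 ^ 6 * N ^ 3 +
            220 * 10 ^ 6 * N ^ 3 * (f * c) + 968 * 10 ^ 6 * N ^ 6) * D)) := by gcongr
      _ ≤ (n + 1) * (2 * N + 3 + c + N * ((44 * 10 ^ 6 * N ^ 3 +
            220 * 10 ^ 6 * N ^ 3 * (f * c) + 968 * 10 ^ 6 * N ^ 6)) + 1) * D := by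
          obtain ⟨u, hu⟩ : ∃ u, u = 44 * 10 ^ 6 * N ^ 3 +
            220 * 10 ^ 6 * N ^ 3 * (f * c) + 968 * 10 ^ 6 * N ^ 6 := ⟨_, rfl⟩
          obtain ⟨v, hv⟩ : ∃ v, v = 2 * N + 3 + c := ⟨_, rfl⟩
          rw [← hu, ← hv]
          have h1 : v ≤ v * D := Nat.le_mul_of_pos_right _ hD1
          have h2 : 1 ≤ (n + 1) * D := Nat.mul_pos (by omega) hD1
          calc 1 + (n + 1) * (v + N * (u * D)) ≤ (n + 1) * D + (n + 1) * (v * D + N * (u * D)) := by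
                gcongr
            _ = (n + 1) * (v + N * u + 1) * D := by ring
      _ ≤ (n + 1) * (2 * 10 ^ 7 * N ^ 7 * (f * c)) * D := by gcongr
      _ ≤ cF n * D := by
          refine Nat.mul_le_mul_right _ ?_
          have e3 : cF n = (2 * n + 3) * (2 * 10 ^ 7 * N ^ 7 * (f * c)) := by
            unfold cF cA
            rw [← hN, ← hf, ← hc]
            ring
          rw [e3]
          exact Nat.mul_le_mul_right _ hn1
  calc E2X n d m ≤ cF n * D := hmain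
    _ ≤ 2 ^ (2 * n ^ 2).factorial * D := Nat.mul_le_mul_right _ (cF_le hn)
    _ = _ := by rw [hD]

end Pool.Agent.H87.AX
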