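import Pool.Agent.H87.AX.Defs

/-!
# [AX-BB] Bounds for the coefficients along the branches of the target

`bX pd p q l j = q^N coeff (l - N) (x_j^q)` with `N = pd.e (3 d - p - q)` if `N ≤ l`, else `0`
(`mul_pow`, `PowerSeries.coeff_X_pow_mul'`). `Pool.Agent.H87.SA2.coeff_pow_le`/`coeff_pow_le` (see
`Pool/Agent/H87/SA2/DnB.lean`, `SubMul` of the norm) with `A = R = pd.R`:
`‖coeff m (x_j^q)‖ ≤ R^q 2^(m+q) R^m ≤ b^(2 m + 2 q)`.
Cell sum: `pd.e ≤ d! ≤ b^(d!)`, `6 ≤ b^3`, exponent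
`2 (d! (6 d + 1)) + 2 d + d! + 3 ≤ 130 d d!`.
-/

namespace Pool.Agent.H87.AX

open Finset Polynomial Pool.Agent.H72.ES Pool.Agent.H8.KF Pool.Agent.H97.AN Pool.Agent.H87.SA
  Pool.Agent.H87.SA2 Pool.Agent.H8.AW

variable {d b : ℕ} {F : ℕ → ℕ → ℤ}

theorem subMul_norm_BB : SubMul (fun z : ℂ => ‖z‖) where
  nonneg a := norm_nonneg a
  zero := norm_zero
  neg a := norm_neg a
  add a b := norm_add_le a b
  mul a b := (norm_mul a b).le
  one := norm_one.le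

theorem bX_eq_BB {f : ℤ[X][X]} {d : ℕ} (pd : PData f d) (p q l : ℕ) (j : Fin d) :
    bX pd p q l j = if pd.e * (3 * d - p - q) ≤ l then (pd.q : ℂ) ^ (pd.e * (3 * d - p - q)) *
      PowerSeries.coeff (l - pd.e * (3 * d - p - q)) (pd.x j ^ q) else 0 := by
  rw [bX, mul_pow, ← map_pow, mul_assoc, PowerSeries.coeff_C_mul, PowerSeries.coeff_X_pow_mul']
  split_ifs
  · rfl
  · rw [mul_zero]

theorem bX_le (Q : Tgt d b F) (p q l : ℕ) (j : Fin d) :
    ‖bX Q.pd p q l j‖ ≤ (b : ℝ) ^ (2 * l + 2 * q) := by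
  have hb : (2 : ℝ) ≤ b := by exact_mod_cast Q.b2
  have hb1 : (1 : ℝ) ≤ b := by linarith
  have hR2 := Q.pd.R_ge
  have hRb := Q.R_le
  have hq0 : (Q.pd.q : ℝ) ≤ b := by exact_mod_cast Q.q_le
  rw [bX_eq_BB]
  set N := Q.pd.e * (3 * d - p - q) with hN
  split_ifs with h
  · have h1 := Pool.Agent.H87.SA.coeff_pow_le subMul_norm_BB (A := Q.pd.R) (R := Q.pd.R)
      (by linarith) (by linarith) (Z := Q.pd.x j) (fun k => by
        rw [← pow_succ']
        exact Q.pd.growth j k) (l - N) q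
    rw [norm_mul, norm_pow, Complex.norm_natCast]
    calc (Q.pd.q : ℝ) ^ N * ‖PowerSeries.coeff (l - N) (Q.pd.x j ^ q)‖
        ≤ (b : ℝ) ^ N * (Q.pd.R ^ q * 2 ^ (l - N + q) * Q.pd.R ^ (l - N)) := by
          refine mul_le_mul (pow_le_pow_left₀ (by positivity) hq0 N) h1 (norm_nonneg _)
            (by positivity)
      _ ≤ (b : ℝ) ^ N * ((b : ℝ) ^ q * (b : ℝ) ^ (l - N + q) * (b : ℝ) ^ (l - N)) := by
          have h2 : Q.pd.R ^ q ≤ (b : ℝ) ^ q := pow_le_pow_left₀ (by linarith) hRb q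
          have h3 : Q.pd.R ^ (l - N) ≤ (b : ℝ) ^ (l - N) := pow_le_pow_left₀ (by linarith) hRb _
          have h4 : (2 : ℝ) ^ (l - N + q) ≤ (b : ℝ) ^ (l - N + q) :=
            pow_le_pow_left₀ (by norm_num) hb _
          have h5 : 0 ≤ Q.pd.R ^ (l - N) := pow_nonneg (by linarith) _
          have h6 : 0 ≤ Q.pd.R ^ q := pow_nonneg (by linarith) _
          gcongr
      _ = (b : ℝ) ^ (N + (q + (l - N + q) + (l - N))) := by
          rw [← pow_add, ← pow_add, ← pow_add]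
      _ ≤ (b : ℝ) ^ (2 * l + 2 * q) := pow_le_pow_right₀ hb1 (by omega)
  · rw [norm_zero]
    positivity

theorem bX_cell (Q : Tgt d b F) (p q L : ℕ) (hq : q ≤ d) (hL : L < 6 * d + 1) (j : Fin d) :
    6 * ∑ l ∈ range Q.pd.e, ‖bX Q.pd p q (Q.pd.e * L + l) j‖ ≤ BX d b ^ (13 * d) := by
  have hb : (2 : ℝ) ≤ b := by exact_mod_cast Q.b2
  have hb1 : (1 : ℝ) ≤ b := by linarith
  have he := Q.e_le
  have hd := Q.d4
  set e := Q.pd.e with hed
  set Fd := d.factorial with hFd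
  have hdF : d ≤ Fd := Nat.self_le_factorial d
  have h1 : ∑ l ∈ range e, ‖bX Q.pd p q (e * L + l) j‖ ≤
      e * (b : ℝ) ^ (2 * (Fd * (6 * d + 1)) + 2 * d) := by
    have h2 : ∀ l ∈ range e, ‖bX Q.pd p q (e * L + l) j‖ ≤
        (b : ℝ) ^ (2 * (Fd * (6 * d + 1)) + 2 * d) := by
      intro l hl
      rw [mem_range] at hl
      refine (bX_le Q p q _ j).trans (pow_le_pow_right₀ hb1 ?_)
      have h3 : e * L + l ≤ e * (L + 1) := by rw [mul_add, mul_one]; omega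
      have h4 : e * (L + 1) ≤ Fd * (6 * d + 1) := Nat.mul_le_mul he (by omega)
      omega
    refine (sum_le_sum h2).trans ?_
    rw [sum_const, card_range, nsmul_eq_mul]
  have h5 : (e : ℝ) ≤ (b : ℝ) ^ Fd := by
    have h6 : e < 2 ^ Fd := lt_of_le_of_lt he Nat.lt_two_pow_self
    have h7 : (e : ℝ) ≤ (2 : ℝ) ^ Fd := by exact_mod_cast h6.le
    exact h7.trans (pow_le_pow_left₀ (by norm_num) hb _)
  have h6 : (6 : ℝ) ≤ (b : ℝ) ^ 3 := by
    calc (6 : ℝ) ≤ 2 ^ 3 := by norm_num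
      _ ≤ (b : ℝ) ^ 3 := pow_le_pow_left₀ (by norm_num) hb _
  calc 6 * ∑ l ∈ range e, ‖bX Q.pd p q (e * L + l) j‖
      ≤ (b : ℝ) ^ 3 * ((b : ℝ) ^ Fd * (b : ℝ) ^ (2 * (Fd * (6 * d + 1)) + 2 * d)) := by
        refine mul_le_mul h6 (h1.trans ?_) (sum_nonneg fun _ _ => norm_nonneg _) (by positivity)
        exact mul_le_mul_of_nonneg_right h5 (by positivity)
    _ = (b : ℝ) ^ (3 + (Fd + (2 * (Fd * (6 * d + 1)) + 2 * d))) := by
        rw [← pow_add, ← pow_add]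
    _ ≤ (b : ℝ) ^ (10 * Fd * (13 * d)) := by
        refine pow_le_pow_right₀ hb1 ?_
        have h8 : Fd * d ≥ Fd * 4 := Nat.mul_le_mul_left _ hd
        have h9 : Fd * (6 * d + 1) = 6 * (Fd * d) + Fd := by ring
        have h10 : 10 * Fd * (13 * d) = 130 * (Fd * d) := by ring
        rw [h9, h10]
        omega
    _ = BX d b ^ (13 * d) := by rw [BX, pow_mul]

end Pool.Agent.H87.AX
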