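import Pool.Agent.H87.AX.Defs

/-!
# [AX-CC] Real coordinates of a family stable under complex conjugation

Injection `g : ι → ℕ` (`Fintype.equivFin`); `s p = decide (g p ≤ g (c p))`. Let `p ∈ P`.
* `c p = p`: `v p` is real, `s p = true`, `‖v p‖ = |re| < 1/2`.
* `g p < g (c p)`: `s p = true`, `|re v p| < 1/2`; `s (c p) = false` as `c (c p) = p`, so
  `|im v (c p)| = |im v p| < 1/2`; `Complex.norm_le_abs_re_add_abs_im`.
* `g p > g (c p)`: symmetric.
-/

namespace Pool.Agent.H87.AX

open Finset

theorem coord_conj {ι : Type} [Fintype ι] (P : Finset ι) (c : ι → ι) (hc : ∀ p ∈ P, c p ∈ P)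
    (hcc : ∀ p ∈ P, c (c p) = p) :
    ∃ s : ι → Bool, ∀ v : ι → ℂ, (∀ p ∈ P, v (c p) = starRingEnd ℂ (v p)) →
      (∀ p ∈ P, |if s p then (v p).re else (v p).im| < 1 / 2) → ∀ p ∈ P, ‖v p‖ < 1 := by
  classical
  let g : ι → ℕ := fun p => (Fintype.equivFin ι p : ℕ)
  have hg : Function.Injective g := fun p q h =>
    (Fintype.equivFin ι).injective (Fin.ext h)
  refine ⟨fun p => decide (g p ≤ g (c p)), ?_⟩
  intro v hv hs p hp
  have hsp := hs p hp
  have hvp := hv p hp
  have hre : (v (c p)).re = (v p).re := by rw [hvp, Complex.conj_re]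
  have him : (v (c p)).im = -(v p).im := by rw [hvp, Complex.conj_im]
  rcases lt_trichotomy (g p) (g (c p)) with h | h | h
  · -- `|re| < 1/2`, `|im| < 1/2`
    have h1 : |(v p).re| < 1 / 2 := by
      rw [if_pos (by simpa using h.le)] at hsp
      exact hsp
    have h2 : |(v p).im| < 1 / 2 := by
      have h3 := hs (c p) (hc p hp)
      rw [if_neg (by simp only [hcc p hp]; simpa using h), him, abs_neg] at h3
      exact h3
    have h4 := Complex.norm_le_abs_re_add_abs_im (v p)
    linarith
  · have h0 : c p = p := (hg h).symm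
    have h1 : |(v p).re| < 1 / 2 := by
      rw [if_pos (by simpa using h.le)] at hsp
      exact hsp
    have h2 : (v p).im = 0 := by
      rw [h0] at him
      linarith
    have h4 := Complex.norm_le_abs_re_add_abs_im (v p)
    rw [h2, abs_zero] at h4
    linarith
  · have h1 : |(v p).im| < 1 / 2 := by
      rw [if_neg (by simpa using h)] at hsp
      exact hsp
    have h2 : |(v p).re| < 1 / 2 := by
      have h3 := hs (c p) (hc p hp)
      rw [if_pos (by simp only [hcc p hp]; simpa using h.le), hre] at h3
      exact h3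
    have h4 := Complex.norm_le_abs_re_add_abs_im (v p)
    linarith

end Pool.Agent.H87.AX
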