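import Pool.Agent.H87.AX.Defs
import Pool.Agent.H72.ES.NormPoly
import Pool.Agent.H72.ES.Low
import Pool.Agent.H72.ES.Mult

/-!
# [AX-NZ] A nonzero polynomial of small height does not vanish at a large point of the target

Adapt `Pool/Agent/H8/KF/NZ.lean` and `Pool/Agent/H72/ES/NormPoly.lean`, but purely algebraically:
`Fp = toP d F ∈ ℤ[x][y]` monic of degree `d` in `y`, `W = toP (3 d) B` (`y`-degree `< d`, nonzero).
`Γ` = companion matrix of `Fp` over `ℤ[x]` (as in NormPoly), `M = ∑_k W_k Γ^k`, `N = det M`.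
* `L1 N ≤ d! (L2 W c^(d-1))^d`, `c` = bound of the column sums of `Γ` (`(d+1) (d+1) b + 1`).
* `N(x) = 0` if `W(x,y) = 0 = Fp(x,y)`: the row vector `v = (1, y, ..., y^(d-1))` satisfies
  `v Γ(x) = y v`, so `v M(x) = W(x,y) v = 0`, `v ≠ 0`, `det M(x) = 0`.
* `N ≠ 0`: otherwise `M P = 0` for a nonzero `P ∈ ℤ[x]^d` (`Matrix.exists_mulVec_eq_zero_iff`);
  then `Fp ∣ W * ∑ P_j y^j` in `ℤ[x][y]` (this is what `M P` computes modulo `Fp`), over `ℚ` `FQ d F`
  (= `Fp` mapped to `ℚ[X][X]`) is irreducible, so prime (`ℚ[X][X]` is a UFD), so it divides a nonzero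
  polynomial of smaller degree: contradiction.
* a nonzero integer polynomial `N` with `N(x) = 0` has `|x| ≤ L1 N` (`Pool.Agent.H72.ES.low` or
  directly).
Numbers: `d! ≤ d^d`, everything per factor: `d * ((3 d + 1) * (3 d + 1) * Z * ((d+1)^2 * b + 1)^(d-1))
≤ BX d b * Z`, `BX d b = b^(10 d!)`, `b ≥ 2`, `d ≥ 4` (generous; `(d+1)^2 b + 1 ≤ b^(d + 3)`...,
`(d - 1)(d + 3) + ... ≤ 10 d!`).
-/

namespace Pool.Agent.H87.AX

open Finset Polynomial Pool.Agent.H72.ES Pool.Agent.H8.KF Pool.Agent.H97.AN Pool.Agent.H87.SA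
  Pool.Agent.H87.SA2 Pool.Agent.H8.AW

variable {d b : ℕ} {F : ℕ → ℕ → ℤ}

theorem coeff_L1_NZ (hle : ∀ i j, |F i j| ≤ (b : ℤ)) (j : ℕ) :
    L1 ((toP d F).coeff j) ≤ (d + 1) * b := by
  rw [coeff_toP]
  refine (L1_sum_le _ _).trans ?_
  have h : ∀ i ∈ range (d + 1), L1 (if j < d + 1 - i then C (F i j) * X ^ i else 0) ≤ (b : ℝ) := by
    intro i _
    split_ifs with h
    · rw [L1_monomial]
      have := hle i j
      exact_mod_cast this
    · rw [L1_zero]
      positivity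
  refine (sum_le_sum h).trans ?_
  rw [sum_const, card_range, nsmul_eq_mul]
  push_cast
  exact le_rfl

theorem coeff_top_NZ (hlead : F 0 d = 1) : (toP d F).coeff d = 1 := by
  rw [coeff_toP, sum_eq_single 0]
  · simp [hlead]
  · intro i _ hi
    rw [if_neg (by omega)]
  · simp

theorem natDegree_NZ (F : ℕ → ℕ → ℤ) (d : ℕ) : (toP d F).natDegree ≤ d :=
  natDegree_le_iff_coeff_eq_zero.2 fun _ hj => toP_coeff_gt d F hj

theorem monic_NZ (hlead : F 0 d = 1) : (toP d F).Monic :=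
  monic_of_natDegree_le_of_coeff_eq_one d (natDegree_NZ F d) (coeff_top_NZ hlead)

theorem natDegree_eq_NZ (hlead : F 0 d = 1) : (toP d F).natDegree = d := by
  refine le_antisymm (natDegree_NZ F d) (le_natDegree_of_ne_zero ?_)
  rw [coeff_top_NZ hlead]
  exact one_ne_zero

theorem colB_NZ (hd : 1 ≤ d) (hb : 1 ≤ b) (hle : ∀ i j, |F i j| ≤ (b : ℤ)) :
    ColB (Pool.Agent.H72.ES.comp d F) ((d : ℝ) * ((d + 1) * b)) := by
  have hd1 : (1 : ℝ) ≤ d := by exact_mod_cast hd
  have hb1 : (1 : ℝ) ≤ b := by exact_mod_cast hb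
  intro j
  by_cases hj : (j : ℕ) + 1 = d
  · calc ∑ i, L1 (Pool.Agent.H72.ES.comp d F i j) = ∑ i : Fin d, L1 ((toP d F).coeff i) := by
          refine sum_congr rfl fun i _ => ?_
          simp only [Pool.Agent.H72.ES.comp, if_pos hj, L1_neg]
      _ ≤ ∑ _i : Fin d, ((d : ℝ) + 1) * b := sum_le_sum fun i _ => coeff_L1_NZ hle _
      _ = d * (((d : ℝ) + 1) * b) := by simp
  · have hj' : (j : ℕ) + 1 < d := by
      have := j.2
      omega
    rw [sum_eq_single (⟨(j : ℕ) + 1, hj'⟩ : Fin d)]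
    · simp only [Pool.Agent.H72.ES.comp, if_neg hj, if_true]
      rw [L1_one]
      have h1 : (1 : ℝ) ≤ (d + 1) * b := one_le_mul_of_one_le_of_one_le (by linarith) hb1
      exact one_le_mul_of_one_le_of_one_le hd1 h1
    · intro i _ hi
      have : ¬ (i : ℕ) = (j : ℕ) + 1 := fun h => hi (Fin.ext h)
      simp only [Pool.Agent.H72.ES.comp, if_neg hj, if_neg this, L1_zero]
    · simp

/-- the companion matrix acts on the powers of a root -/
theorem act_NZ {S : Type*} [CommRing S] (ψ : ℤ[X] →+* S) (Y : S) (hlead : F 0 d = 1)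
    (hY : eval₂ ψ Y (toP d F) = 0) (W : ℤ[X][X]) (D : ℕ) (hWd : W.natDegree ≤ D) :
    Matrix.vecMul (fun i : Fin d => Y ^ (i : ℕ))
      (ψ.mapMatrix (∑ k ∈ range (D + 1), W.coeff k • Pool.Agent.H72.ES.comp d F ^ k)) =
      eval₂ ψ Y W • (fun i : Fin d => Y ^ (i : ℕ)) := by
  set Γ := Pool.Agent.H72.ES.comp d F with hΓ
  set v : Fin d → S := fun i => Y ^ (i : ℕ) with hv
  have hYn : Y ^ d = - ∑ i ∈ range d, ψ ((toP d F).coeff i) * Y ^ i := by
    have hdeg : (toP d F).natDegree < d + 1 := Nat.lt_succ_of_le (natDegree_NZ F d)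
    rw [eval₂_eq_sum_range' _ hdeg, sum_range_succ, coeff_top_NZ hlead, map_one, one_mul] at hY
    exact eq_neg_of_add_eq_zero_right hY
  have hact : Matrix.vecMul v (ψ.mapMatrix Γ) = Y • v := by
    funext j
    simp only [Matrix.vecMul, dotProduct, hv, RingHom.mapMatrix_apply, Matrix.map_apply,
      Pi.smul_apply, smul_eq_mul]
    by_cases hj : (j : ℕ) + 1 = d
    · have h1 : ∀ i : Fin d, Y ^ (i : ℕ) * ψ (Γ i j) =
          -(ψ ((toP d F).coeff i) * Y ^ (i : ℕ)) := by
        intro i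
        simp only [hΓ, Pool.Agent.H72.ES.comp, if_pos hj, map_neg]
        ring
      rw [sum_congr rfl fun i _ => h1 i, sum_neg_distrib,
        Fin.sum_univ_eq_sum_range (fun i => ψ ((toP d F).coeff i) * Y ^ i) d, ← hYn]
      rw [← pow_succ', hj]
    · have hj' : (j : ℕ) + 1 < d := by
        have := j.2
        omega
      rw [sum_eq_single (⟨(j : ℕ) + 1, hj'⟩ : Fin d)]
      · simp only [hΓ, Pool.Agent.H72.ES.comp, if_neg hj, if_true, map_one, mul_one]
        rw [pow_succ']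
      · intro i _ hi
        have : ¬ (i : ℕ) = (j : ℕ) + 1 := fun h => hi (Fin.ext h)
        simp only [hΓ, Pool.Agent.H72.ES.comp, if_neg hj, if_neg this, map_zero, mul_zero]
      · simp
  have hactk : ∀ k : ℕ, Matrix.vecMul v (ψ.mapMatrix (Γ ^ k)) = Y ^ k • v := by
    intro k
    induction k with
    | zero => simp
    | succ k ih =>
      rw [pow_succ, map_mul, ← Matrix.vecMul_vecMul, ih, Matrix.smul_vecMul, hact, smul_smul,
        pow_succ]
  have hW' : eval₂ ψ Y W = ∑ k ∈ range (D + 1), ψ (W.coeff k) * Y ^ k :=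
    eval₂_eq_sum_range' _ (Nat.lt_succ_of_le hWd) _
  rw [map_sum, Matrix.vecMul_sum, hW', sum_smul]
  refine sum_congr rfl fun k _ => ?_
  have h1 : ψ.mapMatrix (W.coeff k • Γ ^ k) = ψ (W.coeff k) • ψ.mapMatrix (Γ ^ k) := by
    ext i j
    simp [Matrix.map_apply]
  rw [h1, Matrix.vecMul_smul, hactk, smul_smul]

theorem FQ_eq_NZ (d : ℕ) (F : ℕ → ℕ → ℤ) :
    FQ d F = (toP d F).map (mapRingHom (Int.castRingHom ℚ)) := by
  ext j i
  rw [coeff_map, coe_mapRingHom, coeff_map, toP_coeff, FQ, finsetSum_coeff]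
  simp only [coeff_C_mul, coeff_X_pow, mul_ite, mul_one, mul_zero]
  rw [sum_ite_eq]
  simp only [mem_range]
  by_cases hj : j < d + 1
  · rw [if_pos hj, finsetSum_coeff]
    simp only [coeff_C_mul, coeff_X_pow, mul_ite, mul_one, mul_zero]
    rw [sum_ite_eq]
    simp only [mem_range]
    by_cases hi : i + j ≤ d
    · rw [if_pos hi, if_pos (by omega)]
      rfl
    · rw [if_neg hi, if_neg (by omega), map_zero]
  · rw [if_neg hj, coeff_zero, if_neg (by omega), map_zero]

/-- the determinant does not vanish -/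
theorem det_ne_NZ (hd : 4 ≤ d) (hlead : F 0 d = 1) (hirr : Irreducible (FQ d F)) (W : ℤ[X][X])
    (hW0 : W ≠ 0) (hWd : W.natDegree ≤ d - 1) :
    (∑ k ∈ range (d - 1 + 1), W.coeff k • Pool.Agent.H72.ES.comp d F ^ k).det ≠ 0 := by
  intro hdet
  set Fp := toP d F with hFp
  obtain ⟨p, hp, hMp⟩ := Matrix.exists_mulVec_eq_zero_iff.2 hdet
  set ψ : ℤ[X] →+* AdjoinRoot Fp := AdjoinRoot.of Fp with hψ
  set Y : AdjoinRoot Fp := AdjoinRoot.root Fp with hY
  have hroot : eval₂ ψ Y Fp = 0 := AdjoinRoot.eval₂_root Fp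
  have hact := act_NZ ψ Y hlead hroot W (d - 1) hWd
  set M := ∑ k ∈ range (d - 1 + 1), W.coeff k • Pool.Agent.H72.ES.comp d F ^ k with hM
  set v : Fin d → AdjoinRoot Fp := fun i => Y ^ (i : ℕ) with hv
  have h1 : dotProduct v (Matrix.mulVec (ψ.mapMatrix M) (fun i => ψ (p i))) = 0 := by
    have h2 : Matrix.mulVec (ψ.mapMatrix M) (fun i => ψ (p i)) = 0 := by
      funext i
      have := congrArg ψ (congrFun hMp i)
      simpa [Matrix.mulVec, dotProduct, map_sum] using this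
    rw [h2]
    simp
  rw [Matrix.dotProduct_mulVec, hact, smul_dotProduct, smul_eq_mul] at h1
  set P : ℤ[X][X] := ∑ i : Fin d, C (p i) * X ^ (i : ℕ) with hP
  have hcoef : ∀ i : Fin d, P.coeff i = p i := by
    intro i
    rw [hP, finsetSum_coeff, sum_eq_single i]
    · simp
    · intro j _ hj
      rw [coeff_C_mul, coeff_X_pow, if_neg (fun h => hj (Fin.ext h.symm)), mul_zero]
    · simp
  have hPdeg : P.natDegree < d := by
    have h4 : P.natDegree ≤ d - 1 := by
      refine natDegree_sum_le_of_forall_le _ _ fun i _ => ?_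
      refine (natDegree_C_mul_X_pow_le _ _).trans ?_
      have := i.2
      omega
    omega
  have hPne : P ≠ 0 := by
    intro h
    apply hp
    funext i
    rw [← hcoef i, h]
    simp
  have hWm : eval₂ ψ Y W = AdjoinRoot.mk Fp W := AdjoinRoot.aeval_eq W
  have hPm : dotProduct v (fun i => ψ (p i)) = AdjoinRoot.mk Fp P := by
    rw [← AdjoinRoot.aeval_eq, hP, map_sum, dotProduct]
    refine sum_congr rfl fun i _ => ?_
    rw [map_mul, aeval_C, map_pow, aeval_X, mul_comm]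
    rfl
  rw [hWm, hPm, ← map_mul, AdjoinRoot.mk_eq_zero] at h1
  -- over `ℚ`
  set φ : ℤ[X] →+* ℚ[X] := mapRingHom (Int.castRingHom ℚ) with hφ
  have hφi : Function.Injective φ := map_injective _ (RingHom.injective_int _)
  have h2 : FQ d F ∣ W.map φ * P.map φ := by
    rw [FQ_eq_NZ, ← Polynomial.map_mul]
    exact Polynomial.map_dvd φ h1
  have hmon : (FQ d F).Monic := by
    rw [FQ_eq_NZ]
    exact (monic_NZ hlead).map _
  have hdegF : (FQ d F).natDegree = d := by
    rw [FQ_eq_NZ, (monic_NZ hlead).natDegree_map, natDegree_eq_NZ hlead]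
  rcases hirr.prime.dvd_or_dvd h2 with h3 | h3
  · refine hmon.not_dvd_of_natDegree_lt ((Polynomial.map_ne_zero_iff hφi).mpr hW0) ?_ h3
    rw [hdegF]
    have := natDegree_map_le (f := φ) (p := W)
    omega
  · refine hmon.not_dvd_of_natDegree_lt ((Polynomial.map_ne_zero_iff hφi).mpr hPne) ?_ h3
    rw [hdegF]
    have := natDegree_map_le (f := φ) (p := P)
    omega

theorem fac_NZ (hd : 4 ≤ d) : d * (d - 1) ≤ d.factorial := by
  obtain ⟨k, rfl⟩ : ∃ k, d = k + 2 := ⟨d - 2, by omega⟩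
  have h : (k + 2).factorial = (k + 2) * ((k + 1) * k.factorial) := by
    rw [Nat.factorial_succ, Nat.factorial_succ]
  rw [h]
  have h1 : 1 ≤ k.factorial := Nat.factorial_pos k
  have h2 : k + 2 - 1 = k + 1 := by omega
  rw [h2]
  exact Nat.mul_le_mul_left _ (Nat.le_mul_of_pos_right _ h1)

theorem num_NZ (hd : 4 ≤ d) (hb : 2 ≤ b) :
    (d : ℝ) * ((3 * d + 1) * d * ((d : ℝ) * ((d + 1) * b)) ^ (d - 1)) ≤ BX d b := by
  have hb2 : (2 : ℝ) ≤ b := by exact_mod_cast hb
  have hb1 : (1 : ℝ) ≤ b := by linarith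
  have key : ∀ m : ℕ, (m : ℝ) ≤ (b : ℝ) ^ m := by
    intro m
    have h1 : m < 2 ^ m := Nat.lt_two_pow_self
    have h2 : (m : ℝ) ≤ 2 ^ m := by exact_mod_cast h1.le
    exact h2.trans (pow_le_pow_left₀ (by norm_num) hb2 m)
  have k1 := key d
  have k2 := key (3 * d + 1)
  have k3 := key (d + 1)
  push_cast at k2 k3
  calc (d : ℝ) * ((3 * d + 1) * d * ((d : ℝ) * ((d + 1) * b)) ^ (d - 1))
      ≤ (b : ℝ) ^ d * ((b : ℝ) ^ (3 * d + 1) * (b : ℝ) ^ d *
          ((b : ℝ) ^ d * ((b : ℝ) ^ (d + 1) * b)) ^ (d - 1)) := by gcongr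
    _ = (b : ℝ) ^ (d + (3 * d + 1 + d + (d + (d + 1 + 1)) * (d - 1))) := by
        rw [← pow_succ (b : ℝ) (d + 1), ← pow_add, ← pow_add, ← pow_mul, ← pow_add, ← pow_add]
    _ ≤ (b : ℝ) ^ (10 * d.factorial) := by
        refine pow_le_pow_right₀ hb1 ?_
        have h1 := fac_NZ hd
        have h2 : d + (3 * d + 1 + d + (d + (d + 1 + 1)) * (d - 1)) ≤ 10 * (d * (d - 1)) := by
          obtain ⟨k, rfl⟩ : ∃ k, d = k + 4 := ⟨d - 4, by omega⟩
          have h3 : k + 4 - 1 = k + 3 := by omega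
          rw [h3]
          nlinarith
        omega
    _ = BX d b := rfl

theorem nzX (hd : 4 ≤ d) (hb : 2 ≤ b) (hlead : F 0 d = 1) (hle : ∀ i j, |F i j| ≤ (b : ℤ))
    (hirr : Irreducible (FQ d F)) (x y : ℤ) (h0 : ev d F x y = 0) (B : ℕ → ℕ → ℤ)
    (hB : ∀ p q, B p q ≠ 0 → p + q ≤ 3 * d ∧ q < d) (hB0 : ∃ p q, B p q ≠ 0) (Z : ℝ)
    (hZ : ∀ p q, |((B p q : ℤ) : ℝ)| ≤ Z) (hbig : (BX d b * Z) ^ d < |(x : ℝ)|) :
    ev (3 * d) B x y ≠ 0 := by
  intro hev
  have hb1 : (1 : ℝ) ≤ b := by exact_mod_cast (by omega : 1 ≤ b)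
  obtain ⟨p0, q0, hpq⟩ := hB0
  have hZ0 : 0 ≤ Z := (abs_nonneg _).trans (hZ 0 0)
  have hBX0 : 0 ≤ BX d b := by rw [BX]; positivity
  have hx0 : x ≠ 0 := by
    rintro rfl
    rw [Int.cast_zero, abs_zero] at hbig
    have : 0 ≤ (BX d b * Z) ^ d := pow_nonneg (mul_nonneg hBX0 hZ0) d
    linarith
  set W : ℤ[X][X] := toP (3 * d) B with hW
  have hW0 : W ≠ 0 := by
    intro h
    have h1 := toP_coeff (3 * d) B q0 p0
    rw [← hW, h, coeff_zero, coeff_zero, if_pos (hB p0 q0 hpq).1] at h1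
    exact hpq h1.symm
  have hWdeg : W.natDegree ≤ d - 1 := by
    rw [natDegree_le_iff_coeff_eq_zero]
    intro j hj
    ext i
    rw [hW, toP_coeff, coeff_zero]
    split_ifs with h
    · by_contra hne
      have := (hB i j hne).2
      omega
    · rfl
  set M := ∑ k ∈ range (d - 1 + 1), W.coeff k • Pool.Agent.H72.ES.comp d F ^ k with hM
  have hdet : M.det ≠ 0 := det_ne_NZ hd hlead hirr W hW0 hWdeg
  -- evaluation at the point
  have hevF : eval₂ (evalRingHom x) y (toP d F) = 0 := by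
    have h1 := Lam_toP (x : ℤ) (y : ℤ) d F
    have h2 : Lam (x : ℤ) y (toP d F) = eval₂ (evalRingHom x) y (toP d F) := rfl
    rw [← h2, h1]
    exact h0
  have hevW : eval₂ (evalRingHom x) y W = 0 := by
    have h1 := Lam_toP (x : ℤ) (y : ℤ) (3 * d) B
    have h2 : Lam (x : ℤ) y (toP (3 * d) B) = eval₂ (evalRingHom x) y (toP (3 * d) B) := rfl
    rw [hW, ← h2, h1]
    exact hev
  have hact := act_NZ (evalRingHom x) y hlead hevF W (d - 1) hWdeg
  rw [hevW, zero_smul] at hact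
  have hdetx : (evalRingHom x) M.det = 0 := by
    rw [RingHom.map_det]
    refine Matrix.exists_vecMul_eq_zero_iff.mp ⟨fun i : Fin d => y ^ (i : ℕ), ?_, hact⟩
    intro h
    have h1 := congrFun h ⟨0, by omega⟩
    simp at h1
  -- size
  have hlow := low M.det hdet x 1 hx0 one_ne_zero 1 (by
    rw [pow_one, PowerSeries.X_dvd_iff, Polynomial.hom_eval₂]
    have h1 : PowerSeries.constantCoeff (xs x 1) = x := by simp [xs]
    rw [h1]
    have h2 : (PowerSeries.constantCoeff (R := ℤ)).comp (Int.castRingHom (PowerSeries ℤ)) =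
        RingHom.id ℤ := RingHom.ext_int _ _
    rw [h2]
    exact hdetx)
  rw [pow_one] at hlow
  have hcol : ColB M (L2 W * ((d : ℝ) * ((d + 1) * b)) ^ (d - 1)) := by
    set c : ℝ := (d : ℝ) * ((d + 1) * b) with hc
    have hc1 : 1 ≤ c := by
      have hd1 : (1 : ℝ) ≤ d := by exact_mod_cast (by omega : 1 ≤ d)
      have h1 : (1 : ℝ) ≤ (d + 1) * b := one_le_mul_of_one_le_of_one_le (by linarith) hb1
      exact one_le_mul_of_one_le_of_one_le hd1 h1
    have h1 : ColB M (∑ k ∈ range (d - 1 + 1), L1 (W.coeff k) * c ^ k) := by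
      refine ColB.sum _ _ _ fun k _ => ?_
      exact ((colB_NZ (by omega) (by omega) hle).pow (by linarith) k).smul _
    have h2 : ∑ k ∈ range (d - 1 + 1), L1 (W.coeff k) * c ^ k ≤ L2 W * c ^ (d - 1) := by
      calc ∑ k ∈ range (d - 1 + 1), L1 (W.coeff k) * c ^ k
          ≤ ∑ k ∈ range (d - 1 + 1), L1 (W.coeff k) * c ^ (d - 1) := by
            refine sum_le_sum fun k hk => mul_le_mul_of_nonneg_left ?_ (L1_nonneg _)
            refine pow_le_pow_right₀ hc1 ?_
            simp only [mem_range] at hk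
            omega
        _ = (∑ k ∈ range (d - 1 + 1), L1 (W.coeff k)) * c ^ (d - 1) := by rw [sum_mul]
        _ ≤ L2 W * c ^ (d - 1) := by
            refine mul_le_mul_of_nonneg_right ?_ (by positivity)
            unfold L2
            refine le_of_eq (Eq.symm (sum_subset ?_ ?_))
            · intro k hk
              simp only [mem_range]
              have := le_natDegree_of_mem_supp k hk
              omega
            · intro k _ hk
              rw [notMem_support_iff.1 hk, L1_zero]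
    intro j
    exact (h1 j).trans h2
  have hL1 := hcol.det
  have hL2 : L2 W ≤ (3 * d + 1) * d * Z := by
    have h1 := L2_toP_le (3 * d) (d - 1) B Z hZ (fun i j hne' => by
      have := hB i j hne'; omega)
    have h2 : (((d - 1 : ℕ) : ℝ) + 1) = d := by
      rw [Nat.cast_sub (by omega)]; push_cast; ring
    rw [h2] at h1
    push_cast at h1
    exact h1
  have hfac : (d.factorial : ℝ) ≤ (d : ℝ) ^ d := by exact_mod_cast Nat.factorial_le_pow d
  have hfin : (d.factorial : ℝ) * (L2 W * ((d : ℝ) * ((d + 1) * b)) ^ (d - 1)) ^ d ≤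
      (BX d b * Z) ^ d := by
    calc (d.factorial : ℝ) * (L2 W * ((d : ℝ) * ((d + 1) * b)) ^ (d - 1)) ^ d
        ≤ (d : ℝ) ^ d * ((3 * d + 1) * d * Z * ((d : ℝ) * ((d + 1) * b)) ^ (d - 1)) ^ d := by
          refine mul_le_mul hfac ?_ (pow_nonneg (mul_nonneg (L2_nonneg _) (by positivity)) _)
            (by positivity)
          refine pow_le_pow_left₀ (mul_nonneg (L2_nonneg _) (by positivity)) ?_ _
          exact mul_le_mul_of_nonneg_right hL2 (by positivity)
      _ = ((d : ℝ) * ((3 * d + 1) * d * ((d : ℝ) * ((d + 1) * b)) ^ (d - 1)) * Z) ^ d := by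
          rw [← mul_pow]
          congr 1
          ring
      _ ≤ _ := by
          refine pow_le_pow_left₀ (by positivity) ?_ _
          exact mul_le_mul_of_nonneg_right (num_NZ hd hb) hZ0
  linarith

end Pool.Agent.H87.AX
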