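import Pool.Agent.H87.AX.VA
import Pool.Agent.H87.AX.NZ
import Pool.Agent.H87.SA2.Core

/-! # [AX-CO] There is no large integer point on a branch paired with the anchor -/

namespace Pool.Agent.H87.AX

open Finset Polynomial Pool.Agent.H72.ES Pool.Agent.H8.KF Pool.Agent.H97.AN Pool.Agent.H87.SA
  Pool.Agent.H87.SA2 Pool.Agent.H8.AW

variable {d b : ℕ} {F : ℕ → ℕ → ℤ}

theorem core_pointX (Q : Tgt d b F) {x y : ℤ} {j0 : Fin d} {T : ℂ} (pt : PtX Q x y j0 T)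
    {D Dl κ e M : ℕ} {X0 R : ℝ} (hD : 1 ≤ D) (hDl : D ≤ Dl) (hκ : 1 ≤ κ) (he : 1 ≤ e)
    (hXM : X0 ^ e = (M : ℝ)) (hR : 2 ≤ R) (an : AnchX D Dl κ e M X0 R) (pr : PairX an Q.pd j0)
    (hRM : (16 * R) ^ (10 ^ 5 * d ^ 4 * KK Dl κ) ≤ X0)
    (hx1 : X0 ^ (10 ^ 6 * d ^ 6 * KK Dl κ ^ 2) ≤ |(x : ℝ)|)
    (hx2 : (X0 ^ e * BX d b) ^ (10 ^ 6 * d ^ 3 * KK Dl κ) ≤ |(x : ℝ)|) : False := by
  have hn := Q.d4
  have hB1 := one_le_BX (d := d) Q.b2
  have hR1 : (1 : ℝ) ≤ R := by linarith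
  have h16 : (1 : ℝ) ≤ 16 * R := by linarith
  have hDl1 : 1 ≤ Dl := hD.trans hDl
  have hKD : Dl + 1 ≤ KK Dl κ := by unfold KK; nlinarith
  have hKK : 1 ≤ KK Dl κ := by omega
  have hn4 : 1 ≤ d ^ 4 := Nat.one_le_pow _ _ (by omega)
  have hn3 : 1 ≤ d ^ 3 := Nat.one_le_pow _ _ (by omega)
  have hn6 : 1 ≤ d ^ 6 := Nat.one_le_pow _ _ (by omega)
  have hW1 : 2 ≤ 10 ^ 5 * d ^ 4 * KK Dl κ := by
    have : 1 ≤ d ^ 4 * KK Dl κ := Nat.mul_pos hn4 hKK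
    nlinarith
  have hMR : 64 * R ≤ X0 := by
    refine le_trans ?_ hRM
    calc 64 * R ≤ (16 * R) ^ 2 := by nlinarith
      _ ≤ _ := pow_le_pow_right₀ h16 hW1
  have hM1 : (1 : ℝ) < X0 := by linarith
  have hM0 : (0 : ℝ) < X0 := by linarith
  have hG : 1 ≤ X0 ^ e := one_le_pow₀ hM1.le
  have hMr : (1 : ℝ) ≤ M := by
    rw [← hXM]
    exact one_le_pow₀ hM1.le
  have hMN : 1 ≤ M := by exact_mod_cast hMr
  set B := BX d b with hBd
  have hB0 : 0 < B := by linarith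
  -- choice of la
  have hX1 : (1 : ℝ) ≤ |(x : ℝ)| := (one_le_pow₀ hM1.le).trans hx1
  obtain ⟨la, hla1, hla2⟩ := exists_nat_pow_near (x := |(x : ℝ)|) hX1 hM1
  have hla : 10 ^ 6 * d ^ 6 * KK Dl κ ^ 2 ≤ la := by
    by_contra hc
    have : X0 ^ (la + 1) ≤ X0 ^ (10 ^ 6 * d ^ 6 * KK Dl κ ^ 2) :=
      pow_le_pow_right₀ hM1.le (by omega)
    linarith
  have hla8 : 8 * d ≤ la := by
    have h6 : d ≤ d ^ 6 := Nat.le_self_pow (by norm_num) d
    have h7 : 1 ≤ KK Dl κ ^ 2 := Nat.one_le_pow _ _ hKK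
    calc 8 * d ≤ 10 ^ 6 * d ^ 6 := by omega
      _ = 10 ^ 6 * d ^ 6 * 1 := (mul_one _).symm
      _ ≤ 10 ^ 6 * d ^ 6 * KK Dl κ ^ 2 := Nat.mul_le_mul_left _ h7
      _ ≤ la := hla
  have hlaD : Dl ≤ la := by
    have h7 : KK Dl κ ≤ KK Dl κ ^ 2 := Nat.le_self_pow (by norm_num) _
    calc Dl ≤ KK Dl κ ^ 2 := by omega
      _ = 1 * KK Dl κ ^ 2 := (one_mul _).symm
      _ ≤ 10 ^ 6 * d ^ 6 * KK Dl κ ^ 2 := Nat.mul_le_mul_right _ (by omega)
      _ ≤ la := hla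
  have hGB : (X0 ^ e * B) ^ (10 ^ 6 * d ^ 3 * KK Dl κ) ≤ X0 ^ (la + 1) := hx2.trans hla2.le
  -- the auxiliary polynomial
  obtain ⟨A, hA0, hAs, hAb, hAv⟩ := siegX Q an pr hD hDl he hM1.le hXM hR la hla8 hlaD
  set ZB := ZSR d Dl κ X0 R (X0 ^ e) B la with hZB
  have hZ1 : 1 ≤ ZB := by
    unfold ZB ZSR
    refine one_le_pow₀ ?_
    refine one_le_mul_of_one_le_of_one_le ?_ (one_le_pow₀ hR1)
    refine one_le_mul_of_one_le_of_one_le ?_ (one_le_pow₀ hB1)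
    exact one_le_mul_of_one_le_of_one_le hG (one_le_pow₀ hM1.le)
  -- sizes at the point
  have hGB1 : 1 ≤ X0 ^ e * B := one_le_mul_of_one_le_of_one_le hG hB1
  have hxB5 : B ^ 5 ≤ |(x : ℝ)| := by
    calc B ^ 5 ≤ (X0 ^ e * B) ^ 5 := pow_le_pow_left₀ hB0.le (by nlinarith) 5
      _ ≤ (X0 ^ e * B) ^ (10 ^ 6 * d ^ 3 * KK Dl κ) := by
          refine pow_le_pow_right₀ hGB1 ?_
          have : 1 ≤ d ^ 3 * KK Dl κ := Nat.mul_pos hn3 hKK
          nlinarith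
      _ ≤ _ := hx2
  have hxne : x ≠ 0 := by
    rintro rfl
    simp only [Int.cast_zero, abs_zero] at hX1
    linarith
  -- vanishing
  set K := la / (8 * (κ + 1)) + 1 with hKdef
  have hK8 : la < 8 * (κ + 1) * K := by
    rw [hKdef, mul_add, mul_one]
    have h1 := Nat.div_add_mod la (8 * (κ + 1))
    have h2 := Nat.mod_lt la (show 0 < 8 * (κ + 1) by positivity)
    omega
  have hvan : ∀ i < K, PowerSeries.coeff i (tay (1 / X0)
      ((usR an.x0 e (3 * d * la) D (spec d A x y) an.Z).map an.ψ)) = 0 := by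
    intro i hi
    refine vanX Q pt hD hDl hκ he hXM hR an la hRM hla hGB A hAs hAb hAv hxB5 hla1 hla2.le i ?_
    calc 8 * (κ + 1) * i ≤ 8 * (κ + 1) * (la / (8 * (κ + 1))) := Nat.mul_le_mul_left _ (by omega)
      _ ≤ la := Nat.mul_div_le _ _
  -- the series is not zero
  have hspec : spec d A x y = fun s j => ∑ m : Fin (3 * d + 1) × Fin d,
      (x ^ (m.1 : ℕ) * y ^ (m.2 : ℕ)) * A s j m.1 m.2 := by
    funext s j
    exact spec_eqA A (fun s j p q hh => (hAs s j p q hh).2) x y s j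
  obtain ⟨s0, j0, p0, q0, hm0⟩ := hA0
  have hne : usR an.x0 e (3 * d * la) D (spec d A x y) an.Z ≠ 0 := by
    have hji := (hAs s0 j0 p0 q0 hm0).1
    intro h0
    refine absurd (an.indep (3 * d * la) (spec d A x y) h0 s0 hji.1 j0 hji.2) ?_
    have hnz : (B * ZB) ^ d < X0 ^ la := by
      rw [hZB]
      exact num_nz (n := d) (D := Dl) (κ := κ) (la := la) (M := X0) (R := R) (G := X0 ^ e) (B := B)
        hn hDl1 hκ hR hG hB1 hRM hla hGB
    have hnz2 : (B * ZB) ^ d < |(x : ℝ)| := lt_of_lt_of_le hnz hla1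
    exact nzX Q.d4 Q.b2 Q.lead Q.le Q.irr x y pt.zero (A s0 j0)
      (fun p q hh => (hAs s0 j0 p q hh).2) ⟨p0, q0, hm0⟩ ZB (hAb s0 j0) hnz2
  -- the zero estimate
  rw [hspec, usR_sum] at hne
  have hvan' := hvan
  rw [hspec, usR_sum] at hvan'
  set r0 := (3 * d + 1) * d with hr0
  have hr04 : r0 ≤ 4 * d ^ 2 := by rw [hr0]; nlinarith
  set A1 : ℝ := (3 * d * la + 1) * Dl * 2 ^ Dl * X0 ^ (κ * Dl) * ZB with hA1
  have hDR : (1 : ℝ) ≤ D := by exact_mod_cast hD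
  have hDlR : (1 : ℝ) ≤ Dl := by exact_mod_cast hDl1
  have hDDl : (D : ℝ) ≤ Dl := by exact_mod_cast hDl
  have hA11 : 1 ≤ A1 := by
    rw [hA1]
    refine one_le_mul_of_one_le_of_one_le ?_ hZ1
    refine one_le_mul_of_one_le_of_one_le ?_ (one_le_pow₀ hM1.le)
    refine one_le_mul_of_one_le_of_one_le ?_ (one_le_pow₀ (by norm_num))
    refine one_le_mul_of_one_le_of_one_le ?_ hDlR
    have : (0 : ℝ) ≤ 3 * d * la := by positivity
    linarith
  have hcv : Cv (1 / X0) (an.Z.map an.ψ) := an.cv (by linarith) (by linarith)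
  obtain ⟨k0, K', hKK', h1, h2⟩ := zeroEstR an.ψ an.sub an.ψ_le an.liou (M := X0) (A := A1)
    (R := 2 * R) hA11 (by linarith) (by linarith) (ι := Fin (3 * d + 1) × Fin d) r0
    (by rw [Fintype.card_prod, Fintype.card_fin, Fintype.card_fin])
    (fun m => usR an.x0 e (3 * d * la) D (fun s j => A s j m.1 m.2) an.Z)
    (fun m k => by
      rw [coeff_usR]
      refine (SubMul_sum an.sub _ _).trans ?_
      have e1 : ∀ s ∈ range (3 * d * la + 1), an.ν (∑ j ∈ range D,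
          ((A s j m.1 m.2 : ℤ) : an.E) * zcR an.x0 e an.Z k s j) ≤
          Dl * (ZB * ((X0 ^ (κ * Dl) * 2 ^ Dl) * (2 * R) ^ k)) := by
        intro s _
        refine (SubMul_sum an.sub _ _).trans ?_
        have e2 : ∀ j ∈ range D, an.ν (((A s j m.1 m.2 : ℤ) : an.E) * zcR an.x0 e an.Z k s j) ≤
            ZB * ((X0 ^ (κ * Dl) * 2 ^ Dl) * (2 * R) ^ k) := by
          intro j hj
          have e3 := zcR_le an.sub (A := X0 ^ κ) (R := R) (one_le_pow₀ hM1.le) hR1 he an.ν_x0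
            an.Z_le hDl k s j (mem_range.1 hj)
          rw [← pow_mul] at e3
          exact (an.sub.mul _ _).trans (mul_le_mul ((SubMul_int an.sub _).trans (hAb _ _ _ _)) e3
            (an.sub.nonneg _) (by linarith))
        refine (sum_le_sum e2).trans ?_
        rw [sum_const, card_range, nsmul_eq_mul]
        exact mul_le_mul_of_nonneg_right hDDl (by positivity)
      refine (sum_le_sum e1).trans ?_
      rw [sum_const, card_range, nsmul_eq_mul]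
      refine le_of_eq ?_
      rw [hA1]
      push_cast
      ring)
    (c := (M : ℤ) ^ (3 * d * la / e) * an.ce ^ D) (Δ := an.Δ)
    (by
      have e1 : (1 : ℤ) ≤ (M : ℤ) ^ (3 * d * la / e) := one_le_pow₀ (by exact_mod_cast hMN)
      have e2 : (1 : ℤ) ≤ an.ce ^ D := one_le_pow₀ an.ce_pos
      exact one_le_mul_of_one_le_of_one_le e1 e2) an.Δ_pos
    (fun m => by
      rw [usR_map, an.ψ_x0]
      exact dnr_usR hM0 he hXM (3 * d * la) D (fun s j => A s j m.1 m.2) hcv an.dn)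
    (fun m => x ^ (m.1 : ℕ) * y ^ (m.2 : ℕ)) hne K
    (by
      rw [PowerSeries.X_pow_dvd_iff]
      exact hvan')
  have heR : (1 : ℝ) ≤ an.ce := by exact_mod_cast an.ce_pos
  have hΔR : (1 : ℝ) ≤ an.Δ := by exact_mod_cast an.Δ_pos
  rw [show 2 * (2 * R) = 4 * R by ring, show 8 * (2 * R) = 16 * R by ring,
    show 4 * (2 * R) = 8 * R by ring] at h1 h2
  set A2 : ℝ := r0.factorial * (2 * (r0.factorial * (4 * R) ^ r0 * A1)) ^ r0 with hA2
  have hA21 : 1 ≤ A2 := by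
    have hfac : (1 : ℝ) ≤ r0.factorial := by exact_mod_cast Nat.factorial_pos r0
    have hp2 : (1 : ℝ) ≤ (4 * R) ^ r0 := one_le_pow₀ (by linarith)
    have hA1' : (1 : ℝ) ≤ r0.factorial * (4 * R) ^ r0 * A1 :=
      one_le_mul_of_one_le_of_one_le (one_le_mul_of_one_le_of_one_le hfac hp2) hA11
    exact one_le_mul_of_one_le_of_one_le hfac (one_le_pow₀ (by linarith))
  have hnA : A2 ^ (128 * KK Dl κ) ≤ X0 ^ la := by
    rw [hA2, hA1, hZB]
    exact num_A2 (n := d) (D := Dl) (κ := κ) (la := la) (r0 := r0) (M := X0) (R := R)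
      (G := X0 ^ e) (B := B) hn hDl1 hκ hR hG hB1 hRM hla hGB hr04
  refine num_end (r0 := r0) (k0 := k0) (K := K) (K' := K') hn hDl1 hκ hR hA21 hRM hla hr04
    hnA hK8 hKK' h1 (h2.trans ?_)
  have hMJ : (M : ℝ) ^ (3 * d * la / e) ≤ X0 ^ (3 * d * la) := by
    rw [← hXM, ← pow_mul]
    exact pow_le_pow_right₀ hM1.le (Nat.mul_div_le _ _)
  have e1 : ((((M : ℤ) ^ (3 * d * la / e) * an.ce ^ D : ℤ) : ℝ)) ^ r0 *
      (an.Δ : ℝ) ^ (r0 ^ 2 + K') ≤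
      X0 ^ ((3 * d * la + κ * Dl) * r0 + κ * (r0 ^ 2 + K')) := by
    have e2 : (an.ce : ℝ) ^ D ≤ (X0 ^ κ) ^ Dl :=
      (pow_le_pow_left₀ (by linarith) an.ce_le D).trans
        (pow_le_pow_right₀ (one_le_pow₀ hM1.le) hDl)
    have e3 : (an.Δ : ℝ) ^ (r0 ^ 2 + K') ≤ (X0 ^ κ) ^ (r0 ^ 2 + K') :=
      pow_le_pow_left₀ (by linarith) an.Δ_le _
    have e4 : X0 ^ ((3 * d * la + κ * Dl) * r0 + κ * (r0 ^ 2 + K')) =
        (X0 ^ (3 * d * la) * (X0 ^ κ) ^ Dl) ^ r0 * (X0 ^ κ) ^ (r0 ^ 2 + K') := by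
      rw [pow_add, pow_mul, pow_add, pow_mul X0 κ Dl, pow_mul X0 κ (r0 ^ 2 + K')]
    rw [e4]
    push_cast
    gcongr
  have hA20 : 0 ≤ A2 := by linarith
  gcongr

end Pool.Agent.H87.AX
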