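import Pool.Agent.H8.AW.Defs
import Pool.Agent.H87.SA2.ZeroE
import Pool.Agent.H87.SA2.DnB
import Pool.Agent.H87.SA2.Num

/-!
# MP_821da1_nt, explicit AllCurves: the two-point theorem with an abstract anchor -- definitions

Target: a curve `F = 0`, monic in `y`, irreducible, with its Puiseux expansions at infinity
(`t = 1/x = (q T)^e`, `y/x = x_j(T)`).
Anchor: a power series `Z` over a domain `E` of algebraic integers with a real place, with rational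
Taylor coefficients at `1/X0` (`X0^e = M`), together with its conjugates `zs i`.
`PairX`: a finite set of pairs (conjugate of the anchor, branch of the target), closed under the
Galois action and under the rotations of the target.
-/

namespace Pool.Agent.H87.AX

open Finset Polynomial Pool.Agent.H72.ES Pool.Agent.H8.KF Pool.Agent.H97.AN Pool.Agent.H87.SA
  Pool.Agent.H87.SA2 Pool.Agent.H8.AW

/-- the target curve -/
structure Tgt (d b : ℕ) (F : ℕ → ℕ → ℤ) where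
  d4 : 4 ≤ d
  b2 : 2 ≤ b
  lead : F 0 d = 1
  le : ∀ i j, |F i j| ≤ (b : ℤ)
  irr : Irreducible (FQ d F)
  pd : PData (fI d F) d
  e_le : pd.e ≤ d.factorial
  q_le : pd.q ≤ b
  R_le : pd.R ≤ b

/-- the basic constant of the target -/
noncomputable def BX (d b : ℕ) : ℝ := (b : ℝ) ^ (10 * d.factorial)

/-- an integer point of the target on the branch `j`, parameter `T` -/
structure PtX {d b : ℕ} {F : ℕ → ℕ → ℤ} (Q : Tgt d b F) (x y : ℤ) (j : Fin d) (T : ℂ) : Prop where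
  zero : ev d F x y = 0
  hT : ((Q.pd.q : ℂ) * T) ^ Q.pd.e * (x : ℂ) = 1
  sum : HasSum (fun m => PowerSeries.coeff m (Q.pd.x j) * T ^ m) ((y : ℂ) / (x : ℂ))

/-- the coefficient of `T^l` in `x^p y^q / x^(3d)` along the branch `j` -/
noncomputable def bX {f : ℤ[X][X]} {d : ℕ} (pd : PData f d) (p q l : ℕ) (j : Fin d) : ℂ :=
  PowerSeries.coeff l ((PowerSeries.C (pd.q : ℂ) * PowerSeries.X) ^ (pd.e * (3 * d - p - q)) *
    pd.x j ^ q)

/-- Anchor data: `D` the number of functions and of conjugates, `Dl` the Liouville exponent. -/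
structure AnchX (D Dl κ e M : ℕ) (X0 R : ℝ) where
  E : Type
  [cr : CommRing E]
  [dom : IsDomain E]
  ψ : E →+* ℝ
  ν : E → ℝ
  sub : SubMul ν
  ψ_le : ∀ a, |ψ a| ≤ ν a
  liou : ∀ a, a ≠ 0 → 1 ≤ |ψ a| * ν a ^ Dl
  x0 : E
  ψ_x0 : ψ x0 = X0
  ν_x0 : ∀ r < e, ν (x0 ^ r) ≤ X0 ^ κ
  Z : PowerSeries E
  Z_le : ∀ k, ν (PowerSeries.coeff k Z) ≤ X0 ^ κ * R ^ k
  indep : ∀ (J : ℕ) (c : ℕ → ℕ → ℤ), usR x0 e J D c Z = 0 → ∀ s ≤ J, ∀ j < D, c s j = 0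
  ce : ℤ
  Δ : ℤ
  ce_pos : 1 ≤ ce
  Δ_pos : 1 ≤ Δ
  ce_le : (ce : ℝ) ≤ X0 ^ κ
  Δ_le : (Δ : ℝ) ≤ X0 ^ κ
  dn : DnR (1 / X0) ce Δ (tay (1 / X0) (Z.map ψ))
  I : Type
  [ft : Fintype I]
  zs : I → PowerSeries ℂ
  i0 : I
  zs_i0 : zs i0 = (Z.map ψ).map Complex.ofRealHom
  zs_inj : Function.Injective zs
  zs_int : ∀ i k, IsIntegral ℤ (PowerSeries.coeff k (zs i))
  zs_le : ∀ i k, ‖PowerSeries.coeff k (zs i)‖ ≤ X0 ^ κ * R ^ k

attribute [instance] AnchX.cr AnchX.dom AnchX.ft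

/-- the pairs used in the auxiliary construction, all conjugate to `(i0, j0)` -/
structure PairX {D Dl κ e M : ℕ} {X0 R : ℝ} (an : AnchX D Dl κ e M X0 R) {f : ℤ[X][X]} {d : ℕ}
    (pd : PData f d) (j0 : Fin d) where
  P : Finset (an.I × Fin d)
  mem : (an.i0, j0) ∈ P
  card : 3 * P.card ≤ D * d
  gal : ∀ σ : AA →+* ℂ, ∃ (π1 : an.I → an.I) (π2 : Fin d → Fin d),
    (∀ (i : an.I) (k : ℕ) (a : AA),
      (a : ℂ) = (((1 / X0 : ℝ)) : ℂ) ^ k * PowerSeries.coeff k (an.zs i) →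
      σ a = (((1 / X0 : ℝ)) : ℂ) ^ k * PowerSeries.coeff k (an.zs (π1 i))) ∧
    (∀ (j : Fin d) (k : ℕ) (a : AA), (a : ℂ) = PowerSeries.coeff k (pd.x j) →
      σ a = PowerSeries.coeff k (pd.x (π2 j))) ∧
    ∀ p ∈ P, (π1 p.1, π2 p.2) ∈ P
  rot : ∀ (ζ : ℂ) (j j' : Fin d), ζ ^ pd.e = 1 → PowerSeries.rescale ζ (pd.x j) = pd.x j' →
    ∀ i, (i, j) ∈ P → (i, j') ∈ P

/-- the numbers which the auxiliary polynomial has to kill: the coefficient of `X^k T^l` on the pair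
`p`, made integral -/
noncomputable def VX {D Dl κ e M : ℕ} {X0 R : ℝ} (an : AnchX D Dl κ e M X0 R) {f : ℤ[X][X]} {d : ℕ}
    (pd : PData f d) (J : ℕ) (A : ℕ → ℕ → ℕ → ℕ → ℤ) (k l : ℕ) (p : an.I × Fin d) : ℂ :=
  (M : ℂ) ^ ((k + e - 1) / e) * (((1 / X0 : ℝ)) : ℂ) ^ k *
    sa d D J A (fun s j => zcR (X0 : ℂ) e (an.zs p.1) k s j) (fun u v => bX pd u v l p.2)

/-- the sum over a cell -/
noncomputable def SX {D Dl κ e M : ℕ} {X0 R : ℝ} (an : AnchX D Dl κ e M X0 R) {f : ℤ[X][X]} {d : ℕ}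
    (pd : PData f d) (J : ℕ) (A : ℕ → ℕ → ℕ → ℕ → ℤ) (k L : ℕ) (p : an.I × Fin d) : ℂ :=
  ∑ l ∈ range pd.e, VX an pd J A k (pd.e * L + l) p

end Pool.Agent.H87.AX
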