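import Pool.Agent.H87.AX.FZ

/-! # [AX-FF] The explicit effective Siegel theorem: assembly -/

namespace Pool.Agent.H87.AX

open Finset Polynomial NumberField Pool.Agent.H72.ES Pool.Agent.H8.KF Pool.Agent.H8.NoPt
  Pool.Agent.H87.SA Pool.Agent.H97.GA Pool.Agent.H97.AN Pool.Agent.H87.SA2 Pool.Agent.H8.AW
  Pool.Agent.H8.AS Pool.Agent.H34.AC Pool.Agent.H97.XC

/-- a field of degree one is real -/
theorem exists_real_of_one {k : Type} [Field k] [NumberField k] (h : Module.finrank ℚ k = 1) :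
    Nonempty (k →+* ℝ) := by
  have h1 : (⊥ : Subalgebra ℚ k) = ⊤ := Subalgebra.bot_eq_top_iff_finrank_eq_one.2 h
  have h2 : Function.Surjective (algebraMap ℚ k) := by
    intro z
    have h3 : z ∈ (⊥ : Subalgebra ℚ k) := by rw [h1]; trivial
    exact Algebra.mem_bot.1 h3
  let e : ℚ ≃+* k := RingEquiv.ofBijective (algebraMap ℚ k) ⟨(algebraMap ℚ k).injective, h2⟩
  exact ⟨(Rat.castHom ℝ).comp (e.symm : k →+* ℚ)⟩

/-- a root in a real field has degree at least three -/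
theorem three_le {f : ℤ[X][X]} (hf : f.Monic) {d m : ℕ} (hfd : f.natDegree = d) (hd : 1 ≤ d)
    (hm : ∀ j, (f.coeff j).natDegree ≤ m) (pd : PData f d) {s0 : ℕ}
    (hs0 : ∀ i j, (∀ k ≤ s0, PowerSeries.coeff k (pd.x i) = PowerSeries.coeff k (pd.x j)) → i = j)
    {nu : ℕ}
    (hnu : ∀ g : (PowerSeries ℚ)[X], g.Monic → Irreducible g → g ∣ fQ f → RealRoot g →
      3 * g.natDegree ≤ nu) {a N T : ℕ} (ha : 1 ≤ a)
    (hT : (4 * pd.R + (d * d.factorial + 1 : ℕ) + (s0 * d.factorial + s0 + 1 : ℕ) : ℝ) ≤ T)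
    (hsep : ((gN d m (af (fsc f a)) N).map (Int.castRingHom ℂ)).Separable)
    (hN1 : 1 ≤ N) (hTN : (T * a) ^ pd.e ≤ N)
    {k : Type} [Field k] [NumberField k] (ξ : k) (hξ0 : aeval ξ (fiba f a N) = 0)
    (hξ3 : nu ≤ (minpoly ℚ ξ).natDegree) (τ : k →+* ℝ) : 3 ≤ (minpoly ℚ ξ).natDegree := by
  have he := pd.e_pos
  have hq := pd.q_pos
  have hR := pd.R_ge
  have hN1R : (1 : ℝ) ≤ N := by exact_mod_cast hN1
  have haR : (1 : ℝ) ≤ a := by exact_mod_cast ha
  have hq1R : (1 : ℝ) ≤ pd.q := by exact_mod_cast hq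
  obtain ⟨pd', he', hq', hR', hs'⟩ := exists_scale pd ha
  obtain ⟨X0, hX0def⟩ : ∃ X0 : ℝ, X0 = (pd.q : ℝ) * (N : ℝ) ^ ((pd.e : ℝ)⁻¹) := ⟨_, rfl⟩
  have hroot : (1 : ℝ) ≤ (N : ℝ) ^ ((pd.e : ℝ)⁻¹) := Real.one_le_rpow hN1R (by positivity)
  have hX1 : 1 ≤ X0 := by
    rw [hX0def]
    exact one_le_mul_of_one_le_of_one_le hq1R hroot
  have hpow : X0 ^ pd.e = ((pd.q ^ pd.e * N : ℕ) : ℝ) := by
    rw [hX0def, mul_pow, Real.rpow_inv_natCast_pow (by positivity) (by omega)]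
    push_cast
    ring
  have haT : (a : ℝ) * T ≤ X0 := by
    refine le_of_pow_le_pow_left₀ (n := pd.e) (by omega) (by positivity) ?_
    rw [hpow]
    have h1 : (a * T) ^ pd.e ≤ pd.q ^ pd.e * N := by
      rw [mul_comm a T]
      exact hTN.trans (Nat.le_mul_of_pos_left _ (by positivity))
    exact_mod_cast h1
  have hT0 : (0 : ℝ) ≤ T := Nat.cast_nonneg _
  have hTX : (T : ℝ) ≤ X0 := (le_mul_of_one_le_left hT0 haR).trans haT
  have hn1 : (0 : ℝ) ≤ ((d * d.factorial + 1 : ℕ) : ℝ) := Nat.cast_nonneg _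
  have hn2 : (0 : ℝ) ≤ ((s0 * d.factorial + s0 + 1 : ℕ) : ℝ) := Nat.cast_nonneg _
  have hyp : RHyp (fsc f a) d m pd' N X0 :=
    { monic := fsc_monic hf a
      deg := (fsc_deg hf a).trans hfd
      d1 := hd
      mdeg := fsc_mdeg hm a
      N1 := hN1
      X1 := hX1
      pow := by rw [he', hq']; exact hpow
      big := by
        rw [hR']
        have h1 : 4 * pd.R ≤ T := by linarith
        calc 4 * ((a : ℝ) * pd.R) = (a : ℝ) * (4 * pd.R) := by ring
          _ ≤ (a : ℝ) * T := by gcongr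
          _ ≤ X0 := haT
      sep := hsep }
  obtain ⟨kt, ik, ink, w, la, Tw, Dl, an, q, hD1, hDDl, hDlD, hq, hi0⟩ :=
    exists_anchX hyp (hs' s0 hs0) (by linarith) (by linarith)
  have hξ0' : aeval ξ ((fsc f a).map ((aeval (1 / (N : ℚ)) : ℤ[X] →ₐ[ℤ] ℚ) : ℤ[X] →+* ℚ)) = 0 := by
    rw [fsc_fib]
    exact hξ0
  have hξR : eval₂ (eval₂RingHom (Int.castRingHom ℝ) (1 / (N : ℝ))) (τ ξ) (fsc f a) = 0 := by
    obtain ⟨P, hP⟩ : ∃ P : ℚ[X],
      P = (fsc f a).map ((aeval (1 / (N : ℚ)) : ℤ[X] →ₐ[ℤ] ℚ) : ℤ[X] →+* ℚ) := ⟨_, rfl⟩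
    rw [← hP] at hξ0'
    have h1 : aeval (τ ξ) P = 0 := by
      have h2 := Polynomial.aeval_algHom_apply τ.toRatAlgHom ξ P
      rw [hξ0', map_zero] at h2
      exact h2
    rw [aeval_def, hP, eval₂_map] at h1
    have h2 : (algebraMap ℚ ℝ).comp ((aeval (1 / (N : ℚ)) : ℤ[X] →ₐ[ℤ] ℚ) : ℤ[X] →+* ℚ) =
        eval₂RingHom (Int.castRingHom ℝ) (1 / (N : ℝ)) := by
      refine Polynomial.ringHom_ext (fun b => ?_) ?_
      · simp
      · simp
    rw [h2] at h1
    exact h1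
  have hξC : eval₂ (eval₂RingHom (Int.castRingHom ℂ) (1 / (N : ℂ))) ((τ ξ : ℝ) : ℂ)
      (fsc f a) = 0 := by
    have h1 := congrArg Complex.ofRealHom hξR
    rw [Polynomial.hom_eval₂, map_zero] at h1
    have h2 : Complex.ofRealHom.comp (eval₂RingHom (Int.castRingHom ℝ) (1 / (N : ℝ))) =
        eval₂RingHom (Int.castRingHom ℂ) (1 / (N : ℂ)) := by
      refine Polynomial.ringHom_ext (fun a => ?_) ?_
      · simp
      · simp
    rw [h2] at h1
    exact h1
  obtain ⟨i0, hi0'⟩ := root_mem hyp hξC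
  have hyi : yR pd' m N X0 i0 = (((N ^ m : ℕ) : ℝ) * τ ξ : ℝ) := by
    rw [← hi0']
    push_cast
    ring
  obtain ⟨g, p, hg1, hg2, hg3, hg4, -⟩ := Tw.loc i0 _ hyi
  have h3 := hnu_fsc hnu ha g hg1 hg2 hg3 hg4
  have h4 : 1 ≤ g.natDegree := by
    by_contra hc
    have h5 : g.natDegree = 0 := by omega
    have h6 : g = 1 := hg1.natDegree_eq_zero.1 h5
    rw [h6] at hg2
    exact not_irreducible_one hg2
  omega

/-- **Explicit effective Siegel theorem for all curves with `k` at the real points at infinity.** -/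
theorem all_explicit {n d m : ℕ} (hn : 3 ≤ n) {f : ℤ[X][X]} (hf : f.Monic) (hsq : Squarefree f)
    (hfd : f.natDegree = d) (hm : ∀ j, (f.coeff j).natDegree ≤ m) {B a N : ℕ} (hB : 2 ≤ B)
    (hfB : ∀ j i, |(f.coeff j).coeff i| ≤ (B : ℤ)) {nu : ℕ}
    (hnu : ∀ g : (PowerSeries ℚ)[X], g.Monic → Irreducible g → g ∣ fQ f → RealRoot g →
      3 * g.natDegree ≤ nu)
    (ha : 1 ≤ a) (hN : (B * a) ^ E1 (n * (n + 1)) d m ≤ N)
    {k : Type} [Field k] [NumberField k] (ξ : k) (hξ0 : aeval ξ (fiba f a N) = 0)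
    (hξ3 : nu ≤ (minpoly ℚ ξ).natDegree) (F : MvPolynomial (Fin 2) ℤ) (hFdeg : F.totalDegree ≤ n)
    (hirr : Irreducible (MvPolynomial.map (Int.castRingHom ℚ) F)) (hinf : INFR k F)
    (x y : ℤ) (hz : vl F x y = 0) :
    max |x| |y| ≤ ((N : ℤ) * ((F.support.sup fun m => (F.coeff m).natAbs : ℕ) : ℤ)) ^
      E2X n d m := by
  have hn2 : 4 ≤ n * (n + 1) := by nlinarith
  by_cases hd0 : d = 0
  · exfalso
    have h1 : f = 1 := hf.natDegree_eq_zero.1 (hfd.trans hd0)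
    rw [h1] at hξ0
    unfold fiba at hξ0
    rw [Polynomial.map_one, map_one] at hξ0
    exact one_ne_zero hξ0
  have hd : 1 ≤ d := Nat.one_le_iff_ne_zero.2 hd0
  have hBd : Bd f m B := ⟨hm, hfB⟩
  obtain ⟨A', B', c, hc, hbez, hcd, hcH⟩ := disc_bd hf hfd hd hBd (by omega) hsq
  have hE := one_le_E1 (m := m) hn2 hd
  have hs : d.factorial * (c.natDegree + m) ≤ sE d m :=
    Nat.mul_le_mul_left _ (Nat.add_le_add_right hcd m)
  obtain ⟨pd, hpe, hpq, hpR, hps⟩ := exists_pdata_bd f hf hfd hd hBd (by omega) A' B' c hc hbez hs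
  have hsep := exists_sepa_bd hf hfd hm A' B' c hc hbez _ hcH a N ha
    ((Hc_le hn2 hd hB).trans hN)
  have hCC := CC_le (d := d) (m := m) hB
  obtain ⟨K, hK⟩ : ∃ K, 10 ^ 5 * (n * (n + 1)) ^ 4 * KK (pd.e * d.factorial) (kapR d m pd.e) = K :=
    ⟨_, rfl⟩
  have hK0 := KK_le (m := m) hd hpe
  have hKle : K ≤ 10 ^ 5 * (n * (n + 1)) ^ 4 * (22 * d ^ 2 * d.factorial ^ 3 * (m + 1)) := by
    rw [← hK]
    exact Nat.mul_le_mul_left _ hK0
  have hmain := main_le hn2 hd hKle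
  have hD1 : 1 ≤ d.factorial := Nat.factorial_pos d
  have he1 := pd.e_pos
  -- lower bounds for `K`
  have hKge : 10 * d ^ 2 * d.factorial ≤ K := by
    rw [← hK]
    unfold KK kapR
    have h1 : 1 ≤ 10 ^ 5 * (n * (n + 1)) ^ 4 := Nat.mul_pos (by norm_num) (by positivity)
    have h2 : d.factorial ≤ pd.e * d.factorial + 1 :=
      (Nat.le_mul_of_pos_left _ he1).trans (Nat.le_succ _)
    have h3 : 10 * d ^ 2 ≤ 10 * d ^ 2 * (pd.e * (m + 1)) + 1 :=
      (Nat.le_mul_of_pos_right _ (Nat.mul_pos he1 (Nat.succ_pos m))).trans (Nat.le_succ _)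
    calc 10 * d ^ 2 * d.factorial = 1 * (d.factorial * (10 * d ^ 2)) := by ring
      _ ≤ _ := Nat.mul_le_mul h1 (Nat.mul_le_mul h2 h3)
  have hLs : sE d m + 1 ≤ LamE d m := by
    unfold LamE
    have h1 : 1 ≤ 600 * d ^ 3 * (sE d m + 1) ^ 2 * (14 * d ^ 2) ^ (sE d m + 1) :=
      Nat.mul_pos (Nat.mul_pos (by positivity) (by positivity)) (by positivity)
    calc sE d m + 1 ≤ (4 + 2 * d + 2 * sE d m) * 1 := by omega
      _ ≤ _ := Nat.mul_le_mul_left _ h1
  obtain ⟨T, hTdef⟩ : ∃ T : ℕ, T = B ^ ((LamE d m + 4) * (K + 1)) := ⟨_, rfl⟩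
  have hT : (4 * pd.R + (d * d.factorial + 1 : ℕ) + (sE d m * d.factorial + sE d m + 1 : ℕ) +
      (16 * pd.R) ^ K : ℝ) ≤ T := by
    rw [hTdef]
    refine four_terms hB (by have := pd.R_ge; linarith)
      (hpR.trans (by exact_mod_cast hCC)) ?_ ?_
    · have h1 : d * d.factorial ≤ K := by
        refine le_trans ?_ hKge
        have : d ≤ 10 * d ^ 2 := by nlinarith
        exact Nat.mul_le_mul_right _ this
      nlinarith
    · have h1 : d.factorial ≤ K := by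
        refine le_trans ?_ hKge
        exact Nat.le_mul_of_pos_left _ (by positivity)
      nlinarith
  have hB1 : 1 ≤ B := by omega
  have hBa : B ≤ B * a := Nat.le_mul_of_pos_right _ ha
  have hqN : pd.q ≤ N := by
    have h1 : pd.q ≤ B ^ LamE d m := by
      have h2 : (pd.q : ℝ) ≤ ((B ^ LamE d m : ℕ) : ℝ) := hpq.trans (by exact_mod_cast hCC)
      exact_mod_cast h2
    have h2 : LamE d m ≤ E1 (n * (n + 1)) d m := by
      refine le_trans ?_ hmain
      calc LamE d m ≤ 1 * ((LamE d m + 4) * 1) := by omega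
        _ ≤ _ := Nat.mul_le_mul hD1 (Nat.mul_le_mul_left _ (by omega))
    calc pd.q ≤ B ^ LamE d m := h1
      _ ≤ B ^ E1 (n * (n + 1)) d m := Nat.pow_le_pow_right hB1 h2
      _ ≤ (B * a) ^ E1 (n * (n + 1)) d m := Nat.pow_le_pow_left hBa _
      _ ≤ N := hN
  have hN2 : 2 ≤ N := by
    calc 2 ≤ B * a := hB.trans hBa
      _ ≤ (B * a) ^ E1 (n * (n + 1)) d m := Nat.le_self_pow (by omega) _
      _ ≤ N := hN
  have hTN : (T * a ^ (K + 1)) ^ pd.e ≤ N := by
    have h1 : T * a ^ (K + 1) ≤ (B * a) ^ ((LamE d m + 4) * (K + 1)) := by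
      rw [hTdef, mul_pow]
      refine Nat.mul_le_mul_left _ (Nat.pow_le_pow_right ha ?_)
      exact Nat.le_mul_of_pos_left _ (by omega)
    calc (T * a ^ (K + 1)) ^ pd.e ≤ ((B * a) ^ ((LamE d m + 4) * (K + 1))) ^ pd.e :=
          Nat.pow_le_pow_left h1 _
      _ = (B * a) ^ (pd.e * ((LamE d m + 4) * (K + 1))) := by
          rw [← pow_mul]
          congr 1
          ring
      _ ≤ (B * a) ^ E1 (n * (n + 1)) d m := by
          refine Nat.pow_le_pow_right (by omega) (le_trans ?_ hmain)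
          exact Nat.mul_le_mul_right _ hpe
      _ ≤ N := hN
  -- the degree of the field
  have hk : 2 ≤ Module.finrank ℚ k := by
    by_contra hcon
    have hpos : 0 < Module.finrank ℚ k := Module.finrank_pos
    have h1 : Module.finrank ℚ k = 1 := by omega
    obtain ⟨τ⟩ := exists_real_of_one h1
    have hTN' : (T * a) ^ pd.e ≤ N := by
      refine le_trans (Nat.pow_le_pow_left ?_ _) hTN
      exact Nat.mul_le_mul_left _ (Nat.le_self_pow (by omega) a)
    have hT' : (4 * pd.R + (d * d.factorial + 1 : ℕ) +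
        (sE d m * d.factorial + sE d m + 1 : ℕ) : ℝ) ≤ T := by
      have : (0 : ℝ) ≤ (16 * pd.R) ^ K := by
        have := pd.R_ge
        positivity
      linarith
    have h3 := three_le hf hfd hd hm pd hps hnu ha hT' hsep (by omega) hTN' ξ hξ0 hξ3 τ
    have h4 : (minpoly ℚ ξ).natDegree ≤ Module.finrank ℚ k := minpoly.natDegree_le ξ
    omega
  have hbd := coeff_le_sup F
  set H := F.support.sup fun m => (F.coeff m).natAbs with hH
  have hH1 : 1 ≤ H := by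
    by_contra hc
    have h0 : H = 0 := by omega
    have hF0 : F = 0 := by
      ext e
      have h1 := hbd e
      rw [h0] at h1
      rw [MvPolynomial.coeff_zero]
      have h4 : |F.coeff e| ≤ 0 := by simpa using h1
      exact abs_eq_zero.1 (le_antisymm h4 (abs_nonneg _))
    rw [hF0, map_zero] at hirr
    exact not_irreducible_zero hirr
  obtain ⟨H', hH'⟩ : ∃ H', H' = max 2 H := ⟨_, rfl⟩
  have hH'2 : 2 ≤ H' := by rw [hH']; exact le_max_left _ _
  have hH'c : ∀ e, |F.coeff e| ≤ (H' : ℤ) := by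
    intro e
    refine (hbd e).trans ?_
    rw [hH']
    exact_mod_cast le_max_right 2 H
  obtain ⟨d2, b, F', a', ⟨Q⟩, hb, ha0, -, hF'⟩ := redS k hk n hn F hirr hFdeg H' hH'2 hH'c hinf x y hz
  have hz' := hF' x y hz
  obtain ⟨P, hP⟩ : ∃ P, P = N * H := ⟨_, rfl⟩
  have hNP : N ≤ P := by rw [hP]; exact Nat.le_mul_of_pos_right _ hH1
  have hHP : H' ≤ P := by
    rw [hH', hP]
    refine max_le ?_ ?_
    · exact hN2.trans (Nat.le_mul_of_pos_right _ hH1)
    · exact Nat.le_mul_of_pos_left _ (by omega)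
  have hu := one_coreX hf hfd hd hm pd hps hnu ha hK hT hsep hqN (by omega) hTN ξ hξ0 hξ3 Q hz'
  have hW := WX_le (n := n) (d := d) (m := m) (H := H') (P := P) hK0 hpe hb hHP hNP (by omega)
  have hfin := final_size (n := n) (d := d) (m := m) (by have := Q.d4; omega) Q.dn Q.lead Q.le hb hHP
    (by omega) ha0 hz' (hu.le.trans hW)
  rw [hP] at hfin
  exact_mod_cast hfin

end Pool.Agent.H87.AX
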