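import Pool.Agent.H87.AX.Defs
import Pool.Agent.H8.AW.Pt

/-!
# [AX-FO] From the cell sums to the single coefficients (Fourier)

For `ζ^(pd.e) = 1` there is `j'` with `rescale ζ (pd.x j) = pd.x j'`
(`Pool.Agent.H8.AW.perm_of`, `tq_rescale`). `rescale ζ` is a ring homomorphism and fixes
`(C q * X)^(pd.e * N)`, so `bX pd u v l j' = ζ^l * bX pd u v l j` (`PowerSeries.coeff_rescale`),
`VX .. l (i, j') = ζ^l * VX .. l (i, j)` and, as `ζ^(pd.e * L) = 1`,
`0 = SX .. (i, j') = ∑_(l < pd.e) ζ^l VX .. (pd.e * L + l) (i, j)`. The polynomial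
`∑_(l < pd.e) C (VX ..) * X^l` of degree `< pd.e` vanishes at all `pd.e`-th roots of unity
(`Complex.card_rootsOfUnity`, or the powers of `exp (2 π i / pd.e)`,
`Complex.isPrimitiveRoot_exp`), so it is `0` (`Polynomial.card_roots'`,
`Polynomial.eq_zero_of_natDegree_lt_card_of_eval_eq_zero`).
-/

namespace Pool.Agent.H87.AX

open Finset Polynomial Pool.Agent.H72.ES Pool.Agent.H8.KF Pool.Agent.H97.AN Pool.Agent.H87.SA
  Pool.Agent.H87.SA2 Pool.Agent.H8.AW

variable {D Dl κ e M : ℕ} {X0 R : ℝ} {f : ℤ[X][X]} {d : ℕ}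

theorem bX_rot_FO (pd : PData f d) {ζ : ℂ} (hζ : ζ ^ pd.e = 1) {j j' : Fin d}
    (h : PowerSeries.rescale ζ (pd.x j) = pd.x j') (p q l : ℕ) :
    bX pd p q l j' = ζ ^ l * bX pd p q l j := by
  have h1 : PowerSeries.rescale ζ (PowerSeries.C (pd.q : ℂ)) = PowerSeries.C (pd.q : ℂ) := by
    rw [map_natCast, map_natCast]
  have h3 : (PowerSeries.C ζ : PowerSeries ℂ) ^ (pd.e * (3 * d - p - q)) = 1 := by
    rw [← map_pow, pow_mul, hζ, one_pow, map_one]
  have h4 : PowerSeries.rescale ζ ((PowerSeries.C (pd.q : ℂ) * PowerSeries.X) ^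
      (pd.e * (3 * d - p - q)) * pd.x j ^ q) = (PowerSeries.C (pd.q : ℂ) * PowerSeries.X) ^
      (pd.e * (3 * d - p - q)) * pd.x j' ^ q := by
    rw [map_mul, map_pow, map_pow, map_mul, h1, PowerSeries.rescale_X, h]
    congr 1
    rw [mul_pow, mul_pow, mul_pow, h3, one_mul]
  rw [bX, bX, ← PowerSeries.coeff_rescale, h4]

theorem sa_smul_FO (n nu J : ℕ) (A : ℕ → ℕ → ℕ → ℕ → ℤ) (u v : ℕ → ℕ → ℂ) (c : ℂ) :
    sa n nu J A u (fun p q => c * v p q) = c * sa n nu J A u v := by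
  simp only [sa, mul_sum]
  refine sum_congr rfl fun i _ => sum_congr rfl fun j _ => sum_congr rfl fun p _ =>
    sum_congr rfl fun q _ => ?_
  ring

theorem fourier_one_FO {e : ℕ} (he : 1 ≤ e) (c : ℕ → ℂ)
    (h : ∀ ζ : ℂ, ζ ^ e = 1 → ∑ r ∈ range e, ζ ^ r * c r = 0) : ∀ r < e, c r = 0 := by
  set p : ℂ[X] := ∑ r ∈ range e, C (c r) * X ^ r with hp
  have hprim : IsPrimitiveRoot (Complex.exp (2 * Real.pi * Complex.I / e)) e :=
    Complex.isPrimitiveRoot_exp e (by omega)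
  have hcard : (nthRootsFinset e (1 : ℂ)).card = e := hprim.card_nthRootsFinset
  have hcoeff : ∀ r, p.coeff r = if r < e then c r else 0 := by
    intro r
    rw [hp, finsetSum_coeff]
    simp only [coeff_C_mul, coeff_X_pow, mul_ite, mul_one, mul_zero, sum_ite_eq, mem_range]
  have hp0 : p = 0 := by
    refine eq_zero_of_natDegree_lt_card_of_eval_eq_zero' p (nthRootsFinset e (1 : ℂ)) ?_ ?_
    · intro ζ hζ
      rw [mem_nthRootsFinset (by omega)] at hζ
      rw [hp, eval_finsetSum, ← h ζ hζ]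
      refine sum_congr rfl fun r _ => ?_
      rw [eval_mul, eval_C, eval_pow, eval_X, mul_comm]
    · rw [hcard]
      by_contra hlt
      have hlead : p.coeff p.natDegree = 0 := by rw [hcoeff, if_neg hlt]
      have hp00 : p = 0 := leadingCoeff_eq_zero.mp hlead
      rw [hp00, natDegree_zero] at hlt
      omega
  intro r hr
  have := hcoeff r
  rw [hp0, coeff_zero, if_pos hr] at this
  exact this.symm

theorem cell_zero {an : AnchX D Dl κ e M X0 R} {pd : PData f d} {j0 : Fin d}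
    (pr : PairX an pd j0) (J : ℕ) (A : ℕ → ℕ → ℕ → ℕ → ℤ) (k L : ℕ)
    (h : ∀ p ∈ pr.P, SX an pd J A k L p = 0) (l : ℕ) (hl : l < pd.e) :
    ∀ p ∈ pr.P, VX an pd J A k (pd.e * L + l) p = 0 := by
  rintro ⟨i, j⟩ hp
  refine fourier_one_FO pd.e_pos (fun l => VX an pd J A k (pd.e * L + l) (i, j)) ?_ l hl
  intro ζ hζ
  obtain ⟨j', hj'⟩ := perm_of pd (PowerSeries.rescale ζ) (tq_rescale hζ) j
  have hp' := pr.rot ζ j j' hζ hj' i hp
  rw [← h _ hp', SX]
  refine sum_congr rfl fun r _ => ?_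
  rw [VX, VX]
  simp only [bX_rot_FO pd hζ hj']
  rw [sa_smul_FO]
  have h2 : ζ ^ (pd.e * L + r) = ζ ^ r := by
    rw [pow_add, pow_mul, hζ, one_pow, one_mul]
  rw [h2]
  ring

end Pool.Agent.H87.AX
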