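import Pool.Agent.H87.AX.CO
import Pool.Agent.H87.AX.PW
import Pool.Agent.H87.AX.EA
import Pool.Agent.H8.AS.Pt
import Pool.Agent.H87.SA2.FINX

/-! # [AX-FX] The effective theorem for a target with `k` at the real points at infinity -/

namespace Pool.Agent.H87.AX

open Finset Polynomial NumberField Pool.Agent.H72.ES Pool.Agent.H8.KF Pool.Agent.H87.SA
  Pool.Agent.H97.GA Pool.Agent.H87.SA2 Pool.Agent.H8.AW Pool.Agent.H8.AS

/-- the branch of an integer point above the threshold -/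
theorem exists_point {K : Type} [Field K] [NumberField K] {n d b : ℕ} {F : ℕ → ℕ → ℤ}
    (Q : CrvS K n d b F) {x y : ℤ} (hz : ev d F x y = 0)
    (hx : (b : ℝ) ^ (4 * n.factorial) ≤ |(x : ℝ)|) :
    ∃ (i : Fin d) (T : ℂ) (τ : K →+* ℝ), ((Q.pd.q : ℂ) * T) ^ Q.pd.e * (x : ℂ) = 1 ∧
      HasSum (fun m => PowerSeries.coeff m (Q.pd.x i) * T ^ m) ((y : ℂ) / (x : ℂ)) ∧
      i ∈ Q.kp.S ∧ Q.kp.kap i = Complex.ofRealHom.comp τ := by
  have hb2 : (2 : ℝ) ≤ b := by exact_mod_cast Q.b2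
  have hn1 : 1 ≤ n.factorial := Nat.factorial_pos n
  have hb1 : (b : ℝ) + 1 ≤ |(x : ℝ)| := by
    calc (b : ℝ) + 1 ≤ (b : ℝ) ^ 2 := by nlinarith
      _ ≤ (b : ℝ) ^ (4 * n.factorial) := pow_le_pow_right₀ (by linarith) (by omega)
      _ ≤ _ := hx
  have hx0 : x ≠ 0 := by
    rintro rfl
    rw [Int.cast_zero, abs_zero] at hb1
    linarith
  have hxC : (x : ℂ) ≠ 0 := by exact_mod_cast hx0
  have he : 0 < Q.pd.e := Q.pd.e_pos
  have hq0 : (Q.pd.q : ℂ) ≠ 0 := by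
    have := Q.pd.q_pos
    exact_mod_cast (by omega : Q.pd.q ≠ 0)
  obtain ⟨S, hS⟩ := IsAlgClosed.exists_pow_nat_eq (1 / (x : ℂ)) he
  set T : ℂ := S / (Q.pd.q : ℂ) with hTdef
  have hqT : (Q.pd.q : ℂ) * T = S := by rw [hTdef]; field_simp
  have hTx : ((Q.pd.q : ℂ) * T) ^ Q.pd.e * (x : ℂ) = 1 := by
    rw [hqT, hS]
    field_simp
  have hSn : ‖S‖ < 1 / (b : ℝ) ^ 2 := by
    by_contra hcon
    push Not at hcon
    have hb0 : (0 : ℝ) < (b : ℝ) ^ 2 := by positivity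
    have h1 : (1 / (b : ℝ) ^ 2) ^ Q.pd.e ≤ ‖S‖ ^ Q.pd.e :=
      pow_le_pow_left₀ (by positivity) hcon _
    rw [← norm_pow, hS, norm_div, norm_one, Complex.norm_intCast, one_div_pow] at h1
    have hxp : (0 : ℝ) < |(x : ℝ)| := by linarith
    rw [one_div_le_one_div (by positivity) hxp, ← pow_mul] at h1
    have h2 : 2 * Q.pd.e < 4 * n.factorial := by
      have h3 : Q.pd.e ≤ n.factorial := Q.e_le.trans (Nat.factorial_le Q.dn)
      omega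
    have h3 : (b : ℝ) ^ (2 * Q.pd.e) < (b : ℝ) ^ (4 * n.factorial) :=
      pow_lt_pow_right₀ (by linarith) h2
    linarith
  have hTn : ‖T‖ ≤ ‖S‖ := by
    rw [hTdef, norm_div, Complex.norm_natCast]
    have h1 : (1 : ℝ) ≤ Q.pd.q := by exact_mod_cast Q.pd.q_pos
    exact div_le_self (norm_nonneg _) h1
  have hT : Q.pd.R * ‖T‖ < 1 := by
    have h1 : Q.pd.R * ‖T‖ ≤ b * ‖S‖ :=
      mul_le_mul Q.R_le hTn (norm_nonneg _) (by linarith)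
    have h2 : (b : ℝ) * ‖S‖ < b * (1 / (b : ℝ) ^ 2) :=
      mul_lt_mul_of_pos_left hSn (by linarith)
    have h3 : (b : ℝ) * (1 / (b : ℝ) ^ 2) ≤ 1 := by
      have : (b : ℝ) ≠ 0 := by linarith
      rw [mul_one_div, div_le_one (by positivity)]
      nlinarith
    linarith
  obtain ⟨i, hi⟩ := Q.toQ.branch hz hx0 hT hTx
  change evT T (Q.pd.x i) = (y : ℂ) / (x : ℂ) at hi
  obtain ⟨hiS, τ, hτ⟩ := Q.real hb1 hT hTx hi
  refine ⟨i, T, τ, hTx, ?_, hiS, hτ⟩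
  rw [← hi]
  have hR : 0 ≤ Q.pd.R := by linarith [Q.pd.R_ge]
  exact (CvT_of hR (Q.pd.growth i) hT).hasSum

/-- the target data -/
def tgt {K : Type} [Field K] {n d b : ℕ} {F : ℕ → ℕ → ℤ} (Q : CrvS K n d b F) : Tgt d b F where
  d4 := Q.d4
  b2 := Q.b2
  lead := Q.lead
  le := Q.le
  irr := Q.irr
  pd := Q.pd
  e_le := Q.e_le
  q_le := Q.q_le
  R_le := Q.R_le

/-- the threshold -/
noncomputable def WX (n K0 e b : ℕ) (X0 : ℝ) : ℝ :=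
  (X0 ^ e * (b : ℝ) ^ (10 * n.factorial)) ^ (10 ^ 6 * n ^ 3 * K0) *
    X0 ^ (10 ^ 6 * n ^ 6 * K0 ^ 2)

theorem one_arrayX {f : ℤ[X][X]} {d m N : ℕ} {pd : PData f d} {X0 : ℝ}
    (H : RHyp f d m pd N X0) {s0 : ℕ}
    (hs0 : ∀ i j, (∀ k ≤ s0, PowerSeries.coeff k (pd.x i) = PowerSeries.coeff k (pd.x j)) → i = j)
    (hXw : ((d * d.factorial + 1 : ℕ) : ℝ) ≤ X0)
    (hXs : ((s0 * d.factorial + s0 + 1 : ℕ) : ℝ) ≤ X0) {n : ℕ}
    (hXR : (16 * pd.R) ^ (10 ^ 5 * n ^ 4 * KK (pd.e * d.factorial) (kapR d m pd.e)) ≤ X0)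
    {nu : ℕ} (hnu : ∀ g : (PowerSeries ℚ)[X], g.Monic → Irreducible g → g ∣ fQ f → RealRoot g →
      3 * g.natDegree ≤ nu)
    {K : Type} [Field K] [NumberField K] (ξ : K)
    (hξ0 : aeval ξ (f.map ((aeval (1 / (N : ℚ)) : ℤ[X] →ₐ[ℤ] ℚ) : ℤ[X] →+* ℚ)) = 0)
    (hξ3 : nu ≤ (minpoly ℚ ξ).natDegree) {d2 b : ℕ} {F : ℕ → ℕ → ℤ} (Q : CrvS K n d2 b F)
    {x y : ℤ} (hz : ev d2 F x y = 0) :
    |(x : ℝ)| < WX n (KK (pd.e * d.factorial) (kapR d m pd.e)) pd.e b X0 := by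
  by_contra hcon
  push Not at hcon
  have hX1 := H.X1
  have he := pd.e_pos
  have hd1 := H.d1
  have hn4 : 4 ≤ n := Q.d4.trans Q.dn
  have hb2 : (2 : ℝ) ≤ b := by exact_mod_cast Q.b2
  have hb1 : (1 : ℝ) ≤ b := by linarith
  set κ := kapR d m pd.e with hκdef
  set K0 := KK (pd.e * d.factorial) κ with hK0
  have hκ1 : 1 ≤ κ := by
    rw [hκdef]
    unfold kapR
    exact Nat.mul_pos (by positivity) (Nat.mul_pos he (Nat.succ_pos _))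
  have hK01 : 1 ≤ K0 := by
    rw [hK0]
    unfold KK
    exact Nat.mul_pos (Nat.succ_pos _) (Nat.succ_pos _)
  have hn3 : 1 ≤ n ^ 3 := Nat.one_le_pow _ _ (by omega)
  have hA1 : (1 : ℝ) ≤ X0 ^ pd.e := one_le_pow₀ hX1
  have hA2 : (1 : ℝ) ≤ (b : ℝ) ^ (10 * n.factorial) := one_le_pow₀ hb1
  have hA3 : (1 : ℝ) ≤ X0 ^ pd.e * (b : ℝ) ^ (10 * n.factorial) :=
    one_le_mul_of_one_le_of_one_le hA1 hA2
  have hW1 : (1 : ℝ) ≤ X0 ^ (10 ^ 6 * n ^ 6 * K0 ^ 2) := one_le_pow₀ hX1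
  have hW2 : (1 : ℝ) ≤ (X0 ^ pd.e * (b : ℝ) ^ (10 * n.factorial)) ^ (10 ^ 6 * n ^ 3 * K0) :=
    one_le_pow₀ hA3
  have hxb : (b : ℝ) ^ (4 * n.factorial) ≤ |(x : ℝ)| := by
    refine le_trans ?_ hcon
    unfold WX
    calc (b : ℝ) ^ (4 * n.factorial) ≤ (b : ℝ) ^ (10 * n.factorial) :=
          pow_le_pow_right₀ hb1 (by omega)
      _ ≤ X0 ^ pd.e * (b : ℝ) ^ (10 * n.factorial) := le_mul_of_one_le_left (by positivity) hA1
      _ ≤ (X0 ^ pd.e * (b : ℝ) ^ (10 * n.factorial)) ^ (10 ^ 6 * n ^ 3 * K0) := by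
          refine le_self_pow₀ hA3 ?_
          have : 0 < 10 ^ 6 * n ^ 3 * K0 := by positivity
          omega
      _ ≤ _ := le_mul_of_one_le_right (by positivity) hW1
  obtain ⟨j0, T, τ, hT1, hT2, hj0, hτ⟩ := exists_point Q hz hxb
  have pt : PtX (tgt Q) x y j0 T := ⟨hz, hT1, hT2⟩
  obtain ⟨k, ik, ink, w, la, Tw, Dl, an, q, hD1, hDDl, hDlD, hq, hi0⟩ := exists_anchX H hs0 hXw hXs
  -- the root
  have hξR : eval₂ (eval₂RingHom (Int.castRingHom ℝ) (1 / (N : ℝ))) (τ ξ) f = 0 := by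
    obtain ⟨P, hP⟩ : ∃ P : ℚ[X], P = f.map ((aeval (1 / (N : ℚ)) : ℤ[X] →ₐ[ℤ] ℚ) : ℤ[X] →+* ℚ) :=
      ⟨_, rfl⟩
    rw [← hP] at hξ0
    have h1 : aeval (τ ξ) P = 0 := by
      have h2 := Polynomial.aeval_algHom_apply τ.toRatAlgHom ξ P
      rw [hξ0, map_zero] at h2
      exact h2
    rw [aeval_def, hP, eval₂_map] at h1
    have h2 : (algebraMap ℚ ℝ).comp ((aeval (1 / (N : ℚ)) : ℤ[X] →ₐ[ℤ] ℚ) : ℤ[X] →+* ℚ) =
        eval₂RingHom (Int.castRingHom ℝ) (1 / (N : ℝ)) := by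
      refine Polynomial.ringHom_ext (fun b => ?_) ?_
      · simp
      · simp
    rw [h2] at h1
    exact h1
  have hξC : eval₂ (eval₂RingHom (Int.castRingHom ℂ) (1 / (N : ℂ))) ((τ ξ : ℝ) : ℂ) f = 0 := by
    have h1 := congrArg Complex.ofRealHom hξR
    rw [Polynomial.hom_eval₂, map_zero] at h1
    have h2 : Complex.ofRealHom.comp (eval₂RingHom (Int.castRingHom ℝ) (1 / (N : ℝ))) =
        eval₂RingHom (Int.castRingHom ℂ) (1 / (N : ℂ)) := by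
      refine Polynomial.ringHom_ext (fun a => ?_) ?_
      · simp
      · simp
    rw [h2] at h1
    exact h1
  obtain ⟨i0, hi0'⟩ := root_mem H hξC
  have hyi : yR pd m N X0 i0 = (((N ^ m : ℕ) : ℝ) * τ ξ : ℝ) := by
    rw [← hi0']
    push_cast
    ring
  obtain ⟨g, p, hg1, hg2, hg3, hg4, hp1, hp2, hp3⟩ := Tw.loc i0 _ hyi
  have hN1N := H.N1
  have hNm0 : N ^ m ≠ 0 := by positivity
  have hdeg : 3 * p.natDegree ≤ (minpoly ℚ ξ).natDegree :=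
    (Nat.mul_le_mul_left 3 hp2).trans ((hnu g hg1 hg2 hg3 hg4).trans hξ3)
  obtain ⟨pr⟩ := exists_pairX hX1 Tw an q hq hi0 Q.kp ξ hNm0 p hp1 hj0 τ hτ hp3 hdeg
  have hKK : KK Dl κ ≤ K0 := by
    rw [hK0]
    unfold KK
    exact Nat.mul_le_mul (by omega) le_rfl
  have hR16 : (1 : ℝ) ≤ 16 * pd.R := by
    have := pd.R_ge
    linarith
  have hdn := Q.dn
  refine core_pointX (tgt Q) pt hD1 hDDl hκ1 he H.pow pd.R_ge an pr ?_ ?_ ?_
  · refine le_trans (pow_le_pow_right₀ hR16 ?_) hXR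
    exact Nat.mul_le_mul (Nat.mul_le_mul_left _ (Nat.pow_le_pow_left hdn 4)) hKK
  · refine le_trans ?_ hcon
    calc X0 ^ (10 ^ 6 * d2 ^ 6 * KK Dl κ ^ 2) ≤ X0 ^ (10 ^ 6 * n ^ 6 * K0 ^ 2) :=
          pow_le_pow_right₀ hX1 (by gcongr)
      _ = 1 * X0 ^ (10 ^ 6 * n ^ 6 * K0 ^ 2) := by ring
      _ ≤ WX n K0 pd.e b X0 := by
          unfold WX
          exact mul_le_mul_of_nonneg_right hW2 (by positivity)
  · refine le_trans ?_ hcon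
    have hB1 := one_le_BX (d := d2) Q.b2
    have hBle : BX d2 b ≤ (b : ℝ) ^ (10 * n.factorial) := by
      unfold BX
      exact pow_le_pow_right₀ hb1 (Nat.mul_le_mul_left _ (Nat.factorial_le hdn))
    calc (X0 ^ pd.e * BX d2 b) ^ (10 ^ 6 * d2 ^ 3 * KK Dl κ) ≤
          (X0 ^ pd.e * (b : ℝ) ^ (10 * n.factorial)) ^ (10 ^ 6 * d2 ^ 3 * KK Dl κ) := by
          refine pow_le_pow_left₀ (by positivity) ?_ _
          exact mul_le_mul_of_nonneg_left hBle (by positivity)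
      _ ≤ (X0 ^ pd.e * (b : ℝ) ^ (10 * n.factorial)) ^ (10 ^ 6 * n ^ 3 * K0) :=
          pow_le_pow_right₀ hA3 (by gcongr)
      _ = (X0 ^ pd.e * (b : ℝ) ^ (10 * n.factorial)) ^ (10 ^ 6 * n ^ 3 * K0) * 1 := by ring
      _ ≤ WX n K0 pd.e b X0 := by
          unfold WX
          exact mul_le_mul_of_nonneg_left hW1 (by positivity)

end Pool.Agent.H87.AX
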