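import Pool.Agent.H87.AX.FX

/-! # [AX-FY] The effective theorem over the fibres `t = a / N`, from given Puiseux data -/

namespace Pool.Agent.H87.AX

open Finset Polynomial NumberField Pool.Agent.H72.ES Pool.Agent.H8.KF Pool.Agent.H87.SA
  Pool.Agent.H97.GA Pool.Agent.H87.SA2 Pool.Agent.H8.AW Pool.Agent.H8.AS

theorem WX_mono {n K0 e b : ℕ} {X Y : ℝ} (hX : 1 ≤ X) (hXY : X ≤ Y) :
    WX n K0 e b X ≤ WX n K0 e b Y := by
  have hY : 0 ≤ Y := by linarith
  unfold WX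
  gcongr

theorem one_coreX {f : ℤ[X][X]} (hf : f.Monic) {d m : ℕ} (hfd : f.natDegree = d) (hd : 1 ≤ d)
    (hm : ∀ j, (f.coeff j).natDegree ≤ m) (pd : PData f d) {s0 : ℕ}
    (hs0 : ∀ i j, (∀ k ≤ s0, PowerSeries.coeff k (pd.x i) = PowerSeries.coeff k (pd.x j)) → i = j)
    {n nu : ℕ}
    (hnu : ∀ g : (PowerSeries ℚ)[X], g.Monic → Irreducible g → g ∣ fQ f → RealRoot g →
      3 * g.natDegree ≤ nu) {a N K T : ℕ} (ha : 1 ≤ a)
    (hK : 10 ^ 5 * n ^ 4 * KK (pd.e * d.factorial) (kapR d m pd.e) = K)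
    (hT : (4 * pd.R + (d * d.factorial + 1 : ℕ) + (s0 * d.factorial + s0 + 1 : ℕ) +
      (16 * pd.R) ^ K : ℝ) ≤ T)
    (hsep : ((gN d m (af (fsc f a)) N).map (Int.castRingHom ℂ)).Separable)
    (hqN : pd.q ≤ N) (hN1 : 1 ≤ N) (hTN : (T * a ^ (K + 1)) ^ pd.e ≤ N)
    {k : Type} [Field k] [NumberField k] (ξ : k) (hξ0 : aeval ξ (fiba f a N) = 0)
    (hξ3 : nu ≤ (minpoly ℚ ξ).natDegree) {d2 b : ℕ} {F : ℕ → ℕ → ℤ} (Q : CrvS k n d2 b F)
    {x y : ℤ} (hz : ev d2 F x y = 0) :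
    |(x : ℝ)| < WX n (KK (pd.e * d.factorial) (kapR d m pd.e)) pd.e b ((N : ℝ) ^ 2) := by
  have he := pd.e_pos
  have hq := pd.q_pos
  have hR := pd.R_ge
  set K0 := KK (pd.e * d.factorial) (kapR d m pd.e) with hK0
  have hN1R : (1 : ℝ) ≤ N := by exact_mod_cast hN1
  have haR : (1 : ℝ) ≤ a := by exact_mod_cast ha
  have hq1R : (1 : ℝ) ≤ pd.q := by exact_mod_cast hq
  obtain ⟨pd', he', hq', hR', hs'⟩ := exists_scale pd ha
  obtain ⟨X0, hX0def⟩ : ∃ X0 : ℝ, X0 = (pd.q : ℝ) * (N : ℝ) ^ ((pd.e : ℝ)⁻¹) := ⟨_, rfl⟩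
  have hroot : (1 : ℝ) ≤ (N : ℝ) ^ ((pd.e : ℝ)⁻¹) := Real.one_le_rpow hN1R (by positivity)
  have hX1 : 1 ≤ X0 := by
    rw [hX0def]
    exact one_le_mul_of_one_le_of_one_le hq1R hroot
  have hpow : X0 ^ pd.e = ((pd.q ^ pd.e * N : ℕ) : ℝ) := by
    rw [hX0def, mul_pow, Real.rpow_inv_natCast_pow (by positivity) (by omega)]
    push_cast
    ring
  have hXT : (T : ℝ) * (a : ℝ) ^ (K + 1) ≤ X0 := by
    refine le_of_pow_le_pow_left₀ (n := pd.e) (by omega) (by positivity) ?_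
    rw [hpow]
    have h1 : (T * a ^ (K + 1)) ^ pd.e ≤ pd.q ^ pd.e * N :=
      hTN.trans (Nat.le_mul_of_pos_left _ (by positivity))
    exact_mod_cast h1
  have hXN : X0 ≤ (N : ℝ) ^ 2 := by
    refine le_of_pow_le_pow_left₀ (n := pd.e) (by omega) (by positivity) ?_
    rw [hpow]
    have h1 : pd.q ^ pd.e * N ≤ (N ^ 2) ^ pd.e := by
      calc pd.q ^ pd.e * N ≤ N ^ pd.e * N ^ pd.e :=
            Nat.mul_le_mul (Nat.pow_le_pow_left hqN _) (Nat.le_self_pow (by omega) N)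
        _ = (N ^ 2) ^ pd.e := by rw [← mul_pow, sq]
    exact_mod_cast h1
  have hR0 : (0 : ℝ) ≤ (16 * pd.R) ^ K := by positivity
  have hn1 : (0 : ℝ) ≤ ((d * d.factorial + 1 : ℕ) : ℝ) := Nat.cast_nonneg _
  have hn2 : (0 : ℝ) ≤ ((s0 * d.factorial + s0 + 1 : ℕ) : ℝ) := Nat.cast_nonneg _
  have haK : (1 : ℝ) ≤ (a : ℝ) ^ (K + 1) := one_le_pow₀ haR
  have hT0 : (0 : ℝ) ≤ T := Nat.cast_nonneg _
  have hTX : (T : ℝ) ≤ X0 := by
    calc (T : ℝ) = T * 1 := (mul_one _).symm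
      _ ≤ T * (a : ℝ) ^ (K + 1) := by gcongr
      _ ≤ X0 := hXT
  have haT : (a : ℝ) * T ≤ X0 := by
    calc (a : ℝ) * T = T * (a : ℝ) ^ 1 := by ring
      _ ≤ T * (a : ℝ) ^ (K + 1) := mul_le_mul_of_nonneg_left (pow_le_pow_right₀ haR (by omega)) hT0
      _ ≤ X0 := hXT
  have haKT : (a : ℝ) ^ K * T ≤ X0 := by
    calc (a : ℝ) ^ K * T = T * (a : ℝ) ^ K := by ring
      _ ≤ T * (a : ℝ) ^ (K + 1) := mul_le_mul_of_nonneg_left (pow_le_pow_right₀ haR (by omega)) hT0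
      _ ≤ X0 := hXT
  have hyp : RHyp (fsc f a) d m pd' N X0 :=
    { monic := fsc_monic hf a
      deg := (fsc_deg hf a).trans hfd
      d1 := hd
      mdeg := fsc_mdeg hm a
      N1 := hN1
      X1 := hX1
      pow := by rw [he', hq']; exact hpow
      big := by
        rw [hR']
        have h1 : 4 * pd.R ≤ T := by linarith
        calc 4 * ((a : ℝ) * pd.R) = (a : ℝ) * (4 * pd.R) := by ring
          _ ≤ (a : ℝ) * T := by gcongr
          _ ≤ X0 := haT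
      sep := hsep }
  have hXR' : (16 * pd'.R) ^ (10 ^ 5 * n ^ 4 * KK (pd'.e * d.factorial) (kapR d m pd'.e)) ≤ X0 := by
    rw [he', hR', ← hK0, hK]
    have h1 : (16 * pd.R) ^ K ≤ T := by linarith
    calc (16 * ((a : ℝ) * pd.R)) ^ K = (a : ℝ) ^ K * (16 * pd.R) ^ K := by
          rw [← mul_pow]
          congr 1
          ring
      _ ≤ (a : ℝ) ^ K * T := by gcongr
      _ ≤ X0 := haKT
  have hmain := one_arrayX hyp (hs' s0 hs0) (by linarith) (by linarith) hXR' (hnu_fsc hnu ha) ξ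
    (by rw [fsc_fib]; exact hξ0) hξ3 Q hz
  rw [he', ← hK0] at hmain
  exact lt_of_lt_of_le hmain (WX_mono hX1 hXN)

/-- a root of a monic polynomial is bounded by its coefficients -/
theorem root_bound {d b : ℕ} {F : ℕ → ℕ → ℤ} (hd : 1 ≤ d) (hlead : F 0 d = 1)
    (hle : ∀ i j, |F i j| ≤ (b : ℤ)) (x y : ℤ) (hz : ev d F x y = 0) {W : ℝ} (hW : 1 ≤ W)
    (hx : |(x : ℝ)| ≤ W) : |(y : ℝ)| ≤ (d + 1) ^ 2 * b * W ^ d + 1 := by
  by_contra hcon
  push Not at hcon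
  have hb0 : (0 : ℝ) ≤ b := Nat.cast_nonneg b
  have hC0 : (0 : ℝ) ≤ (d + 1) ^ 2 * b * W ^ d := by positivity
  have hy1 : 1 ≤ |(y : ℝ)| := by linarith
  have h1 : (y : ℝ) ^ d = -∑ i ∈ range (d + 1), ∑ j ∈ (range (d + 1 - i)).filter (fun j => j ≠ d),
      (F i j : ℝ) * (x : ℝ) ^ i * (y : ℝ) ^ j := by
    have h2 : ((ev d F x y : ℤ) : ℝ) = 0 := by rw [hz]; simp
    unfold ev at h2
    push_cast at h2
    have h3 : ∀ i ∈ range (d + 1), ∑ j ∈ range (d + 1 - i), (F i j : ℝ) * (x : ℝ) ^ i *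
        (y : ℝ) ^ j = ∑ j ∈ (range (d + 1 - i)).filter (fun j => j ≠ d),
        (F i j : ℝ) * (x : ℝ) ^ i * (y : ℝ) ^ j + (if i = 0 then (y : ℝ) ^ d else 0) := by
      intro i hi
      rw [← sum_filter_add_sum_filter_not (range (d + 1 - i)) (fun j => j ≠ d)]
      congr 1
      split_ifs with h
      · subst h
        have h4 : (range (d + 1 - 0)).filter (fun j => ¬ j ≠ d) = {d} := by
          ext j
          simp only [ne_eq, not_not, mem_filter, mem_range, mem_singleton]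
          omega
        rw [h4, sum_singleton, hlead]
        simp
      · have h4 : (range (d + 1 - i)).filter (fun j => ¬ j ≠ d) = ∅ := by
          ext j
          simp only [ne_eq, not_not, mem_filter, mem_range, notMem_empty, iff_false]
          omega
        rw [h4, sum_empty]
    rw [sum_congr rfl h3, sum_add_distrib, sum_ite_eq' (range (d + 1)) 0] at h2
    simp only [mem_range, Nat.succ_pos, if_true] at h2
    linarith
  have h2 : |(y : ℝ)| ^ d ≤ (d + 1) ^ 2 * b * W ^ d * |(y : ℝ)| ^ (d - 1) := by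
    rw [← abs_pow, h1, abs_neg]
    refine (abs_sum_le_sum_abs _ _).trans ?_
    have h3 : ∀ i ∈ range (d + 1), |∑ j ∈ (range (d + 1 - i)).filter (fun j => j ≠ d),
        (F i j : ℝ) * (x : ℝ) ^ i * (y : ℝ) ^ j| ≤
        (d + 1) * (b * W ^ d * |(y : ℝ)| ^ (d - 1)) := by
      intro i hi
      refine (abs_sum_le_sum_abs _ _).trans ?_
      have h4 : ∀ j ∈ (range (d + 1 - i)).filter (fun j => j ≠ d),
          |(F i j : ℝ) * (x : ℝ) ^ i * (y : ℝ) ^ j| ≤ b * W ^ d * |(y : ℝ)| ^ (d - 1) := by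
        intro j hj
        simp only [mem_filter, mem_range] at hj hi
        rw [abs_mul, abs_mul, abs_pow, abs_pow]
        have e1 : |((F i j : ℤ) : ℝ)| ≤ b := by exact_mod_cast hle i j
        have e2 : |(x : ℝ)| ^ i ≤ W ^ d :=
          (pow_le_pow_left₀ (abs_nonneg _) hx i).trans (pow_le_pow_right₀ hW (by omega))
        have e3 : |(y : ℝ)| ^ j ≤ |(y : ℝ)| ^ (d - 1) := pow_le_pow_right₀ hy1 (by omega)
        gcongr
      refine (sum_le_sum h4).trans ?_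
      rw [sum_const, nsmul_eq_mul]
      refine mul_le_mul_of_nonneg_right ?_ (by positivity)
      have h5 : ((range (d + 1 - i)).filter (fun j => j ≠ d)).card ≤ d + 1 := by
        refine (card_filter_le _ _).trans ?_
        rw [card_range]
        omega
      exact_mod_cast h5
    refine (sum_le_sum h3).trans ?_
    rw [sum_const, card_range, nsmul_eq_mul]
    push_cast
    refine le_of_eq ?_
    ring
  have h3 : |(y : ℝ)| ^ d = |(y : ℝ)| * |(y : ℝ)| ^ (d - 1) := by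
    rw [← pow_succ']
    congr 1
    omega
  rw [h3] at h2
  have h4 : (0 : ℝ) < |(y : ℝ)| ^ (d - 1) := by positivity
  have h5 := le_of_mul_le_mul_right h2 h4
  linarith

end Pool.Agent.H87.AX
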