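import Pool.Agent.H87.AX.FY
import Pool.Agent.H34.AC.RedS
import Pool.Agent.H87.SA2.FINZ

/-! # [AX-FZ] The explicit effective theorem for all curves with `k` at the real points at infinity -/

namespace Pool.Agent.H87.AX

open Finset Polynomial NumberField Pool.Agent.H72.ES Pool.Agent.H8.KF Pool.Agent.H87.SA
  Pool.Agent.H97.GA Pool.Agent.H87.SA2 Pool.Agent.H8.AW Pool.Agent.H8.AS Pool.Agent.H34.AC

/-- bound for `K0` -/
def KB (d m : ℕ) : ℕ := 22 * d ^ 2 * d.factorial ^ 3 * (m + 1)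

/-- the exponent of the threshold -/
def EW (n d m : ℕ) : ℕ :=
  (2 * d.factorial + 10 * (n * (n + 1)).factorial * cR n) * (10 ^ 6 * (n * (n + 1)) ^ 3 * KB d m) +
    2 * (10 ^ 6 * (n * (n + 1)) ^ 6 * KB d m ^ 2)

/-- the exponent of the bound -/
def E2X (n d m : ℕ) : ℕ :=
  1 + (n + 1) * (2 * (n * (n + 1)) + 3 + cR n + n * (n + 1) * EW n d m)

theorem WX_le {n d m K0 e b N H P : ℕ} (hK : K0 ≤ KB d m) (he : e ≤ d.factorial)
    (hb : b ≤ H ^ cR n) (hHP : H ≤ P) (hNP : N ≤ P) (hP : 1 ≤ P) :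
    WX (n * (n + 1)) K0 e b ((N : ℝ) ^ 2) ≤ (P : ℝ) ^ EW n d m := by
  have hP1 : (1 : ℝ) ≤ P := by exact_mod_cast hP
  have hbP : (b : ℝ) ≤ (P : ℝ) ^ cR n := by
    exact_mod_cast hb.trans (Nat.pow_le_pow_left hHP _)
  have hNP' : (N : ℝ) ≤ P := by exact_mod_cast hNP
  unfold WX EW
  rw [pow_add]
  refine mul_le_mul ?_ ?_ (by positivity) (by positivity)
  · calc (((N : ℝ) ^ 2) ^ e * (b : ℝ) ^ (10 * (n * (n + 1)).factorial)) ^
          (10 ^ 6 * (n * (n + 1)) ^ 3 * K0)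
        ≤ (((P : ℝ) ^ 2) ^ d.factorial * ((P : ℝ) ^ cR n) ^ (10 * (n * (n + 1)).factorial)) ^
          (10 ^ 6 * (n * (n + 1)) ^ 3 * K0) := by
          refine pow_le_pow_left₀ (by positivity) ?_ _
          refine mul_le_mul ?_ (pow_le_pow_left₀ (by positivity) hbP _) (by positivity)
            (by positivity)
          exact (pow_le_pow_left₀ (by positivity) (pow_le_pow_left₀ (by positivity) hNP' 2) e).trans
            (pow_le_pow_right₀ (one_le_pow₀ hP1) he)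
      _ ≤ (((P : ℝ) ^ 2) ^ d.factorial * ((P : ℝ) ^ cR n) ^ (10 * (n * (n + 1)).factorial)) ^
          (10 ^ 6 * (n * (n + 1)) ^ 3 * KB d m) := by
          refine pow_le_pow_right₀ ?_ (Nat.mul_le_mul_left _ hK)
          exact one_le_mul_of_one_le_of_one_le (one_le_pow₀ (one_le_pow₀ hP1))
            (one_le_pow₀ (one_le_pow₀ hP1))
      _ = _ := by
          rw [← pow_mul, ← pow_mul, ← pow_add, ← pow_mul]
          congr 1
          ring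
  · calc ((N : ℝ) ^ 2) ^ (10 ^ 6 * (n * (n + 1)) ^ 6 * K0 ^ 2)
        ≤ ((P : ℝ) ^ 2) ^ (10 ^ 6 * (n * (n + 1)) ^ 6 * K0 ^ 2) :=
          pow_le_pow_left₀ (by positivity) (pow_le_pow_left₀ (by positivity) hNP' 2) _
      _ ≤ ((P : ℝ) ^ 2) ^ (10 ^ 6 * (n * (n + 1)) ^ 6 * KB d m ^ 2) := by
          refine pow_le_pow_right₀ (one_le_pow₀ hP1) ?_
          exact Nat.mul_le_mul_left _ (Nat.pow_le_pow_left hK 2)
      _ = _ := by rw [← pow_mul]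

/-- the sizes of a point from the size of `u = y + x^(n+1)` and the equation -/
theorem final_size {n d m d2 b H P : ℕ} {F : ℕ → ℕ → ℤ} (hd1 : 1 ≤ d2) (hd2 : d2 ≤ n * (n + 1))
    (hlead : F 0 d2 = 1) (hle : ∀ i j, |F i j| ≤ (b : ℤ)) (hb : b ≤ H ^ cR n) (hHP : H ≤ P)
    (hP : 2 ≤ P) {a : ℤ} (ha : a ≠ 0) {x y : ℤ}
    (hz : ev d2 F (y + x ^ (n + 1)) (a * x) = 0)
    (hu : |((y + x ^ (n + 1) : ℤ) : ℝ)| ≤ (P : ℝ) ^ EW n d m) :
    ((max |x| |y| : ℤ) : ℝ) ≤ (P : ℝ) ^ E2X n d m := by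
  have hP2 : (2 : ℝ) ≤ P := by exact_mod_cast hP
  have hP1 : (1 : ℝ) ≤ P := by linarith
  have hW : (1 : ℝ) ≤ (P : ℝ) ^ EW n d m := one_le_pow₀ hP1
  have hbP : (b : ℝ) ≤ (P : ℝ) ^ cR n := by
    exact_mod_cast hb.trans (Nat.pow_le_pow_left hHP _)
  have h1 := root_bound hd1 hlead hle (y + x ^ (n + 1)) (a * x) hz hW hu
  obtain ⟨E, hE⟩ : ∃ E, E = 2 * (n * (n + 1)) + 3 + cR n + n * (n + 1) * EW n d m := ⟨_, rfl⟩
  have h2 : ((d2 : ℝ) + 1) ^ 2 * b * ((P : ℝ) ^ EW n d m) ^ d2 + 1 ≤ (P : ℝ) ^ E := by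
    have e1 : ((d2 : ℝ) + 1) ≤ (P : ℝ) ^ (n * (n + 1) + 1) := by
      have e2 : d2 + 1 ≤ 2 ^ (n * (n + 1) + 1) :=
        (Nat.succ_le_succ hd2).trans Nat.lt_two_pow_self.le
      calc ((d2 : ℝ) + 1) ≤ 2 ^ (n * (n + 1) + 1) := by exact_mod_cast e2
        _ ≤ (P : ℝ) ^ (n * (n + 1) + 1) := pow_le_pow_left₀ (by norm_num) hP2 _
    have e3 : ((P : ℝ) ^ EW n d m) ^ d2 ≤ (P : ℝ) ^ (n * (n + 1) * EW n d m) := by
      rw [← pow_mul]
      refine pow_le_pow_right₀ hP1 ?_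
      rw [mul_comm]
      exact Nat.mul_le_mul_right _ hd2
    have e4 : ((d2 : ℝ) + 1) ^ 2 * b * ((P : ℝ) ^ EW n d m) ^ d2 ≤
        (P : ℝ) ^ (2 * (n * (n + 1)) + 2 + cR n + n * (n + 1) * EW n d m) := by
      calc ((d2 : ℝ) + 1) ^ 2 * b * ((P : ℝ) ^ EW n d m) ^ d2
          ≤ ((P : ℝ) ^ (n * (n + 1) + 1)) ^ 2 * (P : ℝ) ^ cR n *
            (P : ℝ) ^ (n * (n + 1) * EW n d m) := by
            have : (0 : ℝ) ≤ (d2 : ℝ) + 1 := by positivity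
            gcongr
        _ = _ := by
            rw [← pow_mul, ← pow_add, ← pow_add]
            congr 1
            ring
    have e5 : (P : ℝ) ^ E = P * (P : ℝ) ^ (2 * (n * (n + 1)) + 2 + cR n + n * (n + 1) * EW n d m) := by
      rw [← pow_succ', hE]
      congr 1
      ring
    have e6 : (1 : ℝ) ≤ (P : ℝ) ^ (2 * (n * (n + 1)) + 2 + cR n + n * (n + 1) * EW n d m) :=
      one_le_pow₀ hP1
    rw [e5]
    nlinarith
  have h3 : |(x : ℝ)| ≤ (P : ℝ) ^ E := by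
    refine le_trans ?_ (h1.trans h2)
    push_cast
    rw [abs_mul]
    refine le_mul_of_one_le_left (abs_nonneg _) ?_
    exact_mod_cast Int.one_le_abs ha
  have h4 : |(y : ℝ)| ≤ (P : ℝ) ^ (1 + (n + 1) * E) := by
    have e1 : (y : ℝ) = ((y + x ^ (n + 1) : ℤ) : ℝ) - (x : ℝ) ^ (n + 1) := by
      push_cast
      ring
    have e2 : |(x : ℝ) ^ (n + 1)| ≤ (P : ℝ) ^ ((n + 1) * E) := by
      rw [abs_pow, mul_comm (n + 1) E, pow_mul]
      exact pow_le_pow_left₀ (abs_nonneg _) h3 _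
    have e3 : (P : ℝ) ^ EW n d m ≤ (P : ℝ) ^ ((n + 1) * E) := by
      refine pow_le_pow_right₀ hP1 ?_
      have e4 : EW n d m ≤ n * (n + 1) * EW n d m :=
        Nat.le_mul_of_pos_left _ (lt_of_lt_of_le hd1 hd2)
      calc EW n d m ≤ E := by omega
        _ ≤ (n + 1) * E := Nat.le_mul_of_pos_left _ (Nat.succ_pos n)
    calc |(y : ℝ)| = |((y + x ^ (n + 1) : ℤ) : ℝ) - (x : ℝ) ^ (n + 1)| := by rw [← e1]
      _ ≤ |((y + x ^ (n + 1) : ℤ) : ℝ)| + |(x : ℝ) ^ (n + 1)| := abs_sub _ _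
      _ ≤ (P : ℝ) ^ ((n + 1) * E) + (P : ℝ) ^ ((n + 1) * E) := add_le_add (hu.trans e3) e2
      _ = 2 * (P : ℝ) ^ ((n + 1) * E) := by ring
      _ ≤ P * (P : ℝ) ^ ((n + 1) * E) := mul_le_mul_of_nonneg_right hP2 (by positivity)
      _ = (P : ℝ) ^ (1 + (n + 1) * E) := by rw [pow_add, pow_one]
  have h5 : |(x : ℝ)| ≤ (P : ℝ) ^ (1 + (n + 1) * E) := by
    refine h3.trans (pow_le_pow_right₀ hP1 ?_)
    have : E ≤ (n + 1) * E := Nat.le_mul_of_pos_left _ (Nat.succ_pos n)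
    omega
  have h6 : E2X n d m = 1 + (n + 1) * E := by
    unfold E2X
    rw [hE]
  rw [h6]
  push_cast
  exact max_le h5 h4

end Pool.Agent.H87.AX
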