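import Pool.Agent.H87.AX.Defs
import Pool.Agent.H8.AS.Defs
import Pool.Agent.H52.AC.FIB

/-! # [AX-PF] The number of branches with a given value of an element of `k` -/

namespace Pool.Agent.H87.AX

open Finset Polynomial Pool.Agent.H87.SA2 Pool.Agent.H8.AW Pool.Agent.H8.AS Pool.Agent.H52.AC

theorem lift_emb {k : Type} [Field k] [NumberField k] (φ ψ : k →+* ℂ) :
    ∃ (φ0 : k →+* AA) (σ : AA →+* ℂ), (∀ z, ((φ0 z : AA) : ℂ) = φ z) ∧ ∀ z, σ (φ0 z) = ψ z := by
  let φ0 : k →+* AA := φ.codRestrict AA.toSubring (fun z => kap_mem φ z)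
  let _i : Algebra k AA := φ0.toAlgebra
  let _i : Algebra k ℂ := ψ.toAlgebra
  have : IsScalarTower ℚ k AA := IsScalarTower.of_algebraMap_eq' (Subsingleton.elim _ _)
  have : Algebra.IsAlgebraic ℚ AA := algebraicClosure.isAlgebraic ℚ ℂ
  have : Algebra.IsAlgebraic k AA := Algebra.IsAlgebraic.tower_top (K := ℚ) k
  let σ : AA →ₐ[k] ℂ := IsAlgClosed.lift
  refine ⟨φ0, σ.toRingHom, fun z => rfl, fun z => ?_⟩
  exact σ.commutes z

variable {K : Type} [Field K] [NumberField K] {f : ℤ[X][X]} {d : ℕ} {pd : PData f d}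

open Classical in
theorem fiber_le (kp : KapS K pd) (ξ : K) (φ ψ : K →+* ℂ) :
    (kp.S.filter fun j => kp.kap j ξ = φ ξ).card ≤ (kp.S.filter fun j => kp.kap j ξ = ψ ξ).card := by
  obtain ⟨φ0, σ, h0, h1⟩ := lift_emb φ ψ
  obtain ⟨π, hπ⟩ := perm_gal pd σ
  refine Finset.card_le_card_of_injOn π (fun j hj => ?_) π.injective.injOn
  rw [coe_filter, Set.mem_setOf_eq] at hj
  rw [coe_filter, Set.mem_setOf_eq]
  obtain ⟨h2, h3⟩ := kp.gal σ j hj.1 (π j) (hπ j)
  refine ⟨h2, ?_⟩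
  rw [← h3 ξ (φ0 ξ) (by rw [h0, hj.2]), h1]

open Classical in
/-- the fibres of `j ↦ kap j ξ` have at most `card S / deg ξ` elements -/
theorem fiber_deg (kp : KapS K pd) (ξ : K) (ρ : ℂ) :
    (kp.S.filter fun j => kp.kap j ξ = ρ).card * (minpoly ℚ ξ).natDegree ≤ kp.S.card := by
  by_cases he : (kp.S.filter fun j => kp.kap j ξ = ρ) = ∅
  · rw [he]
    simp
  obtain ⟨j, hj⟩ := Finset.nonempty_iff_ne_empty.2 he
  have hjρ := (mem_filter.1 hj).2
  have hint : IsIntegral ℚ ξ := Algebra.IsIntegral.isIntegral ξ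
  set R := ((minpoly ℚ ξ).rootSet ℂ).toFinset with hR
  have hcard : R.card = (minpoly ℚ ξ).natDegree := by
    have h1 := Polynomial.card_rootSet_eq_natDegree (K := ℂ) (minpoly.irreducible hint).separable
      (IsAlgClosed.splits _)
    rw [hR, Set.toFinset_card]
    exact h1
  have hle : ∀ ρ' ∈ R, (kp.S.filter fun j => kp.kap j ξ = ρ).card ≤
      (kp.S.filter fun j => kp.kap j ξ = ρ').card := by
    intro ρ' hρ'
    rw [hR, Set.mem_toFinset, ← NumberField.Embeddings.range_eval_eq_rootSet_minpoly K ℂ ξ] at hρ'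
    obtain ⟨ψ, hψ⟩ := hρ'
    have h1 := fiber_le kp ξ (kp.kap j) ψ
    rw [hjρ] at h1
    rw [← hψ]
    exact h1
  calc (kp.S.filter fun j => kp.kap j ξ = ρ).card * (minpoly ℚ ξ).natDegree
      = ∑ ρ' ∈ R, (kp.S.filter fun j => kp.kap j ξ = ρ).card := by
        rw [sum_const, hcard, smul_eq_mul, mul_comm]
    _ ≤ ∑ ρ' ∈ R, (kp.S.filter fun j => kp.kap j ξ = ρ').card := sum_le_sum hle
    _ = (R.biUnion fun ρ' => kp.S.filter fun j => kp.kap j ξ = ρ').card := by
        rw [card_biUnion]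
        intro a _ b _ hab
        rw [Function.onFun, disjoint_left]
        intro i hi hi'
        exact hab ((mem_filter.1 hi).2.symm.trans (mem_filter.1 hi').2)
    _ ≤ kp.S.card := card_le_card (by
        intro i hi
        obtain ⟨ρ', -, h⟩ := mem_biUnion.1 hi
        exact (mem_filter.1 h).1)

end Pool.Agent.H87.AX
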