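import Pool.Agent.H87.AX.Defs

/-!
# [AX-RS] Siegel's lemma for real linear forms

`U = card β ≥ 1`, `m = card α`, `5 m ≤ 4 U`, so `m < U`. `H = ⌊(6 U B)^4⌋ ≥ 1`. Pigeonhole
(`Finset.exists_ne_map_eq_of_card_lt_of_maps_to` or `Fintype.exists_ne_map_eq_of_card_lt`) for the
map `(β → Fin (H+1)) → (α → ℤ)`, `y ↦ (a ↦ ⌊2 ∑ W a b y b⌋)`: every coordinate lies in
`Icc ⌊-t⌋ ⌊t⌋`, `t = 2 U H B`, which has at most `2 t + 2 ≤ 6 U H B` elements. Sources:
`(H+1)^U = (H+1)^(U-m) (H+1)^m > ((6 U B)^4)^(U-m) H^m ≥ (6 U B)^m H^m = (6 U H B)^m`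
(`4 (U-m) ≥ m`, `6 U B ≥ 1`). Two different `y, y'` with the same floors: `x = y - y'` has
`|x b| ≤ H` and `|2 ∑ W a b x b| < 1` (`Int.abs_sub_lt_one_of_floor_eq_floor`).
-/

namespace Pool.Agent.H87.AX

open Finset

theorem card_Icc_RS (s : ℝ) (hs : 0 ≤ s) :
    (((Finset.Icc ⌊-s⌋ ⌊s⌋).card : ℕ) : ℝ) ≤ 2 * s + 2 := by
  have h1 : ⌊-s⌋ ≤ ⌊s⌋ + 1 := by
    have : ⌊-s⌋ ≤ ⌊s⌋ := Int.floor_le_floor (by linarith)
    omega
  have h2 : (((Finset.Icc ⌊-s⌋ ⌊s⌋).card : ℕ) : ℤ) = ⌊s⌋ + 1 - ⌊-s⌋ := by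
    rw [Int.card_Icc, Int.toNat_of_nonneg (by omega)]
  have h3 : (((Finset.Icc ⌊-s⌋ ⌊s⌋).card : ℕ) : ℝ) = (⌊s⌋ : ℝ) + 1 - (⌊-s⌋ : ℝ) := by
    exact_mod_cast h2
  rw [h3]
  have h4 := Int.floor_le s
  have h5 := Int.lt_floor_add_one (-s)
  linarith

theorem real_siegel {α β : Type} [Fintype α] [Fintype β] (W : α → β → ℝ) {B : ℝ} (hB : 1 ≤ B)
    (hW : ∀ a b, |W a b| ≤ B) (hc : 5 * Fintype.card α ≤ 4 * Fintype.card β)
    (h0 : 0 < Fintype.card β) :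
    ∃ x : β → ℤ, x ≠ 0 ∧ (∀ b, |(x b : ℝ)| ≤ (6 * Fintype.card β * B) ^ 4) ∧
      ∀ a, |∑ b, W a b * (x b : ℝ)| < 1 / 2 := by
  classical
  set U := Fintype.card β with hU
  set m := Fintype.card α with hm
  have hU1 : (1 : ℝ) ≤ U := by exact_mod_cast h0
  set t : ℝ := 6 * U * B with ht
  have hUB : 1 ≤ (U : ℝ) * B := one_le_mul_of_one_le_of_one_le hU1 hB
  have ht1 : 1 ≤ t := by
    rw [ht]
    nlinarith
  have ht4 : 1 ≤ t ^ 4 := one_le_pow₀ ht1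
  set H : ℕ := ⌊t ^ 4⌋₊ with hH
  have hH1 : 1 ≤ H := (Nat.one_le_floor_iff _).mpr ht4
  have hHR : (1 : ℝ) ≤ H := by exact_mod_cast hH1
  have hHle : (H : ℝ) ≤ t ^ 4 := Nat.floor_le (by positivity)
  have hHlt : t ^ 4 < H + 1 := Nat.lt_floor_add_one _
  set s : ℝ := 2 * (U * B * H) with hs
  have hs0 : 0 ≤ s := by positivity
  let L : (β → Fin (H + 1)) → α → ℝ := fun y a => 2 * ∑ b, W a b * ((y b : ℕ) : ℝ)
  have hL : ∀ y a, |L y a| ≤ s := by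
    intro y a
    have h1 : |∑ b, W a b * ((y b : ℕ) : ℝ)| ≤ ∑ _b : β, B * H := by
      refine (abs_sum_le_sum_abs _ _).trans (sum_le_sum fun b _ => ?_)
      rw [abs_mul]
      refine mul_le_mul (hW a b) ?_ (abs_nonneg _) (by linarith)
      rw [abs_of_nonneg (by positivity)]
      exact_mod_cast Nat.lt_succ_iff.mp (y b).2
    rw [sum_const, card_univ, nsmul_eq_mul, ← hU] at h1
    change |2 * ∑ b, W a b * ((y b : ℕ) : ℝ)| ≤ s
    rw [abs_mul, abs_of_nonneg (by norm_num : (0 : ℝ) ≤ 2), hs]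
    nlinarith
  let K : Finset ℤ := Finset.Icc ⌊-s⌋ ⌊s⌋
  have hmemK : ∀ y a, ⌊L y a⌋ ∈ K := by
    intro y a
    have := abs_le.mp (hL y a)
    exact Finset.mem_Icc.mpr ⟨Int.floor_le_floor this.1, Int.floor_le_floor this.2⟩
  let f : (β → Fin (H + 1)) → (α → K) := fun y a => ⟨⌊L y a⌋, hmemK y a⟩
  have hcardK : (Fintype.card K : ℝ) ≤ t * H := by
    rw [Fintype.card_coe]
    refine (card_Icc_RS s hs0).trans ?_
    have h1 : 1 ≤ (U : ℝ) * B * H := one_le_mul_of_one_le_of_one_le hUB hHR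
    rw [hs, ht]
    nlinarith
  have hcard : Fintype.card (α → K) < Fintype.card (β → Fin (H + 1)) := by
    rw [Fintype.card_fun, Fintype.card_fun, Fintype.card_fin, ← hU, ← hm]
    have hmU : m < U := by omega
    obtain ⟨j, hj⟩ : ∃ j, U = m + j := ⟨U - m, by omega⟩
    have hj1 : j ≠ 0 := by omega
    have h4j : m ≤ 4 * j := by omega
    have h1 : ((Fintype.card K : ℝ)) ^ m < ((H : ℝ) + 1) ^ U := by
      calc ((Fintype.card K : ℝ)) ^ m ≤ (t * H) ^ m :=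
            pow_le_pow_left₀ (by positivity) hcardK m
        _ = t ^ m * (H : ℝ) ^ m := mul_pow _ _ _
        _ ≤ t ^ (4 * j) * ((H : ℝ) + 1) ^ m := by
            refine mul_le_mul (pow_le_pow_right₀ ht1 h4j) ?_ (by positivity) (by positivity)
            exact pow_le_pow_left₀ (by positivity) (by linarith) m
        _ = (t ^ 4) ^ j * ((H : ℝ) + 1) ^ m := by rw [pow_mul]
        _ < ((H : ℝ) + 1) ^ j * ((H : ℝ) + 1) ^ m := by
            refine mul_lt_mul_of_pos_right ?_ (by positivity)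
            exact pow_lt_pow_left₀ hHlt (by positivity) hj1
        _ = ((H : ℝ) + 1) ^ U := by rw [← pow_add, hj, add_comm j m]
    exact_mod_cast h1
  obtain ⟨y, y', hne, hyy⟩ := Fintype.exists_ne_map_eq_of_card_lt f hcard
  refine ⟨fun b => ((y b : ℕ) : ℤ) - ((y' b : ℕ) : ℤ), ?_, ?_, ?_⟩
  · intro h
    apply hne
    funext b
    have h1 := congrFun h b
    simp only [Pi.zero_apply] at h1
    apply Fin.ext
    omega
  · intro b
    have h1 := (y b).2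
    have h2 := (y' b).2
    have h3 : |(((y b : ℕ) : ℤ) - ((y' b : ℕ) : ℤ))| ≤ (H : ℤ) := by
      rw [abs_le]
      constructor <;> omega
    have h4 : |((((y b : ℕ) : ℤ) - ((y' b : ℕ) : ℤ) : ℤ) : ℝ)| ≤ (H : ℝ) := by
      rw [← Int.cast_abs]
      exact_mod_cast h3
    exact h4.trans hHle
  · intro a
    have h1 := congrFun hyy a
    have h2 : ⌊L y a⌋ = ⌊L y' a⌋ := congrArg Subtype.val h1
    have h3 := Int.abs_sub_lt_one_of_floor_eq_floor h2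
    have h4 : L y a - L y' a =
        2 * ∑ b, W a b * (((((y b : ℕ) : ℤ) - ((y' b : ℕ) : ℤ) : ℤ)) : ℝ) := by
      change 2 * ∑ b, W a b * ((y b : ℕ) : ℝ) - 2 * ∑ b, W a b * ((y' b : ℕ) : ℝ) = _
      rw [← mul_sub, ← sum_sub_distrib]
      congr 1
      refine sum_congr rfl fun b _ => ?_
      push_cast
      ring
    rw [h4, abs_mul, abs_of_nonneg (by norm_num : (0 : ℝ) ≤ 2)] at h3
    linarith

end Pool.Agent.H87.AX
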