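import Pool.Agent.H87.AX.Defs

/-!
# [AX-SM] A Galois stable family of algebraic integers of absolute value `< 1` is zero

Fix `p ∈ P`, `v = v p`, `f = minpoly ℤ v` (monic), `f.map = minpoly ℚ v`
(`minpoly.isIntegrallyClosed_eq_field_fractions'`). For every complex root `r` of `f` there is
`σ : AA →+* ℂ` with `σ v = r`: `AA = algebraicClosure ℚ ℂ`; `ℚ(v) → ℂ`, `v ↦ r`
(`IntermediateField.adjoin.liftSingleton`/`AdjoinRoot`), extended to the algebraic extension `AA` of
`ℚ(v)` (`IsAlgClosed.lift`, see `Pool.Agent.H87.SA2.extA` for the real case). Hence `r = v (π p)` and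
`‖r‖ < 1`. The constant coefficient of `f` is `± ∏ roots` (`Polynomial.splits...`,
`Multiset.prod`), so its absolute value is `< 1` (degree `≥ 1`), it is an integer, so it is `0`;
`X ∣ f` and `f` irreducible give `v = 0` (`minpoly.coeff_zero_eq_zero`).
-/

namespace Pool.Agent.H87.AX

open Finset Polynomial Pool.Agent.H87.SA2

theorem prod_norm_lt_SM (s : Multiset ℂ) (h : ∀ β ∈ s, ‖β‖ < 1) (hs : s ≠ 0) :
    (s.map (fun β => ‖β‖)).prod < 1 := by
  have h1 : ∀ t : Multiset ℂ, (∀ β ∈ t, ‖β‖ < 1) → (t.map (fun β => ‖β‖)).prod ≤ 1 := by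
    intro t
    induction t using Multiset.induction_on with
    | empty => intro _; simp
    | cons a t ih =>
      intro ht
      rw [Multiset.map_cons, Multiset.prod_cons]
      refine mul_le_one₀ (ht a (Multiset.mem_cons_self a t)).le ?_ ?_
      · refine Multiset.prod_nonneg fun x hx => ?_
        rw [Multiset.mem_map] at hx
        obtain ⟨β, _, rfl⟩ := hx
        exact norm_nonneg _
      · exact ih fun β hβ => ht β (Multiset.mem_cons_of_mem hβ)
  obtain ⟨a, ha⟩ := Multiset.exists_mem_of_ne_zero hs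
  obtain ⟨t, rfl⟩ := Multiset.exists_cons_of_mem ha
  rw [Multiset.map_cons, Multiset.prod_cons]
  have h2 := h1 t fun β hβ => h β (Multiset.mem_cons_of_mem hβ)
  have h3 := h a (Multiset.mem_cons_self a t)
  calc ‖a‖ * (t.map (fun β => ‖β‖)).prod ≤ ‖a‖ * 1 :=
        mul_le_mul_of_nonneg_left h2 (norm_nonneg _)
    _ < 1 := by rwa [mul_one]

theorem root_lt_SM {ι : Type} (P : Finset ι) (v : ι → ℂ) (hint : ∀ p ∈ P, IsIntegral ℤ (v p))
    (hlt : ∀ p ∈ P, ‖v p‖ < 1)
    (hgal : ∀ σ : AA →+* ℂ, ∃ π : ι → ι, (∀ p ∈ P, π p ∈ P) ∧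
      ∀ p ∈ P, ∀ a : AA, (a : ℂ) = v p → σ a = v (π p)) (p : ι) (hp : p ∈ P) (β : ℂ)
    (hβ : Polynomial.aeval β (minpoly ℚ (v p)) = 0) : ‖β‖ < 1 := by
  have halg : IsAlgebraic ℚ (v p) := (hint p hp).tower_top.isAlgebraic
  have hmem : v p ∈ AA := mem_algebraicClosure_iff.mpr halg
  set a : AA := ⟨v p, hmem⟩ with ha
  have hint' : IsIntegral ℚ a := by
    rw [← isIntegral_algebraMap_iff (algebraMap AA ℂ).injective]
    exact (hint p hp).tower_top
  have hmin : minpoly ℚ a = minpoly ℚ (v p) :=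
    (minpoly.algebraMap_eq (algebraMap AA ℂ).injective a).symm
  have hAA : Algebra.IsAlgebraic ℚ AA := algebraicClosure.isAlgebraic ℚ ℂ
  have hset := Algebra.IsAlgebraic.range_eval_eq_rootSet_minpoly (F := ℚ) (K := AA) ℂ a
  have hroot : β ∈ (minpoly ℚ a).rootSet ℂ := by
    rw [Polynomial.mem_rootSet]
    exact ⟨minpoly.ne_zero hint', by rw [hmin]; exact hβ⟩
  rw [← hset] at hroot
  obtain ⟨ψ, hψ⟩ := hroot
  obtain ⟨π, hπ, hπ2⟩ := hgal ψ.toRingHom
  have h1 := hπ2 p hp a rfl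
  have h2 : β = v (π p) := by
    rw [← hψ]
    exact h1
  rw [h2]
  exact hlt _ (hπ p hp)

theorem small_zero {ι : Type} (P : Finset ι) (v : ι → ℂ) (hint : ∀ p ∈ P, IsIntegral ℤ (v p))
    (hlt : ∀ p ∈ P, ‖v p‖ < 1)
    (hgal : ∀ σ : AA →+* ℂ, ∃ π : ι → ι, (∀ p ∈ P, π p ∈ P) ∧
      ∀ p ∈ P, ∀ a : AA, (a : ℂ) = v p → σ a = v (π p)) : ∀ p ∈ P, v p = 0 := by
  intro p hp
  have hi := hint p hp
  set f : ℤ[X] := minpoly ℤ (v p) with hf
  have hmonic : f.Monic := minpoly.monic hi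
  have hfrac : minpoly ℚ (v p) = f.map (algebraMap ℤ ℚ) :=
    minpoly.isIntegrallyClosed_eq_field_fractions' ℚ hi
  have hiQ : IsIntegral ℚ (v p) := hi.tower_top
  set Q : ℂ[X] := (minpoly ℚ (v p)).map (algebraMap ℚ ℂ) with hQ
  have hQm : Q.Monic := (minpoly.monic hiQ).map _
  have hQdeg : Q.natDegree ≠ 0 := by
    rw [hQ, natDegree_map]
    exact (minpoly.natDegree_pos hiQ).ne'
  have hsplit : Q.Splits := IsAlgClosed.splits Q
  have hroots : Q.roots ≠ 0 := by
    intro h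
    have := hsplit.natDegree_eq_card_roots
    rw [h, Multiset.card_zero] at this
    exact hQdeg this
  have heval : Q.eval 0 = (Q.roots.map fun β => 0 - β).prod := by
    rw [hsplit.eval_eq_prod_roots_of_monic hQm]
  have hnorm : ‖Q.eval 0‖ < 1 := by
    rw [heval]
    have h1 : ‖(Q.roots.map fun β => 0 - β).prod‖ = (Q.roots.map fun β => ‖β‖).prod := by
      induction Q.roots using Multiset.induction_on with
      | empty => simp
      | cons a t ih =>
        rw [Multiset.map_cons, Multiset.prod_cons, Multiset.map_cons, Multiset.prod_cons, norm_mul,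
          ih, zero_sub, norm_neg]
    rw [h1]
    refine prod_norm_lt_SM _ (fun β hβ => ?_) hroots
    refine root_lt_SM P v hint hlt hgal p hp β ?_
    have h2 := (mem_roots'.mp hβ).2
    rw [IsRoot.def, hQ, eval_map_algebraMap] at h2
    exact h2
  have hc : Q.eval 0 = ((f.coeff 0 : ℤ) : ℂ) := by
    rw [← coeff_zero_eq_eval_zero, hQ, coeff_map, hfrac, coeff_map]
    simp
  rw [hc, Complex.norm_intCast] at hnorm
  have hz : f.coeff 0 = 0 := by
    have h3 : |f.coeff 0| < 1 := by exact_mod_cast hnorm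
    rwa [Int.abs_lt_one_iff] at h3
  have hz2 : (minpoly ℚ (v p)).coeff 0 = 0 := by
    rw [hfrac, coeff_map, hz, map_zero]
  exact (minpoly.coeff_zero_eq_zero hiQ).mp hz2

end Pool.Agent.H87.AX
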