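import Pool.Agent.H87.AX.RS
import Pool.Agent.H87.AX.SM
import Pool.Agent.H87.AX.CC
import Pool.Agent.H87.AX.GX
import Pool.Agent.H87.AX.FO
import Pool.Agent.H87.AX.BB
import Pool.Agent.H97.AN.SiegA
import Pool.Agent.H87.SA2.Sieg
import Pool.Agent.H87.SA2.TWR

/-! # [AX-SG] The auxiliary polynomial -/

namespace Pool.Agent.H87.AX

open Finset Polynomial Pool.Agent.H72.ES Pool.Agent.H8.KF Pool.Agent.H97.AN Pool.Agent.H87.SA
  Pool.Agent.H87.SA2 Pool.Agent.H8.AW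

variable {D Dl κ e M : ℕ} {X0 R : ℝ} {d b : ℕ} {F : ℕ → ℕ → ℤ}

/-- the coefficient of the cell sum -/
noncomputable def wX (an : AnchX D Dl κ e M X0 R) {f : ℤ[X][X]} (pd : PData f d) (k L : ℕ)
    (p : an.I × Fin d) (s j u v : ℕ) : ℂ :=
  (M : ℂ) ^ ((k + e - 1) / e) * (((1 / X0 : ℝ)) : ℂ) ^ k *
    (zcR (X0 : ℂ) e (an.zs p.1) k s j * ∑ l ∈ range pd.e, bX pd u v (pd.e * L + l) p.2)

theorem SX_lin (an : AnchX D Dl κ e M X0 R) {f : ℤ[X][X]} (pd : PData f d) (J : ℕ)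
    (A : ℕ → ℕ → ℕ → ℕ → ℤ) (k L : ℕ) (p : an.I × Fin d) :
    SX an pd J A k L p = ∑ s ∈ range (J + 1), ∑ j ∈ range D, ∑ u ∈ range (3 * d + 1),
      ∑ v ∈ range (3 * d + 1 - u), (A s j u v : ℂ) * wX an pd k L p s j u v := by
  unfold SX VX sa wX
  simp_rw [mul_sum]
  rw [sum_comm]
  refine sum_congr rfl fun s _ => ?_
  rw [sum_comm]
  refine sum_congr rfl fun j _ => ?_
  rw [sum_comm]
  refine sum_congr rfl fun u _ => ?_
  rw [sum_comm]
  refine sum_congr rfl fun v _ => ?_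
  refine sum_congr rfl fun l _ => ?_
  ring

/-- the conjugates of `x0^r` -/
theorem AnchX.X0_le (an : AnchX D Dl κ e M X0 R) {r : ℕ} (hr : r < e) :
    ‖(X0 : ℂ) ^ r‖ ≤ X0 ^ κ := by
  have h1 := (an.ψ_le _).trans (an.ν_x0 r hr)
  rw [map_pow, an.ψ_x0] at h1
  rw [norm_pow, Complex.norm_real, Real.norm_eq_abs, ← abs_pow]
  exact h1

theorem subMul_normC : SubMul (fun z : ℂ => ‖z‖) where
  nonneg := norm_nonneg
  zero := norm_zero
  neg := norm_neg
  add := norm_add_le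
  mul a b := (norm_mul a b).le
  one := by simp

theorem wX_le (Q : Tgt d b F) (an : AnchX D Dl κ e M X0 R) (he : 1 ≤ e) (hX : 1 ≤ X0)
    (hM : X0 ^ e = (M : ℝ)) (hR : 1 ≤ R) (hDl : D ≤ Dl) (k L : ℕ) (hL : L < 6 * d + 1)
    (p : an.I × Fin d) (s j u v : ℕ) (hj : j < D) (hv : v ≤ d) :
    6 * ‖wX an Q.pd k L p s j u v‖ ≤
      X0 ^ e * (X0 ^ (κ * Dl) * 2 ^ Dl * (2 * R) ^ k) * BX d b ^ (13 * d) := by
  have h1 : ‖(M : ℂ) ^ ((k + e - 1) / e) * (((1 / X0 : ℝ)) : ℂ) ^ k‖ ≤ X0 ^ e := by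
    have hX0 : 0 < X0 := by linarith
    rw [norm_mul, norm_pow, norm_pow, Complex.norm_natCast, Complex.norm_real, Real.norm_eq_abs,
      abs_of_pos (by positivity), ← hM, ← pow_mul, one_div, inv_pow]
    rw [← div_eq_mul_inv, div_le_iff₀ (by positivity), ← pow_add]
    refine pow_le_pow_right₀ hX ?_
    have h2 := Nat.mul_div_le (k + e - 1) e
    omega
  have h2 := zcR_le subMul_normC (A := X0 ^ κ) (R := R) (one_le_pow₀ hX) hR (x0 := (X0 : ℂ)) he
    (fun r hr => an.X0_le hr) (an.zs_le p.1) hDl k s j hj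
  rw [← pow_mul] at h2
  have h3 : 6 * ‖∑ l ∈ range Q.pd.e, bX Q.pd u v (Q.pd.e * L + l) p.2‖ ≤ BX d b ^ (13 * d) := by
    refine le_trans ?_ (bX_cell Q u v L hv hL p.2)
    exact mul_le_mul_of_nonneg_left (norm_sum_le _ _) (by norm_num)
  unfold wX
  rw [norm_mul, norm_mul (zcR (X0 : ℂ) e (an.zs p.1) k s j)]
  have hX0 : 0 < X0 := by linarith
  calc 6 * (‖(M : ℂ) ^ ((k + e - 1) / e) * (((1 / X0 : ℝ)) : ℂ) ^ k‖ *
        (‖zcR (X0 : ℂ) e (an.zs p.1) k s j‖ *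
          ‖∑ l ∈ range Q.pd.e, bX Q.pd u v (Q.pd.e * L + l) p.2‖))
      = ‖(M : ℂ) ^ ((k + e - 1) / e) * (((1 / X0 : ℝ)) : ℂ) ^ k‖ *
        ‖zcR (X0 : ℂ) e (an.zs p.1) k s j‖ *
          (6 * ‖∑ l ∈ range Q.pd.e, bX Q.pd u v (Q.pd.e * L + l) p.2‖) := by ring
    _ ≤ _ := by gcongr

theorem one_le_BX {d b : ℕ} (hb : 2 ≤ b) : 1 ≤ BX d b := by
  unfold BX
  exact one_le_pow₀ (by exact_mod_cast (by omega : 1 ≤ b))

/-- complex conjugation on the pairs -/
theorem PairX.conj {an : AnchX D Dl κ e M X0 R} {f : ℤ[X][X]} {pd : PData f d} {j0 : Fin d}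
    (pr : PairX an pd j0) (he : 1 ≤ e) (hX : 1 ≤ X0) (hM : X0 ^ e = (M : ℝ)) :
    ∃ c : an.I × Fin d → an.I × Fin d, (∀ p ∈ pr.P, c p ∈ pr.P) ∧ (∀ p ∈ pr.P, c (c p) = p) ∧
      ∀ (J : ℕ) (A : ℕ → ℕ → ℕ → ℕ → ℤ) (k L : ℕ) (p : an.I × Fin d),
        SX an pd J A k L (c p) = starRingEnd ℂ (SX an pd J A k L p) := by
  have hX0 : (((1 / X0 : ℝ)) : ℂ) ≠ 0 := by
    have : (1 / X0 : ℝ) ≠ 0 := by positivity
    exact_mod_cast this
  obtain ⟨π1, π2, h1, h2, h3⟩ := pr.gal ((starRingEnd ℂ).comp (algebraMap AA ℂ))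
  have hXi : IsIntegral ℤ (X0 : ℂ) := by
    have h4 : IsIntegral ℤ ((X0 : ℂ) ^ e) := by
      have h5 : (X0 : ℂ) ^ e = ((M : ℤ) : ℂ) := by
        have := congrArg (fun r : ℝ => (r : ℂ)) hM
        push_cast at this ⊢
        exact this
      rw [h5]
      exact isIntegral_algebraMap (R := ℤ) (A := ℂ) (x := (M : ℤ))
    exact IsIntegral.of_pow (by omega) h4
  have hXalg : ∀ k : ℕ, ((((1 / X0 : ℝ)) : ℂ) ^ k) ∈ AA := by
    intro k
    have h4 : (X0 : ℂ) ∈ AA := mem_AA hXi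
    push_cast
    exact pow_mem (div_mem (one_mem _) h4) k
  have g1 : ∀ i k, PowerSeries.coeff k (an.zs (π1 i)) =
      starRingEnd ℂ (PowerSeries.coeff k (an.zs i)) := by
    intro i k
    have h4 := h1 i k ⟨_, mul_mem (hXalg k) (mem_AA (an.zs_int i k))⟩ rfl
    have h5 : ((starRingEnd ℂ).comp (algebraMap AA ℂ))
        ⟨_, mul_mem (hXalg k) (mem_AA (an.zs_int i k))⟩ =
        starRingEnd ℂ ((((1 / X0 : ℝ)) : ℂ) ^ k * PowerSeries.coeff k (an.zs i)) := rfl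
    rw [h5, map_mul, map_pow, Complex.conj_ofReal] at h4
    exact (mul_left_cancel₀ (pow_ne_zero k hX0) h4).symm
  have g2 : ∀ j k, PowerSeries.coeff k (pd.x (π2 j)) =
      starRingEnd ℂ (PowerSeries.coeff k (pd.x j)) := by
    intro j k
    exact (h2 j k ⟨_, mem_AA (pd.integral j k)⟩ rfl).symm
  refine ⟨fun p => (π1 p.1, π2 p.2), h3, ?_, ?_⟩
  · intro p _
    refine Prod.ext (an.zs_inj ?_) (pd.x_inj ?_)
    · ext k
      rw [g1, g1, Complex.conj_conj]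
    · ext k
      rw [g2, g2, Complex.conj_conj]
  · intro J A k L p
    have h4 := SX_gal an pd he hX hM J A k L _ π1 π2 h1 h2 p
      ⟨_, mem_AA (SX_int an pd he hX hM J A k L p)⟩ rfl
    exact h4.symm

theorem siegX (Q : Tgt d b F) {j0 : Fin d} (an : AnchX D Dl κ e M X0 R) (pr : PairX an Q.pd j0)
    (hD : 1 ≤ D) (hDl : D ≤ Dl) (he : 1 ≤ e) (hX : 1 ≤ X0) (hM : X0 ^ e = (M : ℝ)) (hR : 2 ≤ R)
    (la : ℕ) (hla : 8 * d ≤ la) (hlaDl : Dl ≤ la) :
    ∃ A : ℕ → ℕ → ℕ → ℕ → ℤ, (∃ s j p q, A s j p q ≠ 0) ∧ SuppA d D (3 * d * la) A ∧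
      (∀ s j p q, |((A s j p q : ℤ) : ℝ)| ≤ ZSR d Dl κ X0 R (X0 ^ e) (BX d b) la) ∧
      ∀ k l, k + la * (l / Q.pd.e) < TT d la →
        sa d D (3 * d * la) A (fun s j => ((zcR X0 e (an.Z.map an.ψ) k s j : ℝ) : ℂ))
          (fun p q => bX Q.pd p q l j0) = 0 := by
  classical
  have hd := Q.d4
  have hb := one_le_BX (d := d) Q.b2
  have hTT := Pool.Agent.H8.KF.TT_le hd hla
  have hTT6 := num_TT hd hla
  have hlaD : D ≤ la := hDl.trans hlaDl
  have hla1 : 0 < la := by omega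
  set P := pr.P with hP
  have hm := pr.card
  set m := P.card with hmdef
  have hm1 : 1 ≤ m := Finset.card_pos.2 ⟨_, pr.mem⟩
  set S2 := siegelSet d (3 * d) with hS2
  have hc2 : 2 * (S2.card : ℤ) = d * (5 * d + 3) := by
    have := siegel_card (n := d) (N := 3 * d) (by omega)
    push_cast at this
    rw [← hS2] at this
    linarith
  let I1 := (Σ l : Fin (6 * d + 1), Fin (TT d la - la * (l : ℕ)))
  obtain ⟨c, hcP, hcc, hcS⟩ := pr.conj he hX hM
  obtain ⟨sg, hsg⟩ := coord_conj P c hcP hcc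
  let W : I1 × {p // p ∈ P} → (Fin (3 * d * la + 1) × Fin D) × {p // p ∈ S2} → ℝ :=
    fun r c => if sg r.2.1 then (wX an Q.pd (r.1.2 : ℕ) (r.1.1 : ℕ) r.2.1 (c.1.1 : ℕ) (c.1.2 : ℕ)
        c.2.1.2 c.2.1.1).re else
      (wX an Q.pd (r.1.2 : ℕ) (r.1.1 : ℕ) r.2.1 (c.1.1 : ℕ) (c.1.2 : ℕ) c.2.1.2 c.2.1.1).im
  set K := (∑ l : Fin (6 * d + 1), (TT d la - la * (l : ℕ))) with hK
  have hcα : Fintype.card (I1 × {p // p ∈ P}) = K * m := by
    rw [Fintype.card_prod, Fintype.card_sigma, Fintype.card_coe]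
    simp only [Fintype.card_fin, hK, hmdef]
  have hcβ : Fintype.card ((Fin (3 * d * la + 1) × Fin D) × {p // p ∈ S2}) =
      (3 * d * la + 1) * D * S2.card := by
    rw [Fintype.card_prod, Fintype.card_prod, Fintype.card_coe, Fintype.card_fin, Fintype.card_fin]
  have hKr : 2 * (K : ℝ) = (6 * d + 1) * (2 * TT d la - 6 * d * la) := by
    have := sieg_rows d la
    rw [← hK] at this
    exact_mod_cast this
  have hTTr : (2 * TT d la : ℝ) ≤ 12 * d * la + 6 * d + la + 2 := by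
    have h1 : 2 * TT d la ≤ 12 * d * la + 6 * d + la + 2 := by
      unfold TT ee
      have h3 : 2 * (la / 2) ≤ la := Nat.mul_div_le la 2
      nlinarith
    exact_mod_cast h1
  have hnR : (4 : ℝ) ≤ d := by exact_mod_cast hd
  have hlaR : 8 * (d : ℝ) ≤ la := by exact_mod_cast hla
  have hmR : (1 : ℝ) ≤ m := by exact_mod_cast hm1
  have hDR : (1 : ℝ) ≤ D := by exact_mod_cast hD
  have hDlaR : (D : ℝ) ≤ la := by exact_mod_cast hlaD
  have h3mR : 3 * (m : ℝ) ≤ d * D := by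
    have : 3 * m ≤ d * D := by rw [mul_comm d D]; exact hm
    exact_mod_cast this
  have hla0 : (0 : ℝ) ≤ la := by linarith
  have hu2 : 2 * (S2.card : ℝ) = d * (5 * d + 3) := by exact_mod_cast hc2
  have hU : (((3 * d * la + 1) * D * S2.card : ℕ) : ℝ) =
      (3 * d * la + 1) * D * (d * (5 * d + 3)) / 2 := by
    push_cast
    rw [← hu2]
    ring
  have h54 : 5 * ((K * m : ℕ) : ℝ) ≤ 4 * (((3 * d * la + 1) * D * S2.card : ℕ) : ℝ) := by
    rw [hU]
    push_cast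
    have hK1 : 2 * (K : ℝ) ≤ (6 * d + 1) * (6 * d * la + 6 * d + la + 2) := by
      rw [hKr]
      exact mul_le_mul_of_nonneg_left (by linarith) (by linarith)
    have h1 : 5 * ((6 * (d : ℝ) + 1) * (6 * d * la + 6 * d + la + 2)) ≤
        12 * ((3 * d * la + 1) * (5 * d + 3)) := by
      have h2 : (48 * (d : ℝ) - 5) * (8 * d) ≤ (48 * d - 5) * la :=
        mul_le_mul_of_nonneg_left hlaR (by linarith)
      nlinarith
    have h4 : (3 * (d : ℝ) * la + 1) * (5 * d + 3) * (3 * m) ≤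
        (3 * d * la + 1) * (5 * d + 3) * (d * D) :=
      mul_le_mul_of_nonneg_left h3mR (by positivity)
    have h5 : 5 * (2 * (K : ℝ)) * m ≤ 12 * ((3 * d * la + 1) * (5 * d + 3)) * m := by
      refine mul_le_mul_of_nonneg_right ?_ (by linarith)
      linarith
    linarith
  have h54N : 5 * Fintype.card (I1 × {p // p ∈ P}) ≤
      4 * Fintype.card ((Fin (3 * d * la + 1) × Fin D) × {p // p ∈ S2}) := by
    rw [hcα, hcβ]
    exact_mod_cast h54
  have hS2pos : 0 < S2.card := by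
    have h1 : (0 : ℤ) < 2 * (S2.card : ℤ) := by
      rw [hc2]
      have : (4 : ℤ) ≤ d := by exact_mod_cast hd
      positivity
    omega
  have hUpos : 0 < (3 * d * la + 1) * D * S2.card :=
    Nat.mul_pos (Nat.mul_pos (Nat.succ_pos _) hD) hS2pos
  set B0 : ℝ := X0 ^ e * X0 ^ (κ * Dl) * (R ^ la * R ^ (2 * ((6 * d + 1) * la))) *
    BX d b ^ (13 * d) with hB0
  have hR1 : (1 : ℝ) ≤ R := by linarith
  have hB01 : 1 ≤ B0 := by
    rw [hB0]
    exact one_le_mul_of_one_le_of_one_le (one_le_mul_of_one_le_of_one_le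
      (one_le_mul_of_one_le_of_one_le (one_le_pow₀ hX) (one_le_pow₀ hX))
      (one_le_mul_of_one_le_of_one_le (one_le_pow₀ hR1) (one_le_pow₀ hR1))) (one_le_pow₀ hb)
  have hWle : ∀ r c, |W r c| ≤ B0 / 6 := by
    intro r c
    have hcm2 := siegel_mem.1 c.2.2
    have hl : (r.1.1 : ℕ) < 6 * d + 1 := r.1.1.2
    have hk : (r.1.2 : ℕ) < TT d la - la * (r.1.1 : ℕ) := r.1.2.2
    have hj : (c.1.2 : ℕ) < D := c.1.2.2
    have h1 := wX_le Q an he hX hM hR1 hDl (r.1.2 : ℕ) (r.1.1 : ℕ) hl r.2.1 (c.1.1 : ℕ)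
      (c.1.2 : ℕ) c.2.1.2 c.2.1.1 hj (by omega)
    have h2 : X0 ^ e * (X0 ^ (κ * Dl) * 2 ^ Dl * (2 * R) ^ (r.1.2 : ℕ)) * BX d b ^ (13 * d) ≤
        B0 := by
      rw [hB0]
      refine mul_le_mul_of_nonneg_right ?_ (by positivity)
      rw [mul_assoc (X0 ^ e), mul_assoc (X0 ^ (κ * Dl))]
      refine mul_le_mul_of_nonneg_left ?_ (by positivity)
      refine mul_le_mul_of_nonneg_left ?_ (by positivity)
      refine mul_le_mul ?_ ?_ (by positivity) (by positivity)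
      · calc (2 : ℝ) ^ Dl ≤ R ^ Dl := pow_le_pow_left₀ (by norm_num) hR Dl
          _ ≤ R ^ la := pow_le_pow_right₀ (by linarith) hlaDl
      · calc (2 * R) ^ (r.1.2 : ℕ) ≤ (R ^ 2) ^ (r.1.2 : ℕ) :=
              pow_le_pow_left₀ (by positivity) (by nlinarith) _
          _ ≤ (R ^ 2) ^ ((6 * d + 1) * la) :=
              pow_le_pow_right₀ (one_le_pow₀ (by linarith)) (by omega)
          _ = R ^ (2 * ((6 * d + 1) * la)) := by rw [← pow_mul]
    have h3 : |W r c| ≤ ‖wX an Q.pd (r.1.2 : ℕ) (r.1.1 : ℕ) r.2.1 (c.1.1 : ℕ) (c.1.2 : ℕ)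
        c.2.1.2 c.2.1.1‖ := by
      simp only [W]
      split_ifs
      · exact Complex.abs_re_le_norm _
      · exact Complex.abs_im_le_norm _
    linarith
  obtain ⟨x, hx0, hxn, hxW⟩ := real_siegel W (B := max 1 (B0 / 6)) (le_max_left _ _)
    (fun r c => (hWle r c).trans (le_max_right _ _)) h54N (by rw [hcβ]; exact hUpos)
  have hU1 : (1 : ℝ) ≤ (((3 * d * la + 1) * D * S2.card : ℕ) : ℝ) := by exact_mod_cast hUpos
  have hB6 : 6 ≤ B0 := by
    rw [hB0]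
    have h6 : (6 : ℝ) ≤ BX d b ^ (13 * d) := by
      have h7 : (2 : ℝ) ≤ BX d b := by
        unfold BX
        have hb2 : (2 : ℝ) ≤ b := by exact_mod_cast Q.b2
        calc (2 : ℝ) ≤ b := hb2
          _ ≤ (b : ℝ) ^ (10 * d.factorial) := by
              refine le_self_pow₀ (by linarith) ?_
              have := Nat.factorial_pos d
              omega
      calc (6 : ℝ) ≤ 2 ^ 3 := by norm_num
        _ ≤ BX d b ^ 3 := pow_le_pow_left₀ (by norm_num) h7 3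
        _ ≤ BX d b ^ (13 * d) := pow_le_pow_right₀ hb (by omega)
    have h8 : 1 ≤ X0 ^ e * X0 ^ (κ * Dl) * (R ^ la * R ^ (2 * ((6 * d + 1) * la))) :=
      one_le_mul_of_one_le_of_one_le
      (one_le_mul_of_one_le_of_one_le (one_le_pow₀ hX) (one_le_pow₀ hX))
      (one_le_mul_of_one_le_of_one_le (one_le_pow₀ hR1) (one_le_pow₀ hR1))
    nlinarith
  have hmax : max 1 (B0 / 6) = B0 / 6 := max_eq_right (by linarith)
  rw [hmax, hcβ] at hxn
  have hxle : ∀ c, |(x c : ℝ)| ≤ ZSR d Dl κ X0 R (X0 ^ e) (BX d b) la := by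
    intro c
    refine (hxn c).trans ?_
    unfold ZSR
    refine pow_le_pow_left₀ (by positivity) ?_ 4
    have hexp2 : d ^ 2 * la + (la + 2 * ((6 * d + 1) * la)) ≤ 5 * d ^ 2 * la := by
      have h4 : (d ^ 2 + 12 * d + 3) * la ≤ 5 * d ^ 2 * la :=
        Nat.mul_le_mul_right _ (by nlinarith)
      calc d ^ 2 * la + (la + 2 * ((6 * d + 1) * la)) = (d ^ 2 + 12 * d + 3) * la := by ring
        _ ≤ _ := h4
    have h2 : (((3 * d * la + 1) * D * S2.card : ℕ) : ℝ) ≤ R ^ (d ^ 2 * la) := by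
      have h3 : (la : ℝ) ≤ (2 : ℝ) ^ la := by exact_mod_cast Nat.lt_two_pow_self.le
      have h5 : (3 * (d : ℝ) * la + 1) * D * (d * (5 * d + 3)) / 2 ≤ 16 * d ^ 4 * (la * la) := by
        have h6 : (3 * (d : ℝ) * la + 1) * D ≤ (4 * d * la) * la := by
          refine mul_le_mul (by nlinarith) hDlaR (by positivity) (by positivity)
        have h7 : (d : ℝ) * (5 * d + 3) ≤ d * (8 * d) :=
          mul_le_mul_of_nonneg_left (by linarith) (by positivity)
        have h8 : (3 * (d : ℝ) * la + 1) * D * (d * (5 * d + 3)) ≤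
            (4 * d * la) * la * (d * (8 * d)) :=
          mul_le_mul h6 h7 (by positivity) (by positivity)
        have h9 : (d : ℝ) ^ 3 * (la * la) ≤ d ^ 4 * (la * la) := by
          refine mul_le_mul_of_nonneg_right ?_ (by positivity)
          exact pow_le_pow_right₀ (by linarith) (by norm_num)
        nlinarith
      have h6 : (d : ℝ) ^ 4 ≤ 2 ^ (2 * d) := by
        have h7 : d ^ 4 ≤ 2 ^ (2 * d) := by
          calc d ^ 4 = (d ^ 2) ^ 2 := by ring
            _ ≤ (2 ^ d) ^ 2 := Nat.pow_le_pow_left (sq_le_two_pow hd) 2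
            _ = 2 ^ (2 * d) := by rw [← pow_mul]; ring_nf
        exact_mod_cast h7
      have h10 : 4 + 2 * d + (la + la) ≤ d ^ 2 * la := by
        have h11 : 16 * la ≤ d ^ 2 * la := Nat.mul_le_mul_right _ (by nlinarith)
        omega
      rw [hU]
      calc (3 * (d : ℝ) * la + 1) * D * (d * (5 * d + 3)) / 2 ≤ 16 * d ^ 4 * (la * la) := h5
        _ ≤ 16 * (2 : ℝ) ^ (2 * d) * ((2 : ℝ) ^ la * (2 : ℝ) ^ la) := by
            refine mul_le_mul (mul_le_mul_of_nonneg_left h6 (by norm_num)) ?_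
              (by positivity) (by positivity)
            exact mul_le_mul h3 h3 hla0 (by positivity)
        _ = 2 ^ (4 + 2 * d + (la + la)) := by
            rw [pow_add, pow_add, pow_add]; norm_num
        _ ≤ 2 ^ (d ^ 2 * la) := pow_le_pow_right₀ (by norm_num) h10
        _ ≤ R ^ (d ^ 2 * la) := pow_le_pow_left₀ (by norm_num) hR _
    calc 6 * (((3 * d * la + 1) * D * S2.card : ℕ) : ℝ) * (B0 / 6)
        = (((3 * d * la + 1) * D * S2.card : ℕ) : ℝ) * B0 := by ring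
      _ ≤ R ^ (d ^ 2 * la) * B0 := mul_le_mul_of_nonneg_right h2 (by linarith)
      _ = X0 ^ e * X0 ^ (κ * Dl) * BX d b ^ (13 * d) *
            R ^ (d ^ 2 * la + (la + 2 * ((6 * d + 1) * la))) := by
          rw [hB0, pow_add R (d ^ 2 * la), pow_add R la]; ring
      _ ≤ X0 ^ e * X0 ^ (κ * Dl) * BX d b ^ (13 * d) * R ^ (5 * d ^ 2 * la) := by
          refine mul_le_mul_of_nonneg_left ?_ (by positivity)
          exact pow_le_pow_right₀ hR1 hexp2
  -- the array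
  let A : ℕ → ℕ → ℕ → ℕ → ℤ := fun s j p q =>
    if h : (s < 3 * d * la + 1 ∧ j < D) ∧ (⟨q, p⟩ : Σ _ : ℕ, ℕ) ∈ S2 then
      x ((⟨s, h.1.1⟩, ⟨j, h.1.2⟩), ⟨⟨q, p⟩, h.2⟩) else 0
  have hA : ∀ (s : Fin (3 * d * la + 1)) (j : Fin D) (b : Σ _ : ℕ, ℕ) (h2 : b ∈ S2),
      A s j b.2 b.1 = x ((s, j), ⟨b, h2⟩) := by
    intro s j b h2
    exact dif_pos (⟨⟨s.2, j.2⟩, h2⟩ : ((s : ℕ) < 3 * d * la + 1 ∧ (j : ℕ) < D) ∧
      (⟨b.1, b.2⟩ : Σ _ : ℕ, ℕ) ∈ S2)
  have hA0 : ∀ s j p q, A s j p q ≠ 0 →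
      (s < 3 * d * la + 1 ∧ j < D) ∧ (⟨q, p⟩ : Σ _ : ℕ, ℕ) ∈ S2 := by
    intro s j p q h
    by_contra hc
    exact h (dif_neg hc)
  have hz2 : ∀ s j p q, d ≤ q → A s j p q = 0 := by
    intro s j p q hj
    by_contra hc
    have := siegel_mem.1 (hA0 s j p q hc).2
    simp only at this
    omega
  -- the cell sums
  have hSX : ∀ (k L : ℕ) (p : an.I × Fin d), SX an Q.pd (3 * d * la) A k L p =
      ∑ s : Fin (3 * d * la + 1), ∑ j : Fin D, ∑ b ∈ S2, (A s j b.2 b.1 : ℂ) *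
        wX an Q.pd k L p s j b.2 b.1 := by
    intro k L p
    rw [SX_lin, Finset.sum_range]
    refine sum_congr rfl fun s _ => ?_
    rw [Finset.sum_range]
    refine sum_congr rfl fun j _ => ?_
    rw [sum_siegelSet (n := d) (by omega) (fun p' q => (A s j p' q : ℂ) *
      wX an Q.pd k L p s j p' q)]
    intro p' q hq
    rw [hz2 _ _ _ _ hq, Int.cast_zero, zero_mul]
  have hcell : ∀ k L, k + la * L < TT d la → ∀ p ∈ P, SX an Q.pd (3 * d * la) A k L p = 0 := by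
    intro k L hkL
    have hL : L < 6 * d + 1 := by
      by_contra hc
      push Not at hc
      have h1 : la * (6 * d + 1) ≤ la * L := Nat.mul_le_mul_left _ hc
      nlinarith
    have hk : k < TT d la - la * L := by omega
    have hre : ∀ p ∈ P, |if sg p then (SX an Q.pd (3 * d * la) A k L p).re else
        (SX an Q.pd (3 * d * la) A k L p).im| < 1 / 2 := by
      intro p hp
      have h1 := hxW (⟨⟨L, hL⟩, ⟨k, hk⟩⟩, ⟨p, hp⟩)
      refine lt_of_le_of_lt (le_of_eq ?_) h1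
      congr 1
      rw [hSX, Fintype.sum_prod_type, Fintype.sum_prod_type]
      have h2 : ∀ (s : Fin (3 * d * la + 1)) (j : Fin D),
          (∑ b ∈ S2, (A s j b.2 b.1 : ℂ) * wX an Q.pd k L p s j b.2 b.1) =
          ∑ b : {p // p ∈ S2}, ((x ((s, j), b) : ℤ) : ℂ) *
            wX an Q.pd k L p s j b.1.2 b.1.1 := by
        intro s j
        rw [← Finset.sum_coe_sort S2]
        refine sum_congr rfl fun b _ => ?_
        rw [hA s j b.1 b.2]
      simp_rw [h2]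
      have h3 : ∀ (z : ℤ) (w : ℂ), ((z : ℂ) * w).re = w.re * z := by
        intro z w
        rw [← Complex.ofReal_intCast, Complex.re_ofReal_mul, mul_comm]
      have h4 : ∀ (z : ℤ) (w : ℂ), ((z : ℂ) * w).im = w.im * z := by
        intro z w
        rw [← Complex.ofReal_intCast, Complex.im_ofReal_mul, mul_comm]
      cases hs : sg p
      · simp only [Complex.im_sum, h4, W, hs, Bool.false_eq_true, if_false]
      · simp only [Complex.re_sum, h3, W, hs, if_true]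
    have hlt := hsg (SX an Q.pd (3 * d * la) A k L) (fun p _ => hcS _ _ _ _ p) hre
    refine small_zero P _ (fun p _ => SX_int an Q.pd he hX hM _ A k L p) hlt ?_
    intro σ
    obtain ⟨π1, π2, h1, h2, h3⟩ := pr.gal σ
    refine ⟨fun p => (π1 p.1, π2 p.2), h3, fun p _ a ha => ?_⟩
    exact SX_gal an Q.pd he hX hM _ A k L σ π1 π2 h1 h2 p a ha
  refine ⟨A, ?_, ?_, ?_, ?_⟩
  · have : ∃ c, x c ≠ 0 := by
      by_contra hc
      push Not at hc
      exact hx0 (funext hc)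
    obtain ⟨⟨⟨s, j⟩, ⟨b, hb⟩⟩, hc⟩ := this
    exact ⟨s, j, b.2, b.1, by rw [hA s j b hb]; exact hc⟩
  · intro s j p q h
    have h1 := (hA0 s j p q h).1
    have h2 := siegel_mem.1 (hA0 s j p q h).2
    simp only at h1 h2
    omega
  · intro s j p q
    by_cases h : (s < 3 * d * la + 1 ∧ j < D) ∧ (⟨q, p⟩ : Σ _ : ℕ, ℕ) ∈ S2
    · have h1 : A s j p q = x ((⟨s, h.1.1⟩, ⟨j, h.1.2⟩), ⟨⟨q, p⟩, h.2⟩) := dif_pos h
      rw [h1]
      exact hxle _
    · have h1 : A s j p q = 0 := dif_neg h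
      rw [h1]
      simp only [Int.cast_zero, abs_zero]
      unfold ZSR
      positivity
  · intro k l hkl
    have he2 := Q.pd.e_pos
    have h1 := cell_zero pr (3 * d * la) A k (l / Q.pd.e) (hcell k _ hkl) (l % Q.pd.e)
      (Nat.mod_lt _ he2) _ pr.mem
    rw [Nat.div_add_mod] at h1
    unfold VX at h1
    have hX0 : (((1 / X0 : ℝ)) : ℂ) ≠ 0 := by
      have : (1 / X0 : ℝ) ≠ 0 := by positivity
      exact_mod_cast this
    have hM0 : (M : ℂ) ≠ 0 := by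
      have : (M : ℝ) ≠ 0 := by
        rw [← hM]
        positivity
      exact_mod_cast this
    have h2 := (mul_eq_zero.1 h1).resolve_left (mul_ne_zero (pow_ne_zero _ hM0)
      (pow_ne_zero _ hX0))
    rw [← h2]
    congr 1
    funext s j
    have h3 := zcR_map Complex.ofRealHom X0 e (an.Z.map an.ψ) k s j
    rw [← an.zs_i0] at h3
    exact h3

end Pool.Agent.H87.AX
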